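import Mathlib
import Pool.Agent.Lib.P0c8ca5Bw.DC

/-!
# P0c8ca5Kp: the alternating sum of the numbers of characters modulo powers of `p`

Tuples `(a, b, c_1, ..., c_M)` of elements of a group `A`.

* `pd c`: the product `c_1 ... c_M`; `vl t = [a, b] c_1 ... c_M`; `gn t`: the generated subgroup.
* `dM S C t`: `1` if `vl t ∈ S` and `c_i ∈ C_i`, otherwise `0`.
* `bM`, `nM`, `eM`: the sums of `dM` over the tuples generating a group between `O^p(U)` and `U`, over
  the tuples in `U`, and over all tuples with the weight `fK`.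
* `KM q p M w`: the divisibility by `q * |C(w)|_p` of the numbers of the tuples with `vl t = w`
  generating all p-regular elements.
-/

namespace Pool.Agent.Lib.P0c8ca5.Kp

open Bw

section
variable {A : Type*} [Group A] {M : ℕ}

/-- tuples `(a, b, c)` -/
abbrev Tu (A : Type*) (M : ℕ) : Type _ := A × A × (Fin M → A)

/-- the ordered product -/
def pd (c : Fin M → A) : A := (List.ofFn c).prod

/-- the value `[a, b] c_1 ... c_M` -/
def vl (t : Tu A M) : A := cmt t.1 t.2.1 * pd t.2.2

/-- the generated subgroup -/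
def gn (t : Tu A M) : Subgroup A := Subgroup.closure ({t.1, t.2.1} ∪ Set.range t.2.2)

/-- conjugation of tuples -/
def cU (g : A) : Tu A M ≃ Tu A M where
  toFun t := (g * t.1 * g⁻¹, g * t.2.1 * g⁻¹, fun i => g * t.2.2 i * g⁻¹)
  invFun t := (g⁻¹ * t.1 * g, g⁻¹ * t.2.1 * g, fun i => g⁻¹ * t.2.2 i * g)
  left_inv t := by
    obtain ⟨a, b, c⟩ := t
    simp only [Prod.mk.injEq]
    exact ⟨by group, by group, by funext i; group⟩
  right_inv t := by
    obtain ⟨a, b, c⟩ := t
    simp only [Prod.mk.injEq]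
    exact ⟨by group, by group, by funext i; group⟩

open Classical in
/-- the weight of a tuple -/
noncomputable def dM (S : Set A) (C : Fin M → Set A) (t : Tu A M) : ℤ :=
  if vl t ∈ S ∧ ∀ i, t.2.2 i ∈ C i then 1 else 0

open Classical in
/-- the sum over the tuples generating a group between `O^p(U)` and `U` -/
noncomputable def bM (p : ℕ) (S : Set A) (C : Fin M → Set A) (U : Subgroup A) : ℤ :=
  ∑ᶠ t : Tu A M, if gn t ≤ U ∧ Opr p U ≤ gn t then dM S C t else 0

open Classical in
/-- the number of the tuples in `U` -/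
noncomputable def nM (S : Set A) (C : Fin M → Set A) (U : Subgroup A) : ℤ :=
  ∑ᶠ t : Tu A M, if gn t ≤ U then dM S C t else 0

/-- the sum of `dM * fK` -/
noncomputable def eM (p : ℕ) (S : Set A) (C : Fin M → Set A) : ℤ :=
  ∑ᶠ t : Tu A M, dM S C t * fK p (gn t)

/-- the divisibility for `w` -/
def KM (q p M : ℕ) (w : A) : Prop := ∀ C : Fin M → Set A, (∀ i, CInv (C i)) →
  q * ordProj[p] (Nat.card (Subgroup.centralizer ({w} : Set A))) ∣
    Nat.card {t : Tu A M // vl t = w ∧ (∀ i, t.2.2 i ∈ C i) ∧ ∀ g : A, Preg p g → g ∈ gn t}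

end

end Pool.Agent.Lib.P0c8ca5.Kp
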