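import Mathlib
import Pool.Agent.Lib.P0c8ca5Ab.Defs

/-!
# P0c8ca5Kp.MDefs: tuples `(a, b, c_0, c_1, ...)` with `[a, b] c_0 ... c_(M-1) = w`

* `pp j c`: the product of the first `j` elements;
* `Pw3`: `[a, b] c_0 ... c_(M-1) = w` and the elements generate all p-regular elements;
* `XM p w M C`: the tuples with `c_i ∈ C_i`, `C_i = {1}` for `i ≥ M`;
* `HyT`, `Pt`: the same for the pair `(a, b)` with the set `T` of the `c_i` fixed; `S` a p-subgroup
  commuting with `T` and with `w = [a, b]`;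
* `Sc S c`: the elements of `S` commuting with all `c_i`.
-/

namespace Pool.Agent.Lib.P0c8ca5.Kp

open Ab

section
variable {G : Type*} [Group G]

/-- the product of the first `j` elements -/
def pp : ℕ → (ℕ → G) → G
  | 0, _ => 1
  | j + 1, c => pp j c * c j

/-- `C i` is invariant under conjugation and consists of `1` for `i ≥ M` -/
structure CI (M : ℕ) (C : ℕ → Set G) : Prop where
  cj : ∀ i, ∀ g : G, ∀ c ∈ C i, g * c * g⁻¹ ∈ C i
  on : ∀ i, M ≤ i → ∀ c ∈ C i, c = 1

/-- the conditions on a tuple -/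
structure Pw3 (p : ℕ) (w : G) (M : ℕ) (C : ℕ → Set G) (x : G × G × (ℕ → G)) : Prop where
  cm : cmt x.1 x.2.1 * pp M x.2.2 = w
  me : ∀ i, x.2.2 i ∈ C i
  ge : ∀ g : G, Preg p g → g ∈ Subgroup.closure ({x.1, x.2.1} ∪ Set.range x.2.2 : Set G)

/-- the set of the tuples -/
def XM (p : ℕ) (w : G) (M : ℕ) (C : ℕ → Set G) : Type _ :=
  {x : G × G × (ℕ → G) // Pw3 p w M C x}

/-- the hypotheses on the group, the element `w` and the p-subgroup `S` -/
structure HyS (p k : ℕ) (S : Subgroup G) (w : G) : Prop where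
  no : NoP p (⊤ : Subgroup G)
  pS : IsPGroup p S
  cw : ∀ x ∈ S, x * w = w * x
  pk : ∀ g : G, Pel p (g ^ k)

/-- the hypotheses on the group, the commutator, the set `T` and the p-subgroup -/
structure HyT (p k : ℕ) (S : Subgroup G) (T : Set G) (w : G) : Prop where
  no : NoP p (⊤ : Subgroup G)
  pS : IsPGroup p S
  cc : ∀ x ∈ S, ∀ c ∈ T, x * c = c * x
  cw : ∀ x ∈ S, x * w = w * x
  pk : ∀ g : G, Pel p (g ^ k)

/-- pairs with commutator `w` that generate with `T` all p-regular elements -/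
structure Pt (p : ℕ) (T : Set G) (w a b : G) : Prop where
  cm : cmt a b = w
  ge : ∀ g : G, Preg p g → g ∈ Subgroup.closure ({a, b} ∪ T : Set G)

/-- the elements of `S` commuting with all `c i` -/
def Sc (S : Subgroup G) (c : ℕ → G) : Subgroup G := S ⊓ Subgroup.centralizer (Set.range c)

theorem mem_Sc {S : Subgroup G} {c : ℕ → G} {x : G} :
    x ∈ Sc S c ↔ x ∈ S ∧ ∀ i, x * c i = c i * x := by
  unfold Sc
  rw [Subgroup.mem_inf, Subgroup.mem_centralizer_iff]
  constructor
  · rintro ⟨h1, h2⟩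
    exact ⟨h1, fun i => (h2 (c i) ⟨i, rfl⟩).symm⟩
  · rintro ⟨h1, h2⟩
    refine ⟨h1, ?_⟩
    rintro _ ⟨i, rfl⟩
    exact (h2 i).symm

end

end Pool.Agent.Lib.P0c8ca5.Kp
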