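import Mathlib
import Pool.Agent.Lib.P0c8ca5Ab.Act
import Pool.Agent.Lib.P0c8ca5Kp.MDefs

/-!
# P0c8ca5Kp.MFil: the filtration for tuples

The proofs of `P0c8ca5Id.K3Fil` with a set `T` in place of the element `c`: `G` finite, `O_p(G) = 1`, `S` a
p-subgroup commuting with `T` and `w`, `(a, b)` a pair with `[a, b] = w` that generates with `T` all
p-regular elements. The sets `RS S k a b n` of `P0c8ca5Ab.Defs` are commutative subgroups, and they
are the same for `(a, v b)`, `v ∈ RS n ⟨cq k a b⟩`.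
-/

namespace Pool.Agent.Lib.P0c8ca5.Kp

open Ab
open scoped commutatorElement

section
variable {G : Type*} [Group G] {p k : ℕ} {S : Subgroup G} {T : Set G}
  {w a b : G}

theorem comm_b (hc : cmt a b = w) {y : G} (hya : y * a = a * y) (hyw : y * w = w * y) :
    y * (b * a * b⁻¹) = (b * a * b⁻¹) * y := by
  have h1 : b * a * b⁻¹ = w⁻¹ * a := by
    rw [← hc]
    unfold cmt
    group
  have h2 : Commute y (w⁻¹ * a) :=
    ((show Commute y w from hyw).inv_right).mul_right (show Commute y a from hya)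
  rw [h1]
  exact h2.eq

theorem RS_sub {n : ℕ} {y : G} (h : y ∈ RS S k a b n) : y ∈ S ∧ y * a = a * y := by
  cases n with
  | zero =>
    have h1 : y = 1 := h
    subst h1
    exact ⟨S.one_mem, by simp⟩
  | succ n => exact ⟨h.1, h.2.1⟩

theorem one_mem_RS (n : ℕ) : (1 : G) ∈ RS S k a b n := by
  induction n with
  | zero => exact rfl
  | succ n ih => exact ⟨S.one_mem, by simp, 1, ih, 0, by simp⟩

theorem RS_le_succ (n : ℕ) : RS S k a b n ⊆ RS S k a b (n + 1) := by
  induction n with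
  | zero =>
    intro y hy
    have h1 : y = 1 := hy
    subst h1
    exact one_mem_RS _
  | succ n ih =>
    rintro y ⟨h1, h2, z, hz, j, h3⟩
    exact ⟨h1, h2, z, ih hz, j, h3⟩

theorem RS_mono {m n : ℕ} (h : m ≤ n) : RS S k a b m ⊆ RS S k a b n := by
  induction h with
  | refl => exact fun _ h => h
  | step _ ih => exact fun _ hx => RS_le_succ _ (ih hx)

/-- the elements of `S` commuting with `a` commute with the powers of `cq k a b` -/
theorem comm_cq (hy : HyT p k S T w) (hc : cmt a b = w) {y : G} (hyS : y ∈ S)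
    (hya : y * a = a * y) : Commute y (cq k a b) := by
  unfold cq
  exact (show Commute y (b * a * b⁻¹) from comm_b hc hya (hy.cw y hyS)).pow_right k

theorem cmt_D {n : ℕ} {y : G} (h : y ∈ RS S k a b n) :
    ∃ z ∈ RS S k a b n, ∃ j : ℤ, y * b * y⁻¹ * b⁻¹ = z * cq k a b ^ j := by
  have h1 := RS_le_succ n h
  exact h1.2.2

/-- `RS S k a b n` is a subgroup -/
def Grp (S : Subgroup G) (k : ℕ) (a b : G) (n : ℕ) : Prop :=
  (∀ x ∈ RS S k a b n, ∀ y ∈ RS S k a b n, x * y ∈ RS S k a b n) ∧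
    ∀ x ∈ RS S k a b n, x⁻¹ ∈ RS S k a b n

/-- the subgroup -/
def RG {n : ℕ} (g : Grp S k a b n) : Subgroup G where
  carrier := RS S k a b n
  mul_mem' := fun h1 h2 => g.1 _ h1 _ h2
  one_mem' := one_mem_RS n
  inv_mem' := fun h1 => g.2 _ h1

theorem mem_RG {n : ℕ} (g : Grp S k a b n) {x : G} : x ∈ RG g ↔ x ∈ RS S k a b n := Iff.rfl

theorem triv [Finite G] [Fact p.Prime] (hy : HyT p k S T w) (h : Pt p T w a b) {W : Subgroup G}
    (hWS : W ≤ S) (ha : ∀ v ∈ W, a * v * a⁻¹ ∈ W) (hb : ∀ v ∈ W, b * v * b⁻¹ ∈ W) :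
    W = ⊥ := by
  refine norm_trivial hy.no le_top (hy.pS.to_le hWS) ?_
  have h1 : Opr p (⊤ : Subgroup G) ≤ Subgroup.closure ({a, b} ∪ T : Set G) := by
    unfold Opr
    rw [Subgroup.closure_le]
    exact fun x hx => h.ge x hx.2
  refine h1.trans ?_
  rw [Subgroup.closure_le]
  rintro x ((rfl | hx) | hx)
  · exact Subgroup.mem_normalizer_fintype ha
  · rw [Set.mem_singleton_iff] at hx
    subst hx
    exact Subgroup.mem_normalizer_fintype hb
  · refine Subgroup.mem_normalizer_fintype fun v hv => ?_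
    have h2 := hy.cc v (hWS hv) x hx
    rw [← h2, mul_assoc, mul_inv_cancel, mul_one]
    exact hv

/-- `RS S k a b n` is commutative -/
theorem RS_comm [Finite G] [Fact p.Prime] (hy : HyT p k S T w) (h : Pt p T w a b) {n : ℕ}
    (g : Grp S k a b n) {x y : G} (hx : x ∈ RS S k a b n) (hy' : y ∈ RS S k a b n) :
    Commute x y := by
  set D : Subgroup G := RG g with hD
  have hDS : D ≤ S := fun z hz => (RS_sub ((mem_RG g).1 hz)).1
  have hWD : ⁅D, D⁆ ≤ D := Subgroup.commutator_le_self D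
  have hbD : ∀ z ∈ D, ∃ z' ∈ D, ∃ j : ℤ, b * z * b⁻¹ = z' * cq k a b ^ j := by
    intro z hz
    obtain ⟨z', hz', j, h1⟩ := cmt_D ((mem_RG g).1 (D.inv_mem hz))
    refine ⟨z * z', D.mul_mem hz ((mem_RG g).2 hz'), j, ?_⟩
    rw [mul_assoc z, ← h1]
    group
  have hcD : ∀ z ∈ D, ∀ j : ℤ, Commute z (cq k a b ^ j) := by
    intro z hz j
    have h1 := RS_sub ((mem_RG g).1 hz)
    exact (comm_cq hy h.cm h1.1 h1.2).zpow_right j
  have hW : ⁅D, D⁆ = ⊥ := by
    refine triv hy h (hWD.trans hDS) ?_ ?_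
    · intro v hv
      have h1 := (RS_sub ((mem_RG g).1 (hWD hv))).2
      rw [← h1, mul_assoc, mul_inv_cancel, mul_one]
      exact hv
    · have h2 : (⁅D, D⁆).map (MulAut.conj b).toMonoidHom ≤ ⁅D, D⁆ := by
        rw [Subgroup.map_commutator, Subgroup.commutator_le]
        rintro _ ⟨x1, hx1, rfl⟩ _ ⟨y1, hy1, rfl⟩
        obtain ⟨x2, hx2, i, hi⟩ := hbD x1 hx1
        obtain ⟨y2, hy2, j, hj⟩ := hbD y1 hy1
        have h3 : (MulAut.conj b).toMonoidHom x1 = x2 * cq k a b ^ i := by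
          simpa [MulAut.conj_apply] using hi
        have h4 : (MulAut.conj b).toMonoidHom y1 = y2 * cq k a b ^ j := by
          simpa [MulAut.conj_apply] using hj
        rw [h3, h4]
        have h5 : ⁅x2 * cq k a b ^ i, y2 * cq k a b ^ j⁆ = ⁅x2, y2⁆ := by
          have e1 := hcD x2 hx2 i
          have e2 := hcD y2 hy2 j
          have e3 := hcD x2 hx2 j
          have e4 := hcD y2 hy2 i
          have e5 : Commute (cq k a b ^ i) (cq k a b ^ j) :=
            (Commute.refl (cq k a b)).zpow_zpow i j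
          rw [commutatorElement_def, commutatorElement_def, mul_inv_rev, mul_inv_rev]
          have f1 : Commute (cq k a b ^ i) (y2 * cq k a b ^ j) := e4.symm.mul_right e5
          calc x2 * cq k a b ^ i * (y2 * cq k a b ^ j) * ((cq k a b ^ i)⁻¹ * x2⁻¹) *
                ((cq k a b ^ j)⁻¹ * y2⁻¹)
              = x2 * (cq k a b ^ i * (y2 * cq k a b ^ j)) * (cq k a b ^ i)⁻¹ * x2⁻¹ *
                (cq k a b ^ j)⁻¹ * y2⁻¹ := by group
            _ = x2 * ((y2 * cq k a b ^ j) * cq k a b ^ i) * (cq k a b ^ i)⁻¹ * x2⁻¹ *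
                (cq k a b ^ j)⁻¹ * y2⁻¹ := by rw [f1.eq]
            _ = x2 * y2 * (cq k a b ^ j * x2⁻¹) * (cq k a b ^ j)⁻¹ * y2⁻¹ := by group
            _ = x2 * y2 * (x2⁻¹ * cq k a b ^ j) * (cq k a b ^ j)⁻¹ * y2⁻¹ := by
                rw [(e3.symm.inv_right).eq]
            _ = x2 * y2 * x2⁻¹ * y2⁻¹ := by group
        rw [h5]
        exact Subgroup.commutator_mem_commutator hx2 hy2
      intro v hv
      have h3 := h2 (Subgroup.mem_map.2 ⟨v, hv, rfl⟩)
      simpa [MulAut.conj_apply] using h3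
  have h6 : ⁅x, y⁆ ∈ ⁅D, D⁆ := Subgroup.commutator_mem_commutator hx hy'
  rw [hW, Subgroup.mem_bot, commutatorElement_eq_one_iff_commute] at h6
  exact h6

theorem cq_cj (s : G) : cq k (s * a * s⁻¹) (s * b * s⁻¹) = s * cq k a b * s⁻¹ := by
  unfold cq
  have h1 : s * b * s⁻¹ * (s * a * s⁻¹) * (s * b * s⁻¹)⁻¹ = s * (b * a * b⁻¹) * s⁻¹ := by group
  rw [h1, conj_pow]

theorem cj_mem {s : G} (hs : s ∈ S) : ∀ x ∈ S, s * x * s⁻¹ ∈ S :=
  fun _ hx => S.mul_mem (S.mul_mem hs hx) (S.inv_mem hs)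

/-- conjugation by `s` -/
theorem RS_cj {S' : Subgroup G} {s : G} (hs : ∀ x ∈ S, s * x * s⁻¹ ∈ S') {n : ℕ} {y : G}
    (h : y ∈ RS S k a b n) : s * y * s⁻¹ ∈ RS S' k (s * a * s⁻¹) (s * b * s⁻¹) n := by
  induction n generalizing y with
  | zero =>
    have h1 : y = 1 := h
    subst h1
    have h2 : s * 1 * s⁻¹ = (1 : G) := by group
    rw [h2]
    exact one_mem_RS _
  | succ n ih =>
    obtain ⟨h1, h2, z, hz, j, h3⟩ := h
    refine ⟨hs y h1, ?_, s * z * s⁻¹, ih hz, j, ?_⟩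
    · calc s * y * s⁻¹ * (s * a * s⁻¹) = s * (y * a) * s⁻¹ := by group
        _ = s * (a * y) * s⁻¹ := by rw [h2]
        _ = s * a * s⁻¹ * (s * y * s⁻¹) := by group
    · calc s * y * s⁻¹ * (s * b * s⁻¹) * (s * y * s⁻¹)⁻¹ * (s * b * s⁻¹)⁻¹
          = s * (y * b * y⁻¹ * b⁻¹) * s⁻¹ := by group
        _ = s * (z * cq k a b ^ j) * s⁻¹ := by rw [h3]
        _ = s * z * s⁻¹ * (s * cq k a b ^ j * s⁻¹) := by group
        _ = s * z * s⁻¹ * cq k (s * a * s⁻¹) (s * b * s⁻¹) ^ j := by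
            rw [cq_cj, conj_zpow]

theorem cq_comm_b (v : G) (hv : v * (b * a * b⁻¹) = (b * a * b⁻¹) * v) :
    cq k a (v * b) = cq k a b := by
  unfold cq
  have h1 : v * b * a * (v * b)⁻¹ = b * a * b⁻¹ := by
    calc v * b * a * (v * b)⁻¹ = v * (b * a * b⁻¹) * v⁻¹ := by group
      _ = b * a * b⁻¹ * v * v⁻¹ := by rw [hv]
      _ = b * a * b⁻¹ := by group
  rw [h1]

theorem cmt_comm_b (hc : cmt a b = w) (v : G) (hv : v * (b * a * b⁻¹) = (b * a * b⁻¹) * v) :
    cmt a (v * b) = w := by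
  rw [← hc]
  unfold cmt
  have h1 : Commute v (b * a * b⁻¹)⁻¹ := (show Commute v (b * a * b⁻¹) from hv).inv_right
  calc a * (v * b) * a⁻¹ * (v * b)⁻¹ = a * (v * (b * a * b⁻¹)⁻¹) * v⁻¹ := by group
    _ = a * ((b * a * b⁻¹)⁻¹ * v) * v⁻¹ := by rw [h1.eq]
    _ = a * b * a⁻¹ * b⁻¹ := by group

/-- the elements `z * cq ^ i`, `z ∈ RS n`, commute with `b a b⁻¹` -/
theorem zc_comm_b (hy : HyT p k S T w) (hc : cmt a b = w) {n : ℕ} {z : G}
    (hz : z ∈ RS S k a b n) (i : ℤ) :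
    Commute (z * cq k a b ^ i) (b * a * b⁻¹) := by
  have h1 := RS_sub hz
  have h2 : Commute z (b * a * b⁻¹) := comm_b hc h1.2 (hy.cw z h1.1)
  have h3 : Commute (cq k a b ^ i) (b * a * b⁻¹) := by
    unfold cq
    exact ((Commute.refl (b * a * b⁻¹)).pow_left k).zpow_left i
  exact h2.mul_left h3

section lvl
variable [Finite G] [Fact p.Prime] {n : ℕ} {z : G} {i : ℤ}

theorem y_comm_v (hy : HyT p k S T w) (h : Pt p T w a b) (g : Grp S k a b n)
    (hz : z ∈ RS S k a b n) {y : G} (hy' : y ∈ RS S k a b n) :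
    Commute y (z * cq k a b ^ i) := by
  have h1 := RS_sub hy'
  exact (RS_comm hy h g hy' hz).mul_right ((comm_cq hy h.cm h1.1 h1.2).zpow_right i)

theorem cmt_yv (hy : HyT p k S T w) (h : Pt p T w a b) (g : Grp S k a b n)
    (hz : z ∈ RS S k a b n) {y : G} (hy' : y ∈ RS S k a b n) {z' : G}
    (hz' : z' ∈ RS S k a b n) {j : ℤ} (h3 : y * b * y⁻¹ * b⁻¹ = z' * cq k a b ^ j) :
    y * (z * cq k a b ^ i * b) * y⁻¹ * (z * cq k a b ^ i * b)⁻¹ = z' * cq k a b ^ j := by
  have h4 := y_comm_v (i := i) hy h g hz hy'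
  have h5 := y_comm_v (i := i) hy h g hz hz'
  have h6 : Commute (cq k a b ^ j) (z * cq k a b ^ i) := by
    have h1 := RS_sub hz
    exact (((comm_cq hy h.cm h1.1 h1.2).zpow_right j).symm).mul_right
      ((Commute.refl (cq k a b)).zpow_zpow j i)
  set v := z * cq k a b ^ i with hv
  calc y * (v * b) * y⁻¹ * (v * b)⁻¹ = (y * v) * b * y⁻¹ * b⁻¹ * v⁻¹ := by group
    _ = (v * y) * b * y⁻¹ * b⁻¹ * v⁻¹ := by rw [h4.eq]
    _ = v * (y * b * y⁻¹ * b⁻¹) * v⁻¹ := by group
    _ = v * (z' * cq k a b ^ j) * v⁻¹ := by rw [h3]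
    _ = (z' * cq k a b ^ j) * v * v⁻¹ := by rw [(h5.mul_left h6).symm.eq]
    _ = z' * cq k a b ^ j := by group

theorem RS_vb_le (hy : HyT p k S T w) (h : Pt p T w a b) (g : Grp S k a b n)
    (hz : z ∈ RS S k a b n) {j : ℕ} (hj : j ≤ n) {y : G} (hy' : y ∈ RS S k a b j) :
    y ∈ RS S k a (z * cq k a b ^ i * b) j := by
  have hcq : cq k a (z * cq k a b ^ i * b) = cq k a b :=
    cq_comm_b _ (zc_comm_b hy h.cm hz i).eq
  induction j generalizing y with
  | zero =>
    have h1 : y = 1 := hy'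
    subst h1
    exact one_mem_RS _
  | succ j ih =>
    obtain ⟨h1, h2, z', hz', l, h3⟩ := hy'
    refine ⟨h1, h2, z', ih (by omega) hz', l, ?_⟩
    rw [hcq]
    exact cmt_yv hy h g hz (RS_mono hj ⟨h1, h2, z', hz', l, h3⟩)
      (RS_mono (by omega) hz') h3

/-- p-regular elements of the group generated by `a`, `v b` and `RS j` -/
theorem preg_K (hy : HyT p k S T w) (h : Pt p T w a b) (g : ∀ j ≤ n, Grp S k a b j)
    (hz : z ∈ RS S k a b n) {j : ℕ} (hj : j ≤ n) {x : G} (hx : Preg p x)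
    (hxK : x ∈ Subgroup.closure ({a, z * cq k a b ^ i * b} ∪ T ∪ RS S k a b j)) :
    x ∈ Subgroup.closure ({a, z * cq k a b ^ i * b} ∪ T : Set G) := by
  induction j generalizing x with
  | zero =>
    refine (Subgroup.closure_le _).2 ?_ hxK
    rintro y (hy1 | hy1)
    · exact Subgroup.subset_closure hy1
    · have h1 : y = 1 := hy1
      subst h1
      exact Subgroup.one_mem _
  | succ j ih =>
    set v := z * cq k a b ^ i with hv
    have hcq : cq k a (v * b) = cq k a b := cq_comm_b _ (zc_comm_b hy h.cm hz i).eq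
    set N : Subgroup G := Subgroup.closure ({a, v * b} ∪ T ∪ RS S k a b j) with hN
    have haN : a ∈ N := Subgroup.subset_closure (Or.inl (Or.inl (Or.inl rfl)))
    have hbN : v * b ∈ N := Subgroup.subset_closure (Or.inl (Or.inl (Or.inr rfl)))
    have hccN : ∀ c ∈ T, c ∈ N := fun c hc => Subgroup.subset_closure (Or.inl (Or.inr hc))
    have hRN : ∀ y ∈ RS S k a b j, y ∈ N := fun y hy1 => Subgroup.subset_closure (Or.inr hy1)
    have hcN : cq k a b ∈ N := by
      rw [← hcq]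
      unfold cq
      exact N.pow_mem (N.mul_mem (N.mul_mem hbN haN) (N.inv_mem hbN)) k
    -- the elements of `RS (j+1)` normalize `N`
    have hnorm : ∀ y ∈ RS S k a b (j + 1), ∀ x ∈ N, y * x * y⁻¹ ∈ N := by
      intro y hy1 x hx1
      have hyn : y ∈ RS S k a b n := RS_mono hj hy1
      have h1 : N ≤ N.comap (MulAut.conj y).toMonoidHom := by
        rw [hN, Subgroup.closure_le]
        rintro t (((ht | ht) | ht) | ht)
        · rw [ht]
          change y * a * y⁻¹ ∈ N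
          rw [(RS_sub hy1).2, mul_assoc, mul_inv_cancel, mul_one]
          exact haN
        · rw [Set.mem_singleton_iff] at ht
          rw [ht]
          change y * (v * b) * y⁻¹ ∈ N
          obtain ⟨-, -, z', hz', l, h3⟩ := hy1
          have h4 := cmt_yv (i := i) hy h (g n le_rfl) hz hyn (RS_mono (by omega) hz') h3
          have h5 : y * (v * b) * y⁻¹ = (z' * cq k a b ^ l) * (v * b) := by
            rw [← h4, ← hv]
            group
          rw [h5]
          exact N.mul_mem (N.mul_mem (hRN z' hz') (N.zpow_mem hcN l)) hbN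
        · change y * t * y⁻¹ ∈ N
          rw [hy.cc y (RS_sub hyn).1 t ht, mul_assoc, mul_inv_cancel, mul_one]
          exact hccN t ht
        · change y * t * y⁻¹ ∈ N
          have h2 := RS_comm hy h (g n le_rfl) hyn (RS_mono (by omega) ht)
          rw [h2.eq, mul_assoc, mul_inv_cancel, mul_one]
          exact hRN t ht
      exact h1 hx1
    have hg := g (j + 1) hj
    -- products
    let M : Subgroup G :=
      { carrier := {x | ∃ y ∈ RS S k a b (j + 1), x * y⁻¹ ∈ N}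
        mul_mem' := by
          rintro x1 x2 ⟨y1, hy1, h1⟩ ⟨y2, hy2, h2⟩
          refine ⟨y1 * y2, hg.1 _ hy1 _ hy2, ?_⟩
          have h3 := hnorm y1 hy1 _ h2
          have h4 : x1 * x2 * (y1 * y2)⁻¹ = x1 * y1⁻¹ * (y1 * (x2 * y2⁻¹) * y1⁻¹) := by group
          rw [h4]
          exact N.mul_mem h1 h3
        one_mem' := ⟨1, one_mem_RS _, by simp⟩
        inv_mem' := by
          rintro x1 ⟨y1, hy1, h1⟩
          refine ⟨y1⁻¹, hg.2 _ hy1, ?_⟩
          have h3 := hnorm y1⁻¹ (hg.2 _ hy1) _ (N.inv_mem h1)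
          have h4 : x1⁻¹ * y1⁻¹⁻¹ = y1⁻¹ * (x1 * y1⁻¹)⁻¹ * y1⁻¹⁻¹ := by group
          rw [h4]
          exact h3 }
    have hKM : Subgroup.closure ({a, v * b} ∪ T ∪ RS S k a b (j + 1)) ≤ M := by
      rw [Subgroup.closure_le]
      rintro t (((ht | ht) | ht) | ht)
      · rw [ht]
        exact ⟨1, one_mem_RS _, by simpa using haN⟩
      · rw [Set.mem_singleton_iff] at ht
        rw [ht]
        exact ⟨1, one_mem_RS _, by simpa using hbN⟩
      · exact ⟨1, one_mem_RS _, by simpa using hccN t ht⟩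
      · exact ⟨t, ht, by simp⟩
    obtain ⟨y, hy1, h1⟩ := hKM hxK
    -- powers
    have hpow : ∀ r : ℕ, y ^ r ∈ RS S k a b (j + 1) ∧ x ^ r * (y ^ r)⁻¹ ∈ N := by
      intro r
      induction r with
      | zero => exact ⟨by rw [pow_zero]; exact one_mem_RS _, by simp⟩
      | succ r ihr =>
        refine ⟨by rw [pow_succ]; exact hg.1 _ ihr.1 _ hy1, ?_⟩
        have h3 := hnorm _ ihr.1 _ h1
        have h4 : x ^ (r + 1) * (y ^ (r + 1))⁻¹ =
            x ^ r * (y ^ r)⁻¹ * (y ^ r * (x * y⁻¹) * (y ^ r)⁻¹) := by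
          rw [pow_succ x, pow_succ y]
          group
        rw [h4]
        exact N.mul_mem ihr.2 h3
    obtain ⟨m, hm⟩ := hy.pS ⟨y, (RS_sub hy1).1⟩
    have hm' : y ^ p ^ m = 1 := congrArg Subtype.val hm
    have h5 := (hpow (p ^ m)).2
    rw [hm', inv_one, mul_one] at h5
    exact ih (by omega) hx (mem_of_preg hx h5)

theorem Pw_vb_lvl (hy : HyT p k S T w) (h : Pt p T w a b) (g : ∀ j ≤ n, Grp S k a b j)
    (hz : z ∈ RS S k a b n) : Pt p T w a (z * cq k a b ^ i * b) := by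
  refine ⟨cmt_comm_b h.cm _ (zc_comm_b hy h.cm hz i).eq, fun x hx => ?_⟩
  refine preg_K hy h g hz le_rfl hx ?_
  have hcq : cq k a (z * cq k a b ^ i * b) = cq k a b :=
    cq_comm_b _ (zc_comm_b hy h.cm hz i).eq
  set v := z * cq k a b ^ i with hv
  set N : Subgroup G := Subgroup.closure ({a, v * b} ∪ T ∪ RS S k a b n) with hN
  have haN : a ∈ N := Subgroup.subset_closure (Or.inl (Or.inl (Or.inl rfl)))
  have hbN : v * b ∈ N := Subgroup.subset_closure (Or.inl (Or.inl (Or.inr rfl)))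
  have hccN : ∀ c ∈ T, c ∈ N := fun c hc => Subgroup.subset_closure (Or.inl (Or.inr hc))
  have hzN : z ∈ N := Subgroup.subset_closure (Or.inr hz)
  have hcN : cq k a b ∈ N := by
    rw [← hcq]
    unfold cq
    exact N.pow_mem (N.mul_mem (N.mul_mem hbN haN) (N.inv_mem hbN)) k
  have hvN : v ∈ N := N.mul_mem hzN (N.zpow_mem hcN i)
  have hbN' : b ∈ N := by
    have := N.mul_mem (N.inv_mem hvN) hbN
    simpa using this
  refine (Subgroup.closure_le N).2 ?_ (h.ge x hx)
  rintro t ((ht | ht) | ht)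
  · rw [ht]
    exact haN
  · rw [Set.mem_singleton_iff] at ht
    rw [ht]
    exact hbN'
  · exact hccN t ht

theorem RS_vb_lvl (hy : HyT p k S T w) (h : Pt p T w a b) (g : ∀ j ≤ n, Grp S k a b j)
    (hz : z ∈ RS S k a b n) (g' : ∀ j ≤ n, Grp S k a (z * cq k a b ^ i * b) j) {j : ℕ}
    (hj : j ≤ n) :
    RS S k a (z * cq k a b ^ i * b) j = RS S k a b j := by
  have hcq : cq k a (z * cq k a b ^ i * b) = cq k a b :=
    cq_comm_b _ (zc_comm_b hy h.cm hz i).eq
  refine Set.Subset.antisymm ?_ (fun y hy' => RS_vb_le hy h (g n le_rfl) hz hj hy')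
  intro y hy'
  have h' := Pw_vb_lvl (i := i) hy h g hz
  have hz' : z⁻¹ ∈ RS S k a (z * cq k a b ^ i * b) n :=
    (g' n le_rfl).2 _ (RS_vb_le hy h (g n le_rfl) hz le_rfl hz)
  have h1 := RS_vb_le (i := -i) hy h' (g' n le_rfl) hz' hj hy'
  have h2 : z⁻¹ * cq k a (z * cq k a b ^ i * b) ^ (-i) * (z * cq k a b ^ i * b) = b := by
    rw [hcq]
    have h3 := RS_sub hz
    have h4 := (comm_cq hy h.cm h3.1 h3.2).zpow_right (-i)
    calc z⁻¹ * cq k a b ^ (-i) * (z * cq k a b ^ i * b)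
        = z⁻¹ * (cq k a b ^ (-i) * z) * cq k a b ^ i * b := by group
      _ = z⁻¹ * (z * cq k a b ^ (-i)) * cq k a b ^ i * b := by rw [h4.eq]
      _ = b := by group
  rw [h2] at h1
  exact h1

end lvl

/-- all `RS S k a b n` are subgroups -/
theorem grp_all [Finite G] [Fact p.Prime] (hy : HyT p k S T w) (n : ℕ) :
    ∀ a b : G, Pt p T w a b → ∀ j ≤ n, Grp S k a b j := by
  induction n with
  | zero =>
    intro a b _ j hj
    obtain rfl : j = 0 := by omega
    refine ⟨?_, ?_⟩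
    · intro x hx y hy'
      have h1 : x = 1 := hx
      have h2 : y = 1 := hy'
      rw [h1, h2, one_mul]
      exact one_mem_RS _
    · intro x hx
      have h1 : x = 1 := hx
      rw [h1, inv_one]
      exact one_mem_RS _
  | succ n ih =>
    intro a b h j hj
    rcases Nat.lt_or_ge j (n + 1) with hj' | hj'
    · exact ih a b h j (by omega)
    obtain rfl : j = n + 1 := by omega
    have g := ih a b h
    -- the elements of `RS (n+1)` normalize `RS n`
    have key : ∀ y ∈ RS S k a b (n + 1), RS S k (y * a * y⁻¹) (y * b * y⁻¹) n = RS S k a b n := by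
      intro y hy'
      obtain ⟨h1, h2, z, hz, l, h3⟩ := hy'
      have h4 : y * a * y⁻¹ = a := by rw [h2]; group
      have h5 : y * b * y⁻¹ = z * cq k a b ^ l * b := by rw [← h3]; group
      rw [h4, h5]
      exact RS_vb_lvl hy h g hz (ih _ _ (Pw_vb_lvl hy h g hz)) le_rfl
    have k1 : ∀ y ∈ RS S k a b (n + 1), ∀ x ∈ RS S k a b n, y * x * y⁻¹ ∈ RS S k a b n := by
      intro y hy' x hx
      have h1 := RS_cj (cj_mem (RS_sub hy').1) hx
      rw [key y hy'] at h1
      exact h1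
    have k2 : ∀ y ∈ RS S k a b (n + 1), ∀ x ∈ RS S k a b n, y⁻¹ * x * y ∈ RS S k a b n := by
      intro y hy' x hx
      rw [← key y hy'] at hx
      have h1 := RS_cj (cj_mem (S.inv_mem (RS_sub hy').1)) hx
      have e1 : y⁻¹ * (y * a * y⁻¹) * y⁻¹⁻¹ = a := by group
      have e2 : y⁻¹ * (y * b * y⁻¹) * y⁻¹⁻¹ = b := by group
      rw [e1, e2, inv_inv] at h1
      exact h1
    refine ⟨?_, ?_⟩
    · intro x hx y hy'
      have hx0 := hx
      obtain ⟨h1, h2, z, hz, l, h3⟩ := hx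
      obtain ⟨h1', h2', z', hz', l', h3'⟩ := hy'
      refine ⟨S.mul_mem h1 h1', ?_, x * z' * x⁻¹ * z, (g n le_rfl).1 _ (k1 x hx0 z' hz') _ hz,
        l' + l, ?_⟩
      · exact ((show Commute x a from h2).mul_left (show Commute y a from h2')).eq
      · have e1 : Commute x (cq k a b ^ l') := (comm_cq hy h.cm h1 h2).zpow_right l'
        have e2 : Commute z (cq k a b ^ l') :=
          (comm_cq hy h.cm (RS_sub hz).1 (RS_sub hz).2).zpow_right l'
        calc x * y * b * (x * y)⁻¹ * b⁻¹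
            = x * (y * b * y⁻¹ * b⁻¹) * x⁻¹ * (x * b * x⁻¹ * b⁻¹) := by group
          _ = x * (z' * cq k a b ^ l') * x⁻¹ * (z * cq k a b ^ l) := by rw [h3, h3']
          _ = x * z' * (cq k a b ^ l' * x⁻¹) * z * cq k a b ^ l := by group
          _ = x * z' * (x⁻¹ * cq k a b ^ l') * z * cq k a b ^ l := by
              rw [(e1.symm.inv_right).eq]
          _ = x * z' * x⁻¹ * (cq k a b ^ l' * z) * cq k a b ^ l := by group
          _ = x * z' * x⁻¹ * (z * cq k a b ^ l') * cq k a b ^ l := by rw [e2.symm.eq]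
          _ = x * z' * x⁻¹ * z * cq k a b ^ (l' + l) := by rw [zpow_add]; group
    · intro x hx
      have hx0 := hx
      obtain ⟨h1, h2, z, hz, l, h3⟩ := hx
      refine ⟨S.inv_mem h1, ?_, x⁻¹ * z⁻¹ * x, k2 x hx0 _ ((g n le_rfl).2 _ hz), -l, ?_⟩
      · exact ((show Commute x a from h2).inv_left).eq
      · have e1 : Commute x (cq k a b ^ (-l)) := (comm_cq hy h.cm h1 h2).zpow_right (-l)
        have e2 : Commute z (cq k a b ^ (-l)) :=
          (comm_cq hy h.cm (RS_sub hz).1 (RS_sub hz).2).zpow_right (-l)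
        calc x⁻¹ * b * x⁻¹⁻¹ * b⁻¹ = x⁻¹ * (x * b * x⁻¹ * b⁻¹)⁻¹ * x := by group
          _ = x⁻¹ * (z * cq k a b ^ l)⁻¹ * x := by rw [h3]
          _ = x⁻¹ * (cq k a b ^ (-l) * z⁻¹) * x := by rw [mul_inv_rev, zpow_neg]
          _ = x⁻¹ * (z⁻¹ * cq k a b ^ (-l)) * x := by rw [(e2.symm.inv_right).eq]
          _ = x⁻¹ * z⁻¹ * (cq k a b ^ (-l) * x) := by group
          _ = x⁻¹ * z⁻¹ * (x * cq k a b ^ (-l)) := by rw [e1.symm.eq]
          _ = x⁻¹ * z⁻¹ * x * cq k a b ^ (-l) := by group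

theorem grp [Finite G] [Fact p.Prime] (hy : HyT p k S T w) (h : Pt p T w a b) (n : ℕ) :
    Grp S k a b n := grp_all hy n a b h n le_rfl

end

end Pool.Agent.Lib.P0c8ca5.Kp
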