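import Mathlib
import Pool.Agent.Lib.P0c8ca5Kp.MFil

/-!
# P0c8ca5Kp.MFib: the commutative groups `Qg ≤ Vg` of a tuple

The proofs of `P0c8ca5Id.K3Fib` with a set `T` in place of the element `c`.
-/

namespace Pool.Agent.Lib.P0c8ca5.Kp

open Ab

section
variable {G : Type*} [Group G] [Finite G] {p k : ℕ} [Fact p.Prime] {S : Subgroup G}
  {T : Set G} {w a b : G}

theorem RS_mul (hy : HyT p k S T w) (h : Pt p T w a b) {n : ℕ} {x y : G} (hx : x ∈ RS S k a b n)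
    (hy' : y ∈ RS S k a b n) : x * y ∈ RS S k a b n := (grp hy h n).1 _ hx _ hy'

theorem RS_inv (hy : HyT p k S T w) (h : Pt p T w a b) {n : ℕ} {x : G} (hx : x ∈ RS S k a b n) :
    x⁻¹ ∈ RS S k a b n := (grp hy h n).2 _ hx

theorem RS_commute (hy : HyT p k S T w) (h : Pt p T w a b) {m n : ℕ} {x y : G}
    (hx : x ∈ RS S k a b m) (hy' : y ∈ RS S k a b n) : Commute x y :=
  RS_comm hy h (grp hy h (max m n)) (RS_mono (le_max_left m n) hx) (RS_mono (le_max_right m n) hy')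

theorem mem_Qg (hy : HyT p k S T w) (h : Pt p T w a b) {y : G} :
    y ∈ Qg S k a b ↔ ∃ n, y ∈ RS S k a b n := by
  constructor
  · intro h1
    unfold Qg at h1
    induction h1 using Subgroup.closure_induction with
    | mem x hx => exact hx
    | one => exact ⟨0, one_mem_RS 0⟩
    | mul x y _ _ hx hy' =>
      obtain ⟨m, hm⟩ := hx
      obtain ⟨n, hn⟩ := hy'
      exact ⟨max m n, RS_mul hy h (RS_mono (le_max_left m n) hm) (RS_mono (le_max_right m n) hn)⟩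
    | inv x _ hx =>
      obtain ⟨m, hm⟩ := hx
      exact ⟨m, RS_inv hy h hm⟩
  · rintro h1
    exact Subgroup.subset_closure h1

theorem Qg_sub (hy : HyT p k S T w) (h : Pt p T w a b) {y : G} (h1 : y ∈ Qg S k a b) :
    y ∈ S ∧ y * a = a * y := by
  obtain ⟨n, hn⟩ := (mem_Qg hy h).1 h1
  exact RS_sub hn

theorem Qg_cq (hy : HyT p k S T w) (h : Pt p T w a b) {y : G} (h1 : y ∈ Qg S k a b) (i : ℤ) :
    Commute y (cq k a b ^ i) := by
  have h2 := Qg_sub hy h h1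
  exact (comm_cq hy h.cm h2.1 h2.2).zpow_right i

theorem Qg_comm (hy : HyT p k S T w) (h : Pt p T w a b) {x y : G} (hx : x ∈ Qg S k a b)
    (hy' : y ∈ Qg S k a b) : Commute x y := by
  obtain ⟨m, hm⟩ := (mem_Qg hy h).1 hx
  obtain ⟨n, hn⟩ := (mem_Qg hy h).1 hy'
  exact RS_commute hy h hm hn

theorem mem_Vg (hy : HyT p k S T w) (h : Pt p T w a b) {v : G} :
    v ∈ Vg S k a b ↔ ∃ y ∈ Qg S k a b, ∃ j : ℤ, v = y * cq k a b ^ j := by
  constructor
  · intro h1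
    unfold Vg at h1
    induction h1 using Subgroup.closure_induction with
    | mem x hx => exact hx
    | one => exact ⟨1, Subgroup.one_mem _, 0, by simp⟩
    | mul x y _ _ hx hy' =>
      obtain ⟨u, hu, i, rfl⟩ := hx
      obtain ⟨v, hv, j, rfl⟩ := hy'
      refine ⟨u * v, Subgroup.mul_mem _ hu hv, i + j, ?_⟩
      calc u * cq k a b ^ i * (v * cq k a b ^ j) = u * (cq k a b ^ i * v) * cq k a b ^ j := by
            group
        _ = u * (v * cq k a b ^ i) * cq k a b ^ j := by rw [(Qg_cq hy h hv i).symm.eq]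
        _ = u * v * cq k a b ^ (i + j) := by rw [zpow_add]; group
    | inv x _ hx =>
      obtain ⟨u, hu, i, rfl⟩ := hx
      refine ⟨u⁻¹, Subgroup.inv_mem _ hu, -i, ?_⟩
      rw [mul_inv_rev, ← zpow_neg, ((Qg_cq hy h hu (-i)).inv_left).symm.eq]
  · rintro h1
    exact Subgroup.subset_closure h1

theorem cq_mem_Vg (hy : HyT p k S T w) (h : Pt p T w a b) : cq k a b ∈ Vg S k a b :=
  (mem_Vg hy h).2 ⟨1, Subgroup.one_mem _, 1, by simp⟩

theorem Qg_le_Vg (hy : HyT p k S T w) (h : Pt p T w a b) : Qg S k a b ≤ Vg S k a b :=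
  fun x hx => (mem_Vg hy h).2 ⟨x, hx, 0, by simp⟩

/-- the elements of `Vg` commute with the elements of `Qg` -/
theorem Vg_Qg (hy : HyT p k S T w) (h : Pt p T w a b) {v y : G} (hv : v ∈ Vg S k a b)
    (hy' : y ∈ Qg S k a b) : Commute y v := by
  obtain ⟨u, hu, i, rfl⟩ := (mem_Vg hy h).1 hv
  exact (Qg_comm hy h hy' hu).mul_right (Qg_cq hy h hy' i)

theorem Vg_comm (hy : HyT p k S T w) (h : Pt p T w a b) {v v' : G} (hv : v ∈ Vg S k a b)
    (hv' : v' ∈ Vg S k a b) : Commute v v' := by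
  obtain ⟨u, hu, i, rfl⟩ := (mem_Vg hy h).1 hv
  obtain ⟨u', hu', i', rfl⟩ := (mem_Vg hy h).1 hv'
  refine (((Qg_comm hy h hu hu').mul_right (Qg_cq hy h hu i'))).mul_left ?_
  exact ((Qg_cq hy h hu' i).symm).mul_right ((Commute.refl (cq k a b)).zpow_zpow i i')

theorem Vg_comm_b (hy : HyT p k S T w) (h : Pt p T w a b) {v : G} (hv : v ∈ Vg S k a b) :
    v * (b * a * b⁻¹) = (b * a * b⁻¹) * v := by
  obtain ⟨u, hu, i, rfl⟩ := (mem_Vg hy h).1 hv
  obtain ⟨n, hn⟩ := (mem_Qg hy h).1 hu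
  exact (zc_comm_b hy h.cm hn i).eq

theorem cmt_mem (hy : HyT p k S T w) (h : Pt p T w a b) {y : G} (h1 : y ∈ Qg S k a b) :
    y * b * y⁻¹ * b⁻¹ ∈ Vg S k a b := by
  obtain ⟨n, hn⟩ := (mem_Qg hy h).1 h1
  obtain ⟨z, hz, j, h3⟩ := cmt_D hn
  exact (mem_Vg hy h).2 ⟨z, (mem_Qg hy h).2 ⟨n, hz⟩, j, h3⟩

theorem mem_Qg_of (hy : HyT p k S T w) (h : Pt p T w a b) {y : G} (hyS : y ∈ S)
    (hya : y * a = a * y) (h1 : y * b * y⁻¹ * b⁻¹ ∈ Vg S k a b) : y ∈ Qg S k a b := by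
  obtain ⟨z, hz, j, h3⟩ := (mem_Vg hy h).1 h1
  obtain ⟨n, hn⟩ := (mem_Qg hy h).1 hz
  exact (mem_Qg hy h).2 ⟨n + 1, hyS, hya, z, hn, j, h3⟩

theorem cq_vb (hy : HyT p k S T w) (h : Pt p T w a b) {v : G} (hv : v ∈ Vg S k a b) :
    cq k a (v * b) = cq k a b := cq_comm_b v (Vg_comm_b hy h hv)

theorem Pw_vb (hy : HyT p k S T w) (h : Pt p T w a b) {v : G} (hv : v ∈ Vg S k a b) :
    Pt p T w a (v * b) := by
  obtain ⟨u, hu, i, rfl⟩ := (mem_Vg hy h).1 hv
  obtain ⟨n, hn⟩ := (mem_Qg hy h).1 hu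
  exact Pw_vb_lvl hy h (fun j _ => grp hy h j) hn

theorem Qg_vb (hy : HyT p k S T w) (h : Pt p T w a b) {v : G} (hv : v ∈ Vg S k a b) :
    Qg S k a (v * b) = Qg S k a b := by
  have h' := Pw_vb hy h hv
  obtain ⟨u, hu, i, rfl⟩ := (mem_Vg hy h).1 hv
  obtain ⟨n, hn⟩ := (mem_Qg hy h).1 hu
  have key : ∀ m, RS S k a (u * cq k a b ^ i * b) m = RS S k a b m := by
    intro m
    exact RS_vb_lvl (n := max m n) hy h (fun j _ => grp hy h j) (RS_mono (le_max_right m n) hn)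
      (fun j _ => grp hy h' j) (le_max_left m n)
  ext x
  rw [mem_Qg hy h', mem_Qg hy h]
  simp only [key]

theorem Vg_vb (hy : HyT p k S T w) (h : Pt p T w a b) {v : G} (hv : v ∈ Vg S k a b) :
    Vg S k a (v * b) = Vg S k a b := by
  unfold Vg
  rw [Qg_vb hy h hv, cq_vb hy h hv]

theorem Qg_cj (hy : HyT p k S T w) (h : Pt p T w a b) {S' : Subgroup G} {T' : Set G} {w' s : G}
    (hy2 : HyT p k S' T' w') (h2 : Pt p T' w' (s * a * s⁻¹) (s * b * s⁻¹))
    (hs : ∀ x ∈ S, s * x * s⁻¹ ∈ S') {y : G}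
    (h1 : y ∈ Qg S k a b) : s * y * s⁻¹ ∈ Qg S' k (s * a * s⁻¹) (s * b * s⁻¹) := by
  obtain ⟨n, hn⟩ := (mem_Qg hy h).1 h1
  exact (mem_Qg hy2 h2).2 ⟨n, RS_cj hs hn⟩

/-- the conjugates of the elements of `Vg` -/
theorem Vg_cj (hy : HyT p k S T w) (h : Pt p T w a b) {S' : Subgroup G} {T' : Set G} {w' s : G}
    (hy2 : HyT p k S' T' w') (h2 : Pt p T' w' (s * a * s⁻¹) (s * b * s⁻¹))
    (hs : ∀ x ∈ S, s * x * s⁻¹ ∈ S') {v : G}
    (h1 : v ∈ Vg S k a b) : s * v * s⁻¹ ∈ Vg S' k (s * a * s⁻¹) (s * b * s⁻¹) := by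
  obtain ⟨u, hu, i, rfl⟩ := (mem_Vg hy h).1 h1
  refine (mem_Vg hy2 h2).2 ⟨s * u * s⁻¹, Qg_cj hy h hy2 h2 hs hu, i, ?_⟩
  rw [cq_cj, conj_zpow]
  group

/-! ### the intersection -/

theorem zpow_RS (hy : HyT p k S T w) (h : Pt p T w a b) {n : ℕ} {x y : G} (hx : x ∈ RS S k a b n)
    (hxy : y ∈ Subgroup.zpowers x) : y ∈ RS S k a b n := by
  have h1 : Subgroup.zpowers x ≤ RG (grp hy h n) := by
    rw [Subgroup.zpowers_le]
    exact hx
  exact h1 hxy

/-- an element of `S` commuting with `a` and `b` is trivial -/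
theorem fix_one (hy : HyT p k S T w) (h : Pt p T w a b) {y : G} (hyS : y ∈ S)
    (hya : y * a = a * y) (hyb : y * b = b * y) : y = 1 := by
  have h1 : ∀ c : G, y * c = c * y → ∀ v ∈ Subgroup.zpowers y, c * v * c⁻¹ ∈ Subgroup.zpowers y := by
    intro c hc v hv
    obtain ⟨i, rfl⟩ := Subgroup.mem_zpowers_iff.1 hv
    have h2 : Commute c (y ^ i) := (show Commute c y from hc.symm).zpow_right i
    rw [h2.eq, mul_assoc, mul_inv_cancel, mul_one]
    exact hv
  have h3 := triv hy h (W := Subgroup.zpowers y)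
    (by rw [Subgroup.zpowers_le]; exact hyS) (h1 a hya) (h1 b hyb)
  exact Subgroup.zpowers_eq_bot.1 h3

/-- a cyclic group has at most one subgroup of order `p` -/
theorem uniq {c x y : G}
    (hx : x ∈ Subgroup.zpowers c) (hy : y ∈ Subgroup.zpowers c) (hxp : x ^ p = 1)
    (hyp : y ^ p = 1) (hy1 : y ≠ 1) : x ∈ Subgroup.zpowers y := by
  classical
  have hp : Fact p.Prime := inferInstance
  have : Fintype ↥(Subgroup.zpowers c) := Fintype.ofFinite _
  have h0 : orderOf (⟨y, hy⟩ : ↥(Subgroup.zpowers c)) = p := by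
    refine orderOf_eq_prime ?_ ?_
    · exact Subtype.ext hyp
    · exact fun h => hy1 (congrArg Subtype.val h)
  have h1 := IsCyclic.card_pow_eq_one_le (α := ↥(Subgroup.zpowers c)) hp.out.pos
  have h2 : (Subgroup.zpowers (⟨y, hy⟩ : ↥(Subgroup.zpowers c)) :
      Set ↥(Subgroup.zpowers c)).toFinset ⊆ Finset.univ.filter (fun a => a ^ p = 1) := by
    intro a ha
    rw [Set.mem_toFinset] at ha
    obtain ⟨i, hi⟩ := Subgroup.mem_zpowers_iff.1 ha
    rw [Finset.mem_filter]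
    refine ⟨Finset.mem_univ _, ?_⟩
    rw [← hi, ← zpow_natCast, ← zpow_mul, mul_comm, zpow_mul, zpow_natCast]
    have h3 : (⟨y, hy⟩ : ↥(Subgroup.zpowers c)) ^ p = 1 := Subtype.ext hyp
    rw [h3, one_zpow]
  have h4 : (Subgroup.zpowers (⟨y, hy⟩ : ↥(Subgroup.zpowers c)) :
      Set ↥(Subgroup.zpowers c)).toFinset.card = p := by
    rw [Set.toFinset_card]
    have h5 := Fintype.card_zpowers (x := (⟨y, hy⟩ : ↥(Subgroup.zpowers c)))
    rw [h0] at h5
    exact h5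
  have h6 := Finset.eq_of_subset_of_card_le h2 (by rw [h4]; exact h1)
  have h7 : (⟨x, hx⟩ : ↥(Subgroup.zpowers c)) ∈
      Finset.univ.filter (fun a : ↥(Subgroup.zpowers c) => a ^ p = 1) := by
    rw [Finset.mem_filter]
    exact ⟨Finset.mem_univ _, Subtype.ext hxp⟩
  rw [← h6, Set.mem_toFinset] at h7
  obtain ⟨i, hi⟩ := Subgroup.mem_zpowers_iff.1 h7
  exact Subgroup.mem_zpowers_iff.2 ⟨i, congrArg Subtype.val hi⟩

omit [Finite G] [Fact p.Prime] in
/-- a nontrivial p-element has a power of order `p` -/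
theorem exists_pow {y : G} (h : Pel p y) (hy : y ≠ 1) :
    ∃ n : ℕ, y ^ n ≠ 1 ∧ (y ^ n) ^ p = 1 := by
  classical
  have h' : ∃ n : ℕ, y ^ p ^ n = 1 := h
  cases hN : Nat.find h' with
  | zero =>
    have h1 := Nat.find_spec h'
    rw [hN, pow_zero, pow_one] at h1
    exact absurd h1 hy
  | succ N =>
    refine ⟨p ^ N, ?_, ?_⟩
    · exact Nat.find_min h' (by omega)
    · have h1 := Nat.find_spec h'
      rw [hN] at h1
      rw [← pow_mul, ← pow_succ]
      exact h1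

theorem RS_dis (hy : HyT p k S T w) (h : Pt p T w a b) (n : ℕ) {j : ℤ}
    (hj : cq k a b ^ j ∈ RS S k a b n) : cq k a b ^ j = 1 := by
  induction n generalizing j with
  | zero => exact hj
  | succ n ih =>
    by_contra hne
    -- everything commutes
    have hQ : ∀ {z : G} {m : ℕ}, z ∈ RS S k a b m → z ∈ Vg S k a b := fun hz =>
      Qg_le_Vg hy h ((mem_Qg hy h).2 ⟨_, hz⟩)
    have hC : ∀ i : ℤ, cq k a b ^ i ∈ Vg S k a b := fun i =>
      (Vg S k a b).zpow_mem (cq_mem_Vg hy h) i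
    -- an element of order `p`
    have hpel : Pel p (cq k a b ^ j) := by
      obtain ⟨N, hN⟩ := hy.pk (b * a * b⁻¹)
      refine ⟨N, ?_⟩
      rw [← zpow_natCast, ← zpow_mul, mul_comm, zpow_mul, zpow_natCast]
      have : cq k a b ^ p ^ N = 1 := hN
      rw [this, one_zpow]
    obtain ⟨m, hm1, hm2⟩ := exists_pow hpel hne
    have hm3 : (cq k a b ^ j) ^ m ∈ RS S k a b (n + 1) :=
      zpow_RS hy h hj (Subgroup.npow_mem_zpowers _ m)
    have hm4 : (cq k a b ^ j) ^ m ∈ Subgroup.zpowers (cq k a b) :=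
      Subgroup.pow_mem _ (Subgroup.zpow_mem_zpowers _ _) m
    have huni : ∀ i : ℤ, (cq k a b ^ i) ^ p = 1 → cq k a b ^ i ∈ RS S k a b (n + 1) := by
      intro i hi
      exact zpow_RS hy h hm3
        (uniq (Subgroup.zpow_mem_zpowers _ _) hm4 hi hm2 hm1)
    -- the group `W`
    let W : Subgroup G :=
      { carrier := {v | (∃ z ∈ RS S k a b n, ∃ i : ℤ, v = z * cq k a b ^ i) ∧ v ^ p = 1}
        mul_mem' := by
          rintro u v ⟨⟨z, hz, i, rfl⟩, h1⟩ ⟨⟨z', hz', i', rfl⟩, h2⟩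
          refine ⟨⟨z * z', RS_mul hy h hz hz', i + i', ?_⟩, ?_⟩
          · have h3 := (Vg_comm hy h (hC i) (hQ hz')).eq
            calc z * cq k a b ^ i * (z' * cq k a b ^ i')
                = z * (cq k a b ^ i * z') * cq k a b ^ i' := by group
              _ = z * (z' * cq k a b ^ i) * cq k a b ^ i' := by rw [h3]
              _ = z * z' * cq k a b ^ (i + i') := by rw [zpow_add]; group
          · have h3 : Commute (z * cq k a b ^ i) (z' * cq k a b ^ i') :=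
              Vg_comm hy h ((Vg S k a b).mul_mem (hQ hz) (hC i))
                ((Vg S k a b).mul_mem (hQ hz') (hC i'))
            rw [h3.mul_pow, h1, h2, one_mul]
        one_mem' := ⟨⟨1, one_mem_RS n, 0, by simp⟩, one_pow p⟩
        inv_mem' := by
          rintro u ⟨⟨z, hz, i, rfl⟩, h1⟩
          refine ⟨⟨z⁻¹, RS_inv hy h hz, -i, ?_⟩, ?_⟩
          · have h3 := (Vg_comm hy h (hC (-i)) ((Vg S k a b).inv_mem (hQ hz))).eq
            rw [mul_inv_rev, ← zpow_neg, h3]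
          · rw [inv_pow, h1, inv_one] }
    have hWm : ∀ v : G, v ∈ W ↔ (∃ z ∈ RS S k a b n, ∃ i : ℤ, v = z * cq k a b ^ i) ∧ v ^ p = 1 :=
      fun v => Iff.rfl
    have hWR : ∀ v ∈ W, v ∈ RS S k a b (n + 1) := by
      intro v hv
      obtain ⟨⟨z, hz, i, rfl⟩, h1⟩ := (hWm v).1 hv
      refine RS_mul hy h (RS_mono (Nat.le_succ n) hz) (huni i ?_)
      have h3 : Commute z (cq k a b ^ i) := Vg_comm hy h (hQ hz) (hC i)
      rw [h3.mul_pow] at h1
      have h4 : (cq k a b ^ i) ^ p = (z ^ p)⁻¹ := eq_inv_of_mul_eq_one_right h1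
      have h5 : (cq k a b ^ i) ^ p = cq k a b ^ (i * p) := by
        rw [zpow_mul, zpow_natCast]
      rw [h5]
      apply ih
      rw [← h5, h4]
      exact RS_inv hy h (zpow_RS hy h hz (Subgroup.npow_mem_zpowers _ p))
    have hW : W = ⊥ := by
      refine triv hy h (fun v hv => (RS_sub (hWR v hv)).1) ?_ ?_
      · intro v hv
        have h1 := (RS_sub (hWR v hv)).2
        rw [← h1, mul_assoc, mul_inv_cancel, mul_one]
        exact hv
      · intro v hv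
        obtain ⟨-, -, z', hz', i', h1⟩ := hWR v hv
        obtain ⟨⟨z, hz, i, hvz⟩, h2⟩ := (hWm v).1 hv
        refine (hWm _).2 ⟨⟨z'⁻¹ * z, RS_mul hy h (RS_inv hy h hz') hz, i - i', ?_⟩, ?_⟩
        · have h3 : b * v * b⁻¹ = (v * b * v⁻¹ * b⁻¹)⁻¹ * v := by group
          have h4 := (Vg_comm hy h (hC (-i')) ((Vg S k a b).mul_mem
            ((Vg S k a b).inv_mem (hQ hz')) (hQ hz))).eq
          calc b * v * b⁻¹ = (v * b * v⁻¹ * b⁻¹)⁻¹ * v := h3
            _ = cq k a b ^ (-i') * (z'⁻¹ * z) * cq k a b ^ i := by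
                rw [h1, hvz, mul_inv_rev, ← zpow_neg]; group
            _ = z'⁻¹ * z * cq k a b ^ (-i') * cq k a b ^ i := by rw [h4]
            _ = z'⁻¹ * z * cq k a b ^ (i - i') := by
                rw [mul_assoc, ← zpow_add]
                congr 2
                ring
        · rw [conj_pow, h2, mul_one, mul_inv_cancel]
    have h8 : (cq k a b ^ j) ^ m ∈ W := by
      refine (hWm _).2 ⟨⟨1, one_mem_RS n, j * m, ?_⟩, hm2⟩
      rw [one_mul, zpow_mul, zpow_natCast]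
    rw [hW, Subgroup.mem_bot] at h8
    exact hm1 h8

theorem Qg_dis (hy : HyT p k S T w) (h : Pt p T w a b) {j : ℤ}
    (hj : cq k a b ^ j ∈ Qg S k a b) : cq k a b ^ j = 1 := by
  obtain ⟨n, hn⟩ := (mem_Qg hy h).1 hj
  exact RS_dis hy h n hn

theorem card_Vg (hy : HyT p k S T w) (h : Pt p T w a b) :
    Nat.card (Vg S k a b) = Nat.card (Qg S k a b) * orderOf (cq k a b) := by
  have hQz : ∀ x ∈ Subgroup.zpowers (cq k a b), x ∈ Vg S k a b := by
    intro x hx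
    exact (Subgroup.zpowers_le.2 (cq_mem_Vg hy h : cq k a b ∈ Vg S k a b)) hx
  let F : ↥(Qg S k a b) × ↥(Subgroup.zpowers (cq k a b)) → ↥(Vg S k a b) := fun q =>
    ⟨q.1.1 * q.2.1, (Vg S k a b).mul_mem (Qg_le_Vg hy h q.1.2) (hQz _ q.2.2)⟩
  have hF : Function.Bijective F := by
    constructor
    · rintro ⟨⟨y, hy1⟩, ⟨x, hx⟩⟩ ⟨⟨y', hy1'⟩, ⟨x', hx'⟩⟩ he
      have h1 : y * x = y' * x' := congrArg Subtype.val he
      have h2 : y'⁻¹ * y = x' * x⁻¹ := by
        have h3 : y'⁻¹ * (y * x) * x⁻¹ = y'⁻¹ * (y' * x') * x⁻¹ := by rw [h1]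
        have h4 : y'⁻¹ * (y * x) * x⁻¹ = y'⁻¹ * y := by group
        have h5 : y'⁻¹ * (y' * x') * x⁻¹ = x' * x⁻¹ := by group
        rw [h4, h5] at h3
        exact h3
      have h6 : x' * x⁻¹ ∈ Subgroup.zpowers (cq k a b) := Subgroup.mul_mem _ hx' (Subgroup.inv_mem _ hx)
      obtain ⟨j, hj⟩ := Subgroup.mem_zpowers_iff.1 h6
      have h7 : cq k a b ^ j ∈ Qg S k a b := by
        rw [hj, ← h2]
        exact Subgroup.mul_mem _ (Subgroup.inv_mem _ hy1') hy1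
      have h8 := Qg_dis hy h h7
      rw [hj] at h8
      have h9 : x' = x := mul_inv_eq_one.1 h8
      rw [h8] at h2
      have h10 : y' = y := inv_mul_eq_one.1 h2
      subst h9; subst h10
      rfl
    · rintro ⟨v, hv⟩
      obtain ⟨y, hy1, j, rfl⟩ := (mem_Vg hy h).1 hv
      exact ⟨⟨⟨y, hy1⟩, ⟨cq k a b ^ j, Subgroup.zpow_mem_zpowers _ _⟩⟩, rfl⟩
  rw [← Nat.card_congr (Equiv.ofBijective F hF), Nat.card_prod, Nat.card_zpowers]

theorem cq_pow (hy : HyT p k S T w) (h : Pt p T w a b) :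
    cq k a b ^ (Nat.card (Vg S k a b) / Nat.card (Qg S k a b)) = 1 := by
  rw [card_Vg hy h, Nat.mul_div_cancel_left _ Nat.card_pos, pow_orderOf_eq_one]

end

end Pool.Agent.Lib.P0c8ca5.Kp
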