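import Mathlib
import Pool.Agent.Lib.P0c8ca5Kp.MDefs

/-!
# P0c8ca5Kp.MMov: mapping classes of the torus with several punctures

On all tuples `x = (a, b, c)`, `c : ℕ → G`:
`t1 x = (a, b a, c)`, `t2 x = (a b⁻¹, b, c)`,
`tu j x = (a, g⁻¹ b, c_i ↦ g⁻¹ c_i g (i < j))` with `g = b a⁻¹ b⁻¹ c_0 ... c_(j-1)`,
`tz j x = (a, z⁻¹ b, c_j ↦ (d⁻¹ z⁻¹ d) c_j (d⁻¹ z d))` with `d = c_0 ... c_(j-1)`,
`z = b a⁻¹ b⁻¹ d c_j d⁻¹`, and `tt j x = (a, b, c_i ↦ d⁻¹ c_i d (i < j))`.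
All are bijections preserving `[a, b] c_0 ... c_(M-1)`; there are the braid relations of `t2` with
`t1`, `tu j`, `tz j`, the lantern relation and the chain relation.
-/

namespace Pool.Agent.Lib.P0c8ca5.Kp

open Ab

section
variable {G : Type*} [Group G]

/-- conjugation of the first `j` entries -/
def cp (j : ℕ) (g : G) (c : ℕ → G) : ℕ → G := fun i => if i < j then g * c i * g⁻¹ else c i

/-- conjugation of the entry `j` -/
def co (j : ℕ) (g : G) (c : ℕ → G) : ℕ → G := fun i => if i = j then g * c i * g⁻¹ else c i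

/-- conjugation of all entries -/
def ca (g : G) (c : ℕ → G) : ℕ → G := fun i => g * c i * g⁻¹

theorem cp_lt {i j : ℕ} (h : i < j) (g : G) (c : ℕ → G) : cp j g c i = g * c i * g⁻¹ := if_pos h

theorem cp_ge {i j : ℕ} (h : j ≤ i) (g : G) (c : ℕ → G) : cp j g c i = c i :=
  if_neg (not_lt.2 h)

theorem co_eq (j : ℕ) (g : G) (c : ℕ → G) : co j g c j = g * c j * g⁻¹ := if_pos rfl

theorem co_ne {i j : ℕ} (h : i ≠ j) (g : G) (c : ℕ → G) : co j g c i = c i := if_neg h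

theorem cp_cp (j : ℕ) (g h : G) (c : ℕ → G) : cp j g (cp j h c) = cp j (g * h) c := by
  funext i
  rcases lt_or_ge i j with hi | hi
  · rw [cp_lt hi, cp_lt hi, cp_lt hi]
    group
  · rw [cp_ge hi, cp_ge hi, cp_ge hi]

theorem co_co (j : ℕ) (g h : G) (c : ℕ → G) : co j g (co j h c) = co j (g * h) c := by
  funext i
  by_cases hi : i = j
  · subst hi
    rw [co_eq, co_eq, co_eq]
    group
  · rw [co_ne hi, co_ne hi, co_ne hi]

theorem cp_zero (g : G) (c : ℕ → G) : cp 0 g c = c := by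
  funext i
  rw [cp_ge (Nat.zero_le i)]

theorem cp_one (j : ℕ) (c : ℕ → G) : cp j 1 c = c := by
  funext i
  rcases lt_or_ge i j with hi | hi
  · rw [cp_lt hi]
    group
  · rw [cp_ge hi]

theorem co_one (j : ℕ) (c : ℕ → G) : co j 1 c = c := by
  funext i
  by_cases hi : i = j
  · subst hi
    rw [co_eq]
    group
  · rw [co_ne hi]

theorem pp_cp_le {i j : ℕ} (h : i ≤ j) (g : G) (c : ℕ → G) :
    pp i (cp j g c) = g * pp i c * g⁻¹ := by
  induction i with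
  | zero => simp [pp]
  | succ i ih =>
    rw [pp, pp, ih (by omega), cp_lt (by omega)]
    group

theorem pp_cp_ge {i j : ℕ} (h : j ≤ i) (g : G) (c : ℕ → G) :
    pp i (cp j g c) = g * pp j c * g⁻¹ * (pp j c)⁻¹ * pp i c := by
  induction i with
  | zero =>
    obtain rfl : j = 0 := by omega
    simp [pp]
  | succ i ih =>
    rcases Nat.lt_or_ge i j with hi | hi
    · obtain rfl : j = i + 1 := by omega
      rw [pp_cp_le le_rfl]
      group
    · rw [pp, ih hi, cp_ge hi, pp]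
      group

theorem pp_co_le {i j : ℕ} (h : i ≤ j) (g : G) (c : ℕ → G) : pp i (co j g c) = pp i c := by
  induction i with
  | zero => rfl
  | succ i ih => rw [pp, pp, ih (by omega), co_ne (by omega)]

theorem pp_co_gt {i j : ℕ} (h : j < i) (g : G) (c : ℕ → G) :
    pp i (co j g c) = pp j c * (g * c j * g⁻¹) * (c j)⁻¹ * (pp j c)⁻¹ * pp i c := by
  induction i with
  | zero => omega
  | succ i ih =>
    rcases Nat.lt_or_ge j i with hi | hi
    · rw [pp, ih hi, co_ne (by omega), pp]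
      group
    · obtain rfl : i = j := by omega
      rw [pp, pp_co_le le_rfl, co_eq, pp]
      group

theorem pp_ca (i : ℕ) (g : G) (c : ℕ → G) : pp i (ca g c) = g * pp i c * g⁻¹ := by
  induction i with
  | zero => simp [pp]
  | succ i ih =>
    rw [pp, pp, ih]
    unfold ca
    group

/-! ### the moves -/

/-- the first braid -/
def t1 (x : G × G × (ℕ → G)) : G × G × (ℕ → G) := (x.1, x.2.1 * x.1, x.2.2)

/-- the second braid -/
def t2 (x : G × G × (ℕ → G)) : G × G × (ℕ → G) := (x.1 * x.2.1⁻¹, x.2.1, x.2.2)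

/-- the parameter of `tu` -/
def gu (j : ℕ) (x : G × G × (ℕ → G)) : G := x.2.1 * x.1⁻¹ * x.2.1⁻¹ * pp j x.2.2

/-- the twist along a curve passing the first `j` punctures -/
def tu (j : ℕ) (x : G × G × (ℕ → G)) : G × G × (ℕ → G) :=
  (x.1, (gu j x)⁻¹ * x.2.1, cp j (gu j x)⁻¹ x.2.2)

/-- the parameter of `tz` -/
def gz (j : ℕ) (x : G × G × (ℕ → G)) : G :=
  x.2.1 * x.1⁻¹ * x.2.1⁻¹ * (pp j x.2.2 * x.2.2 j * (pp j x.2.2)⁻¹)

/-- the twist along a curve passing the puncture `j` -/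
def tz (j : ℕ) (x : G × G × (ℕ → G)) : G × G × (ℕ → G) :=
  (x.1, (gz j x)⁻¹ * x.2.1, co j ((pp j x.2.2)⁻¹ * (gz j x)⁻¹ * pp j x.2.2) x.2.2)

/-- the twist along a curve around the first `j` punctures -/
def tt (j : ℕ) (x : G × G × (ℕ → G)) : G × G × (ℕ → G) :=
  (x.1, x.2.1, cp j (pp j x.2.2)⁻¹ x.2.2)

/-- conjugation of tuples -/
def cx (s : G) (x : G × G × (ℕ → G)) : G × G × (ℕ → G) :=
  (s * x.1 * s⁻¹, s * x.2.1 * s⁻¹, ca s x.2.2)

/-- the generated group -/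
def cl (x : G × G × (ℕ → G)) : Subgroup G := Subgroup.closure ({x.1, x.2.1} ∪ Set.range x.2.2)

theorem cl_a (x : G × G × (ℕ → G)) : x.1 ∈ cl x :=
  Subgroup.subset_closure (Or.inl (Or.inl rfl))

theorem cl_b (x : G × G × (ℕ → G)) : x.2.1 ∈ cl x :=
  Subgroup.subset_closure (Or.inl (Or.inr rfl))

theorem cl_c (x : G × G × (ℕ → G)) (i : ℕ) : x.2.2 i ∈ cl x :=
  Subgroup.subset_closure (Or.inr ⟨i, rfl⟩)

theorem pp_mem {H : Subgroup G} {c : ℕ → G} (h : ∀ i, c i ∈ H) (j : ℕ) : pp j c ∈ H := by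
  induction j with
  | zero => exact H.one_mem
  | succ j ih => exact H.mul_mem ih (h j)

theorem cl_p (x : G × G × (ℕ → G)) (j : ℕ) : pp j x.2.2 ∈ cl x := pp_mem (cl_c x) j

theorem cl_le {x : G × G × (ℕ → G)} {H : Subgroup G} (h1 : x.1 ∈ H) (h2 : x.2.1 ∈ H)
    (h3 : ∀ i, x.2.2 i ∈ H) : cl x ≤ H := by
  unfold cl
  rw [Subgroup.closure_le]
  rintro y ((hy | hy) | ⟨i, rfl⟩)
  · rw [hy]
    exact h1
  · rw [Set.mem_singleton_iff] at hy
    rw [hy]
    exact h2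
  · exact h3 i

theorem cj_mem' {H : Subgroup G} {g c : G} (hg : g ∈ H) (hc : c ∈ H) : g * c * g⁻¹ ∈ H :=
  H.mul_mem (H.mul_mem hg hc) (H.inv_mem hg)

theorem cp_mem {H : Subgroup G} {g : G} {c : ℕ → G} (j : ℕ) (hg : g ∈ H) (hc : ∀ i, c i ∈ H)
    (i : ℕ) : cp j g c i ∈ H := by
  unfold cp
  split_ifs
  · exact cj_mem' hg (hc i)
  · exact hc i

theorem co_mem {H : Subgroup G} {g : G} {c : ℕ → G} (j : ℕ) (hg : g ∈ H) (hc : ∀ i, c i ∈ H)
    (i : ℕ) : co j g c i ∈ H := by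
  unfold co
  split_ifs
  · exact cj_mem' hg (hc i)
  · exact hc i

theorem cl_gu (j : ℕ) (x : G × G × (ℕ → G)) : gu j x ∈ cl x :=
  (cl x).mul_mem ((cl x).mul_mem ((cl x).mul_mem (cl_b x) ((cl x).inv_mem (cl_a x)))
    ((cl x).inv_mem (cl_b x))) (cl_p x j)

theorem cl_gz (j : ℕ) (x : G × G × (ℕ → G)) : gz j x ∈ cl x :=
  (cl x).mul_mem ((cl x).mul_mem ((cl x).mul_mem (cl_b x) ((cl x).inv_mem (cl_a x)))
    ((cl x).inv_mem (cl_b x))) (cj_mem' (cl_p x j) (cl_c x j))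

/-- the properties of the moves -/
structure Mv (M : ℕ) (f : G × G × (ℕ → G) → G × G × (ℕ → G)) : Prop where
  inv : ∃ f' : G × G × (ℕ → G) → G × G × (ℕ → G), (∀ x, f' (f x) = x) ∧ ∀ x, cl (f' x) ≤ cl x
  le : ∀ x, cl (f x) ≤ cl x
  vl : ∀ x, cmt (f x).1 (f x).2.1 * pp M (f x).2.2 = cmt x.1 x.2.1 * pp M x.2.2
  me : ∀ C : ℕ → Set G, (∀ i, ∀ g : G, ∀ c ∈ C i, g * c * g⁻¹ ∈ C i) → ∀ x,
    (∀ i, x.2.2 i ∈ C i) → ∀ i, (f x).2.2 i ∈ C i
  eq : ∀ s x, f (cx s x) = cx s (f x)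

theorem cp_me (j : ℕ) (g : G) {c : ℕ → G} {C : ℕ → Set G}
    (hC : ∀ i, ∀ g : G, ∀ c ∈ C i, g * c * g⁻¹ ∈ C i) (h : ∀ i, c i ∈ C i) (i : ℕ) :
    cp j g c i ∈ C i := by
  unfold cp
  split_ifs
  · exact hC i g _ (h i)
  · exact h i

theorem co_me (j : ℕ) (g : G) {c : ℕ → G} {C : ℕ → Set G}
    (hC : ∀ i, ∀ g : G, ∀ c ∈ C i, g * c * g⁻¹ ∈ C i) (h : ∀ i, c i ∈ C i) (i : ℕ) :
    co j g c i ∈ C i := by
  unfold co
  split_ifs
  · exact hC i g _ (h i)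
  · exact h i

theorem cp_ca (j : ℕ) (s g : G) (c : ℕ → G) :
    cp j (s * g * s⁻¹) (ca s c) = ca s (cp j g c) := by
  funext i
  rcases lt_or_ge i j with hi | hi
  · rw [cp_lt hi]
    unfold ca
    rw [cp_lt hi]
    group
  · rw [cp_ge hi]
    unfold ca
    rw [cp_ge hi]

theorem co_ca (j : ℕ) (s g : G) (c : ℕ → G) :
    co j (s * g * s⁻¹) (ca s c) = ca s (co j g c) := by
  funext i
  by_cases hi : i = j
  · subst hi
    rw [co_eq]
    unfold ca
    rw [co_eq]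
    group
  · rw [co_ne hi]
    unfold ca
    rw [co_ne hi]

theorem mv_t1 (M : ℕ) : Mv M (t1 : G × G × (ℕ → G) → G × G × (ℕ → G)) where
  inv := by
    refine ⟨fun x => (x.1, x.2.1 * x.1⁻¹, x.2.2), ?_, ?_⟩
    · rintro ⟨a, b, c⟩
      simp [t1]
    · intro x
      exact cl_le (cl_a x) ((cl x).mul_mem (cl_b x) ((cl x).inv_mem (cl_a x))) (cl_c x)
  le x := cl_le (cl_a x) ((cl x).mul_mem (cl_b x) (cl_a x)) (cl_c x)
  vl := by
    rintro ⟨a, b, c⟩
    simp only [t1, cmt]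
    group
  me C _ x h := h
  eq := by
    rintro s ⟨a, b, c⟩
    simp only [t1, cx, Prod.mk.injEq, true_and, and_true]
    group

theorem mv_t2 (M : ℕ) : Mv M (t2 : G × G × (ℕ → G) → G × G × (ℕ → G)) where
  inv := by
    refine ⟨fun x => (x.1 * x.2.1, x.2.1, x.2.2), ?_, ?_⟩
    · rintro ⟨a, b, c⟩
      simp [t2]
    · intro x
      exact cl_le ((cl x).mul_mem (cl_a x) (cl_b x)) (cl_b x) (cl_c x)
  le x := cl_le ((cl x).mul_mem (cl_a x) ((cl x).inv_mem (cl_b x))) (cl_b x) (cl_c x)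
  vl := by
    rintro ⟨a, b, c⟩
    simp only [t2, cmt]
    group
  me C _ x h := h
  eq := by
    rintro s ⟨a, b, c⟩
    simp only [t2, cx, Prod.mk.injEq, true_and, and_true]
    group

theorem gu_tu (j : ℕ) (x : G × G × (ℕ → G)) : gu j (tu j x) = gu j x := by
  obtain ⟨a, b, c⟩ := x
  simp only [gu, tu, pp_cp_le (le_refl j)]
  group

theorem gu_cx (j : ℕ) (s : G) (x : G × G × (ℕ → G)) : gu j (cx s x) = s * gu j x * s⁻¹ := by
  obtain ⟨a, b, c⟩ := x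
  simp only [gu, cx, pp_ca]
  group

theorem gz_cx (j : ℕ) (s : G) (x : G × G × (ℕ → G)) : gz j (cx s x) = s * gz j x * s⁻¹ := by
  obtain ⟨a, b, c⟩ := x
  simp only [gz, cx, pp_ca, ca]
  group

theorem mv_tu {M j : ℕ} (hj : j ≤ M) : Mv M (tu j : G × G × (ℕ → G) → G × G × (ℕ → G)) where
  inv := by
    refine ⟨fun x => (x.1, gu j x * x.2.1, cp j (gu j x) x.2.2), ?_, ?_⟩
    · intro x
      beta_reduce
      rw [gu_tu]
      simp only [tu, cp_cp, mul_inv_cancel, cp_one, mul_inv_cancel_left]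
    · intro x
      exact cl_le (cl_a x) ((cl x).mul_mem (cl_gu j x) (cl_b x)) (cp_mem j (cl_gu j x) (cl_c x))
  le x := cl_le (cl_a x) ((cl x).mul_mem ((cl x).inv_mem (cl_gu j x)) (cl_b x))
    (cp_mem j ((cl x).inv_mem (cl_gu j x)) (cl_c x))
  vl := by
    rintro ⟨a, b, c⟩
    simp only [tu, gu, cmt, pp_cp_ge hj]
    group
  me C hC x h := cp_me j _ hC h
  eq := by
    intro s x
    have h1 : (s * gu j x * s⁻¹)⁻¹ = s * (gu j x)⁻¹ * s⁻¹ := by group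
    simp only [tu, gu_cx]
    simp only [cx, Prod.mk.injEq, true_and]
    rw [h1, cp_ca]
    refine ⟨?_, rfl⟩
    group

theorem pp_tz (j : ℕ) (x : G × G × (ℕ → G)) : pp j (tz j x).2.2 = pp j x.2.2 :=
  pp_co_le le_rfl _ _

theorem gz_tz (j : ℕ) (x : G × G × (ℕ → G)) : gz j (tz j x) = gz j x := by
  obtain ⟨a, b, c⟩ := x
  simp only [gz, tz, pp_co_le (le_refl j), co_eq]
  group

theorem mv_tz {M j : ℕ} (hj : j < M) : Mv M (tz j : G × G × (ℕ → G) → G × G × (ℕ → G)) where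
  inv := by
    refine ⟨fun x => (x.1, gz j x * x.2.1,
      co j ((pp j x.2.2)⁻¹ * gz j x * pp j x.2.2) x.2.2), ?_, ?_⟩
    · intro x
      beta_reduce
      rw [gz_tz, pp_tz]
      have h1 : (pp j x.2.2)⁻¹ * gz j x * pp j x.2.2 *
          ((pp j x.2.2)⁻¹ * (gz j x)⁻¹ * pp j x.2.2) = 1 := by group
      simp only [tz, co_co, h1, co_one, mul_inv_cancel_left]
    · intro x
      exact cl_le (cl_a x) ((cl x).mul_mem (cl_gz j x) (cl_b x))
        (co_mem j ((cl x).mul_mem ((cl x).mul_mem ((cl x).inv_mem (cl_p x j)) (cl_gz j x))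
          (cl_p x j)) (cl_c x))
  le x := cl_le (cl_a x) ((cl x).mul_mem ((cl x).inv_mem (cl_gz j x)) (cl_b x))
    (co_mem j ((cl x).mul_mem ((cl x).mul_mem ((cl x).inv_mem (cl_p x j))
      ((cl x).inv_mem (cl_gz j x))) (cl_p x j)) (cl_c x))
  vl := by
    rintro ⟨a, b, c⟩
    simp only [tz, gz, cmt, pp_co_gt hj]
    group
  me C hC x h := co_me j _ hC h
  eq := by
    intro s x
    have h1 : (pp j (cx s x).2.2)⁻¹ * (gz j (cx s x))⁻¹ * pp j (cx s x).2.2 =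
        s * ((pp j x.2.2)⁻¹ * (gz j x)⁻¹ * pp j x.2.2) * s⁻¹ := by
      rw [gz_cx]
      simp only [cx, pp_ca]
      group
    unfold tz
    rw [h1, gz_cx]
    simp only [cx, Prod.mk.injEq, true_and]
    rw [co_ca]
    refine ⟨?_, rfl⟩
    group

theorem pp_tt (j : ℕ) (x : G × G × (ℕ → G)) : pp j (tt j x).2.2 = pp j x.2.2 := by
  change pp j (cp j (pp j x.2.2)⁻¹ x.2.2) = pp j x.2.2
  rw [pp_cp_le le_rfl]
  group

theorem mv_tt {M j : ℕ} (hj : j ≤ M) : Mv M (tt j : G × G × (ℕ → G) → G × G × (ℕ → G)) where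
  inv := by
    refine ⟨fun x => (x.1, x.2.1, cp j (pp j x.2.2) x.2.2), ?_, ?_⟩
    · intro x
      beta_reduce
      rw [pp_tt]
      simp only [tt, cp_cp, mul_inv_cancel, cp_one]
    · intro x
      exact cl_le (cl_a x) (cl_b x) (cp_mem j (cl_p x j) (cl_c x))
  le x := cl_le (cl_a x) (cl_b x) (cp_mem j ((cl x).inv_mem (cl_p x j)) (cl_c x))
  vl := by
    rintro ⟨a, b, c⟩
    simp only [tt, pp_cp_ge hj]
    group
  me C hC x h := cp_me j _ hC h
  eq := by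
    intro s x
    have h1 : (pp j (cx s x).2.2)⁻¹ = s * (pp j x.2.2)⁻¹ * s⁻¹ := by
      simp only [cx, pp_ca]
      group
    unfold tt
    rw [h1]
    simp only [cx, Prod.mk.injEq, true_and]
    rw [cp_ca]

/-! ### relations -/

theorem t_braid12 (x : G × G × (ℕ → G)) : t1 (t2 (t1 x)) = t2 (t1 (t2 x)) := by
  obtain ⟨a, b, c⟩ := x
  simp only [t1, t2, Prod.mk.injEq, and_true]
  refine ⟨?_, ?_⟩ <;> group

theorem tu_zero (x : G × G × (ℕ → G)) : tu 0 x = t1 x := by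
  obtain ⟨a, b, c⟩ := x
  simp only [t1, tu, gu, pp, cp_zero, Prod.mk.injEq, true_and, and_true]
  group

theorem tt_zero (x : G × G × (ℕ → G)) : tt 0 x = x := by
  obtain ⟨a, b, c⟩ := x
  simp only [tt, cp_zero]

theorem t_braid2u (j : ℕ) (x : G × G × (ℕ → G)) : t2 (tu j (t2 x)) = tu j (t2 (tu j x)) := by
  obtain ⟨a, b, c⟩ := x
  simp only [t2, tu, gu, cp_cp, pp_cp_le (le_refl j), Prod.mk.injEq]
  refine ⟨?_, ?_, ?_⟩
  · group
  · group
  · congr 1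
    group

theorem t_braid2z (j : ℕ) (x : G × G × (ℕ → G)) : t2 (tz j (t2 x)) = tz j (t2 (tz j x)) := by
  obtain ⟨a, b, c⟩ := x
  simp only [t2, tz, gz, co_co, pp_co_le (le_refl j), co_eq, Prod.mk.injEq]
  refine ⟨?_, ?_, ?_⟩
  · group
  · group
  · congr 1
    group

/-- the lantern relation -/
theorem t_lantern (j : ℕ) (x : G × G × (ℕ → G)) :
    t1 (tu (j + 1) (tt j x)) = tt (j + 1) (tu j (tz j x)) := by
  obtain ⟨a, b, c⟩ := x
  have e1 : pp (j + 1) c = pp j c * c j := rfl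
  simp only [t1, tu, tt, tz, gu, gz, Prod.mk.injEq, true_and]
  refine ⟨?_, ?_⟩
  · simp only [pp_cp_le (le_refl j), pp_cp_ge (Nat.le_succ j), pp_co_le (le_refl j), e1]
    group
  · funext i
    rcases lt_trichotomy i j with hi | hi | hi
    · have hi1 : i < j + 1 := by omega
      have hi2 : i ≠ j := by omega
      simp only [cp_lt hi, cp_lt hi1, co_ne hi2, pp_cp_le (le_refl j),
        pp_cp_ge (Nat.le_succ j), pp_co_le (le_refl j), pp_co_gt (Nat.lt_succ_self j), e1]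
      group
    · subst hi
      have hi1 : i < i + 1 := by omega
      simp only [cp_lt hi1, cp_ge (le_refl i), co_eq, pp_cp_le (le_refl i),
        pp_cp_ge (Nat.le_succ i), pp_co_le (le_refl i), pp_co_gt (Nat.lt_succ_self i), e1]
      group
    · have hi1 : j + 1 ≤ i := by omega
      have hi2 : i ≠ j := by omega
      simp only [cp_ge hi.le, cp_ge hi1, co_ne hi2]

/-- `tu M` on the tuples with value `w` -/
def t3 (M : ℕ) (w : G) (x : G × G × (ℕ → G)) : G × G × (ℕ → G) :=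
  (x.1, (x.1⁻¹ * w)⁻¹ * x.2.1, cp M (x.1⁻¹ * w)⁻¹ x.2.2)

theorem tu_eq {M : ℕ} {w : G} {x : G × G × (ℕ → G)} (h : cmt x.1 x.2.1 * pp M x.2.2 = w) :
    tu M x = t3 M w x := by
  have h1 : gu M x = x.1⁻¹ * w := by
    rw [← h]
    unfold gu cmt
    group
  unfold tu t3
  rw [h1]

theorem t123 (M : ℕ) (w : G) (a b : G) (c : ℕ → G) : t1 (t2 (t3 M w (a, b, c))) =
    (a * b⁻¹ * (a⁻¹ * w), (a⁻¹ * w)⁻¹ * b * a * b⁻¹ * (a⁻¹ * w),
      cp M (a⁻¹ * w)⁻¹ c) := by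
  simp only [t1, t2, t3, Prod.mk.injEq, and_true]
  refine ⟨?_, ?_⟩ <;> group

theorem t123_sq (M : ℕ) (w : G) (a b : G) (c : ℕ → G) :
    t1 (t2 (t3 M w (t1 (t2 (t3 M w (a, b, c)))))) =
      (a⁻¹ * w, (a⁻¹ * w)⁻¹ * a * b⁻¹ * (a⁻¹ * w) * (a⁻¹ * w),
        cp M ((a⁻¹ * w)⁻¹ * b⁻¹) c) := by
  rw [t123, t123, Prod.mk.injEq, Prod.mk.injEq, cp_cp]
  refine ⟨?_, ?_, ?_⟩
  · group
  · group
  · congr 1
    group

/-- the fourth power of `t1 t2 t3` -/
theorem t123_four {M : ℕ} {w a b : G} {c : ℕ → G} (h : cmt a b * pp M c = w) :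
    (fun y => t1 (t2 (t3 M w y)))^[4] (a, b, c) =
      (w⁻¹ * a * w, w⁻¹ * b * w, cp M (w⁻¹ * (pp M c)⁻¹) c) := by
  have e4 : (fun y => t1 (t2 (t3 M w y)))^[4] (a, b, c) =
      t1 (t2 (t3 M w (t1 (t2 (t3 M w (t1 (t2 (t3 M w (t1 (t2 (t3 M w (a, b, c)))))))))))) := rfl
  have hc : pp M c = (cmt a b)⁻¹ * w := by rw [← h]; group
  rw [e4, t123_sq, t123_sq, Prod.mk.injEq, Prod.mk.injEq, cp_cp, hc]
  unfold cmt
  refine ⟨?_, ?_, ?_⟩
  · group
  · group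
  · congr 1
    group

end

end Pool.Agent.Lib.P0c8ca5.Kp
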