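import Mathlib
import Pool.Agent.Lib.P0c8ca5Fo.Tr
import Pool.Agent.Lib.P0c8ca5Kp.MFib
import Pool.Agent.Lib.P0c8ca5Kp.MMov

/-!
# P0c8ca5Kp.MLT: the moves on the set of the tuples
-/

namespace Pool.Agent.Lib.P0c8ca5.Kp

open MulAction Ab Fo

section
variable {G : Type*} [Group G] {p k M : ℕ} {S : Subgroup G} {w : G} {C : ℕ → Set G}

theorem finite_XM [Finite G] (hC : CI M C) : Finite (XM p w M C) := by
  let F : XM p w M C → G × G × (Fin M → G) := fun x => (x.1.1, x.1.2.1, fun i => x.1.2.2 i)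
  refine Finite.of_injective F ?_
  intro x y h
  have h1 : x.1.1 = y.1.1 := congrArg (fun t : G × G × (Fin M → G) => t.1) h
  have h2 : x.1.2.1 = y.1.2.1 := congrArg (fun t : G × G × (Fin M → G) => t.2.1) h
  have h3 : (fun i : Fin M => x.1.2.2 i) = fun i : Fin M => y.1.2.2 i :=
    congrArg (fun t : G × G × (Fin M → G) => t.2.2) h
  apply Subtype.ext
  refine Prod.ext h1 (Prod.ext h2 ?_)
  funext i
  rcases lt_or_ge i M with hi | hi
  · exact congrFun h3 ⟨i, hi⟩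
  · rw [hC.on i hi _ (x.2.me i), hC.on i hi _ (y.2.me i)]

theorem Mv.cl_eq {f : G × G × (ℕ → G) → G × G × (ℕ → G)} (h : Mv M f) (x : G × G × (ℕ → G)) :
    cl (f x) = cl x := by
  obtain ⟨f', h1, h2⟩ := h.inv
  refine le_antisymm (h.le x) ?_
  have h3 := h2 (f x)
  rwa [h1] at h3

theorem Mv.inj {f : G × G × (ℕ → G) → G × G × (ℕ → G)} (h : Mv M f) : Function.Injective f := by
  obtain ⟨f', h1, _⟩ := h.inv
  intro x y hxy
  rw [← h1 x, ← h1 y, hxy]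

/-- the move on the set of the tuples -/
def lf {f : G × G × (ℕ → G) → G × G × (ℕ → G)} (h : Mv M f) (hC : CI M C) (x : XM p w M C) :
    XM p w M C :=
  ⟨f x.1, (h.vl x.1).trans x.2.cm, h.me C hC.cj _ x.2.me, fun g hg => by
    have h1 := x.2.ge g hg
    have h2 : cl (f x.1) = cl x.1 := h.cl_eq x.1
    change g ∈ cl (f x.1)
    rw [h2]
    exact h1⟩

theorem lf_bij [Finite G] {f : G × G × (ℕ → G) → G × G × (ℕ → G)} (h : Mv M f) (hC : CI M C) :
    Function.Bijective (lf h hC : XM p w M C → XM p w M C) := by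
  have := finite_XM (p := p) (w := w) hC
  exact Finite.injective_iff_bijective.1 fun _ _ h' =>
    Subtype.ext (h.inj (congrArg Subtype.val h'))

theorem Pw3_cx (hC : CI M C) {s : G} (hs : s * w = w * s) {x : G × G × (ℕ → G)}
    (h : Pw3 p w M C x) : Pw3 p w M C (cx s x) := by
  obtain ⟨a, b, c⟩ := x
  refine ⟨?_, ?_, ?_⟩
  · have h1 : cmt (s * a * s⁻¹) (s * b * s⁻¹) * pp M (ca s c) = s * (cmt a b * pp M c) * s⁻¹ := by
      rw [pp_ca]
      unfold cmt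
      group
    change cmt (s * a * s⁻¹) (s * b * s⁻¹) * pp M (ca s c) = w
    rw [h1, h.cm, hs]
    group
  · intro i
    exact hC.cj i s _ (h.me i)
  · intro g hg
    have h2 : Preg p (MulAut.conj s⁻¹ g) := by
      unfold Preg at hg ⊢
      rwa [MulEquiv.orderOf_eq]
    have h3 := h.ge _ h2
    have h4 : MulAut.conj s (MulAut.conj s⁻¹ g) = g := by
      simp [MulAut.conj_apply, mul_assoc]
    rw [← h4]
    have h5 : MulAut.conj s (MulAut.conj s⁻¹ g) ∈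
        (Subgroup.closure ({a, b} ∪ Set.range c : Set G)).map (MulAut.conj s).toMonoidHom :=
      Subgroup.mem_map.2 ⟨_, h3, rfl⟩
    rw [MonoidHom.map_closure] at h5
    refine Subgroup.closure_mono ?_ h5
    rintro x ⟨y, hy, rfl⟩
    rcases hy with (rfl | hy) | ⟨i, rfl⟩
    · left; left
      simp [MulAut.conj_apply, cx]
    · rw [Set.mem_singleton_iff] at hy
      subst hy
      left; right
      simp [MulAut.conj_apply, cx]
    · right
      refine ⟨i, ?_⟩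
      simp [MulAut.conj_apply, cx, ca]

/-- conjugation by an element commuting with `w` -/
def cs (hC : CI M C) (s : G) (hs : s * w = w * s) (x : XM p w M C) : XM p w M C :=
  ⟨cx s x.1, Pw3_cx hC hs x.2⟩

theorem lf_cs {f : G × G × (ℕ → G) → G × G × (ℕ → G)} (h : Mv M f) (hC : CI M C) (s : G)
    (hs : s * w = w * s) (x : XM p w M C) : lf h hC (cs hC s hs x) = cs hC s hs (lf h hC x) :=
  Subtype.ext (h.eq _ _)

theorem cx_cx (s t : G) (x : G × G × (ℕ → G)) : cx s (cx t x) = cx (s * t) x := by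
  obtain ⟨a, b, c⟩ := x
  simp only [cx, Prod.mk.injEq]
  refine ⟨by group, by group, ?_⟩
  funext i
  unfold ca
  group

theorem cx_one (x : G × G × (ℕ → G)) : cx 1 x = x := by
  obtain ⟨a, b, c⟩ := x
  simp only [cx, Prod.mk.injEq]
  refine ⟨by group, by group, ?_⟩
  funext i
  unfold ca
  group

/-- the action of `S` on the tuples -/
@[reducible] def actM (hC : CI M C) (hy : HyS p k S w) : MulAction ↥S (XM p w M C) where
  smul s x := cs hC (s : G) (hy.cw s s.2) x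
  one_smul x := Subtype.ext (cx_one x.1)
  mul_smul s t x := Subtype.ext (cx_cx (s : G) (t : G) x.1).symm

theorem hyT (hy : HyS p k S w) (x : XM p w M C) :
    HyT p k (Sc S x.1.2.2) (Set.range x.1.2.2) (cmt x.1.1 x.1.2.1) := by
  refine ⟨hy.no, hy.pS.to_le inf_le_left, ?_, fun y hy1 => ?_, hy.pk⟩
  · rintro y hy1 _ ⟨i, rfl⟩
    exact (mem_Sc.1 hy1).2 i
  · obtain ⟨h1, h2⟩ := mem_Sc.1 hy1
    have h3 : cmt x.1.1 x.1.2.1 = w * (pp M x.1.2.2)⁻¹ := eq_mul_inv_of_mul_eq x.2.cm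
    have h4 : Commute y (pp M x.1.2.2) := by
      have h5 : pp M x.1.2.2 ∈ Subgroup.centralizer ({y} : Set G) := by
        refine pp_mem (fun i => ?_) M
        rw [Subgroup.mem_centralizer_singleton_iff]
        exact (h2 i).symm
      rw [Subgroup.mem_centralizer_singleton_iff] at h5
      exact (show Commute (pp M x.1.2.2) y from h5).symm
    rw [h3]
    exact ((show Commute y w from hy.cw y h1).mul_right h4.inv_right).eq

theorem pt (x : XM p w M C) : Pt p (Set.range x.1.2.2) (cmt x.1.1 x.1.2.1) x.1.1 x.1.2.1 :=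
  ⟨rfl, x.2.ge⟩

/-- the group `Vg` of a tuple -/
def VV (S : Subgroup G) (k : ℕ) (x : XM p w M C) : Subgroup G :=
  Vg (Sc S x.1.2.2) k x.1.1 x.1.2.1

/-- the group `Qg` of a tuple -/
def QQ (S : Subgroup G) (k : ℕ) (x : XM p w M C) : Subgroup G :=
  Qg (Sc S x.1.2.2) k x.1.1 x.1.2.1

theorem T1_iter (hC : CI M C) (n : ℕ) (x : XM p w M C) :
    ((lf (mv_t1 M) hC)^[n] x).1 = (x.1.1, x.1.2.1 * x.1.1 ^ n, x.1.2.2) := by
  induction n generalizing x with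
  | zero => simp
  | succ n ih =>
    rw [Function.iterate_succ_apply, ih]
    change (x.1.1, x.1.2.1 * x.1.1 * x.1.1 ^ n, x.1.2.2) = _
    rw [mul_assoc, ← pow_succ']

end

section
variable {G : Type*} [Group G] [Finite G] {p k M : ℕ} [Fact p.Prime] {S : Subgroup G} {w : G}
  {C : ℕ → Set G}

/-- the tuple `(a, v b, c)` -/
def vX (hy : HyS p k S w) (x : XM p w M C) (v : ↥(VV S k x)) : XM p w M C :=
  ⟨(x.1.1, v.1 * x.1.2.1, x.1.2.2), by
    have h := Pw_vb (hyT hy x) (pt x) v.2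
    exact ⟨h.cm ▸ x.2.cm, x.2.me, h.ge⟩⟩

theorem VV_vX (hy : HyS p k S w) (x : XM p w M C) (v : ↥(VV S k x)) :
    VV S k (vX hy x v) = VV S k x :=
  Vg_vb (hyT hy x) (pt x) v.2

theorem QQ_vX (hy : HyS p k S w) (x : XM p w M C) (v : ↥(VV S k x)) :
    QQ S k (vX hy x v) = QQ S k x :=
  Qg_vb (hyT hy x) (pt x) v.2

omit [Finite G] [Fact p.Prime] in
theorem Sc_cj (x : XM p w M C) {s : G} (hs : s ∈ S) :
    ∀ y ∈ Sc S x.1.2.2, s * y * s⁻¹ ∈ Sc S (ca s x.1.2.2) := by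
  intro y hy1
  obtain ⟨h1, h2⟩ := mem_Sc.1 hy1
  refine mem_Sc.2 ⟨cj_mem hs y h1, fun i => ?_⟩
  unfold ca
  calc s * y * s⁻¹ * (s * x.1.2.2 i * s⁻¹) = s * (y * x.1.2.2 i) * s⁻¹ := by group
    _ = s * (x.1.2.2 i * y) * s⁻¹ := by rw [h2]
    _ = s * x.1.2.2 i * s⁻¹ * (s * y * s⁻¹) := by group

theorem VV_cj (hC : CI M C) (hy : HyS p k S w) (x : XM p w M C) {s : G} (hs : s ∈ S) {v : G}
    (h : v ∈ VV S k x) : s * v * s⁻¹ ∈ VV S k (cs hC s (hy.cw s hs) x) :=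
  Vg_cj (hyT hy x) (pt x) (hyT hy (cs hC s (hy.cw s hs) x)) (pt (cs hC s (hy.cw s hs) x))
    (Sc_cj x hs) h

omit [Finite G] [Fact p.Prime] in
theorem cs_inv (hC : CI M C) (hy : HyS p k S w) (x : XM p w M C) {s : G} (hs : s ∈ S) :
    cs hC s⁻¹ (hy.cw _ (S.inv_mem hs)) (cs hC s (hy.cw s hs) x) = x := by
  apply Subtype.ext
  change cx s⁻¹ (cx s x.1) = x.1
  rw [cx_cx, inv_mul_cancel, cx_one]

theorem VV_cj' (hC : CI M C) (hy : HyS p k S w) (x : XM p w M C) {s : G} (hs : s ∈ S) {v : G}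
    (h : v ∈ VV S k (cs hC s (hy.cw s hs) x)) : s⁻¹ * v * s ∈ VV S k x := by
  have h2 := VV_cj hC hy _ (S.inv_mem hs) h
  rw [cs_inv hC hy x hs, inv_inv] at h2
  exact h2

theorem T1k (hC : CI M C) (hy : HyS p k S w) (x : XM p w M C) (v : ↥(VV S k x)) :
    (lf (mv_t1 M) hC)^[k] (vX hy x v) =
      vX hy x (⟨cq k x.1.1 x.1.2.1, cq_mem_Vg (hyT hy x) (pt x)⟩ * v) := by
  apply Subtype.ext
  rw [T1_iter]
  change (x.1.1, v.1 * x.1.2.1 * x.1.1 ^ k, x.1.2.2) =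
    (x.1.1, cq k x.1.1 x.1.2.1 * v.1 * x.1.2.1, x.1.2.2)
  have h1 := cq_mem_Vg (hyT hy x) (pt x)
  have h2 := (Vg_comm (hyT hy x) (pt x) v.2 h1).eq
  have h3 : x.1.2.1 * x.1.1 ^ k = cq k x.1.1 x.1.2.1 * x.1.2.1 := by
    unfold cq
    rw [conj_pow, inv_mul_cancel_right]
  rw [mul_assoc, h3, ← mul_assoc, h2]

theorem vX_smul (hC : CI M C) (hy : HyS p k S w) (x : XM p w M C) (s : ↥S)
    (v : ↥(VV S k x)) (v' : ↥(VV S k (cs hC (s : G) (hy.cw s s.2) (vX hy x v)))) :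
    ∃ v'' : ↥(VV S k x), vX hy (cs hC (s : G) (hy.cw s s.2) (vX hy x v)) v' =
      cs hC (s : G) (hy.cw s s.2) (vX hy x v'') := by
  have h1 := VV_cj' hC hy (vX hy x v) s.2 v'.2
  rw [VV_vX hy x v] at h1
  refine ⟨⟨(s : G)⁻¹ * v'.1 * s * v.1, Subgroup.mul_mem _ h1 v.2⟩, ?_⟩
  apply Subtype.ext
  change ((s : G) * x.1.1 * (s : G)⁻¹, v'.1 * ((s : G) * (v.1 * x.1.2.1) * (s : G)⁻¹),
      ca (s : G) x.1.2.2) =
    ((s : G) * x.1.1 * (s : G)⁻¹,
      (s : G) * ((s : G)⁻¹ * v'.1 * s * v.1 * x.1.2.1) * (s : G)⁻¹,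
      ca (s : G) x.1.2.2)
  rw [Prod.mk.injEq, Prod.mk.injEq]
  exact ⟨rfl, by group, rfl⟩

theorem vX_smul' (hC : CI M C) (hy : HyS p k S w) (x : XM p w M C) (s : ↥S)
    (v v'' : ↥(VV S k x)) :
    ∃ v' : ↥(VV S k (cs hC (s : G) (hy.cw s s.2) (vX hy x v))),
      vX hy (cs hC (s : G) (hy.cw s s.2) (vX hy x v)) v' =
      cs hC (s : G) (hy.cw s s.2) (vX hy x v'') := by
  have h1 : v''.1 * v.1⁻¹ ∈ VV S k (vX hy x v) := by
    rw [VV_vX hy x v]
    exact Subgroup.mul_mem _ v''.2 (Subgroup.inv_mem _ v.2)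
  have h2 := VV_cj hC hy (vX hy x v) s.2 h1
  refine ⟨⟨(s : G) * (v''.1 * v.1⁻¹) * (s : G)⁻¹, h2⟩, ?_⟩
  apply Subtype.ext
  change ((s : G) * x.1.1 * (s : G)⁻¹, (s : G) * (v''.1 * v.1⁻¹) * (s : G)⁻¹ *
      ((s : G) * (v.1 * x.1.2.1) * (s : G)⁻¹), ca (s : G) x.1.2.2) =
    ((s : G) * x.1.1 * (s : G)⁻¹, (s : G) * (v''.1 * x.1.2.1) * (s : G)⁻¹,
      ca (s : G) x.1.2.2)
  rw [Prod.mk.injEq, Prod.mk.injEq]
  exact ⟨rfl, by group, rfl⟩

theorem trL_T (hC : CI M C) (hy : HyS p k S w) {A : Type*} [CommGroup A] (lam : ↥S →* A)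
    {κ : XM p w M C → A} (hκ : ∀ (s : ↥S) (x : XM p w M C),
      κ (cs hC (s : G) (hy.cw s s.2) x) = lam s * κ x) :
    @trL (↥S) (XM p w M C) A _ (actM hC hy) _ κ ((lf (mv_t1 M) hC)^[k]) = 1 := by
  letI : MulAction ↥S (XM p w M C) := actM hC hy
  have hfin : Finite (XM p w M C) := finite_XM hC
  have hκ' : ∀ (s : ↥S) (x : XM p w M C), κ (s • x) = lam s * κ x := hκ
  have hs1 : ∀ (s : ↥S) (x : XM p w M C), lf (mv_t1 M) hC (s • x) = s • lf (mv_t1 M) hC x :=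
    fun s x => lf_cs _ hC _ _ x
  have hT : ∀ (s : ↥S) (x : XM p w M C),
      (lf (mv_t1 M) hC)^[k] (s • x) = s • (lf (mv_t1 M) hC)^[k] x := iter_smul hs1 k
  have : Finite (orbitRel.Quotient ↥S (XM p w M C)) := Quotient.finite _
  let B : orbitRel.Quotient ↥S (XM p w M C) → Set (orbitRel.Quotient ↥S (XM p w M C)) := fun q =>
    Set.range (fun v : ↥(VV S k q.out) =>
      (Quotient.mk (orbitRel ↥S (XM p w M C)) (vX hy q.out v)))
  refine prod_blocks (fun q => trF κ ((lf (mv_t1 M) hC)^[k]) q.out) B ?_ ?_ ?_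
  · intro q
    refine ⟨1, ?_⟩
    have h1 : vX hy q.out 1 = q.out := by
      apply Subtype.ext
      change (q.out.1.1, 1 * q.out.1.2.1, q.out.1.2.2) = q.out.1
      rw [one_mul]
    change Quotient.mk (orbitRel ↥S (XM p w M C)) (vX hy q.out 1) = q
    rw [h1]
    exact Quotient.out_eq q
  · rintro q q' ⟨v, hv⟩
    have hv' : Quotient.mk (orbitRel ↥S (XM p w M C)) (vX hy q.out v) = q' := hv
    -- a representative
    obtain ⟨s, hs⟩ : ∃ s : ↥S, s • vX hy q.out v = q'.out := by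
      have h1 : Quotient.mk (orbitRel ↥S (XM p w M C)) q'.out =
          Quotient.mk (orbitRel ↥S (XM p w M C)) (vX hy q.out v) := by
        rw [hv']
        exact Quotient.out_eq q'
      obtain ⟨s, hs⟩ := Quotient.exact h1
      exact ⟨s, hs⟩
    have hB' : B q' = Set.range (fun v' : ↥(VV S k q'.out) =>
      (Quotient.mk (orbitRel ↥S (XM p w M C)) (vX hy q'.out v'))) := rfl
    rw [hB', ← hs]
    ext t
    constructor
    · rintro ⟨v', rfl⟩
      obtain ⟨v'', h1⟩ := vX_smul hC hy q.out s v v'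
      refine ⟨v'', ?_⟩
      change Quotient.mk (orbitRel ↥S (XM p w M C)) (vX hy q.out v'') =
        Quotient.mk (orbitRel ↥S (XM p w M C)) (vX hy (s • vX hy q.out v) v')
      have h2 : vX hy (s • vX hy q.out v) v' = s • vX hy q.out v'' := h1
      rw [h2, mk_smul]
    · rintro ⟨v'', rfl⟩
      obtain ⟨v', h1⟩ := vX_smul' hC hy q.out s v v''
      refine ⟨v', ?_⟩
      change Quotient.mk (orbitRel ↥S (XM p w M C)) (vX hy (s • vX hy q.out v) v') =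
        Quotient.mk (orbitRel ↥S (XM p w M C)) (vX hy q.out v'')
      have h2 : vX hy (s • vX hy q.out v) v' = s • vX hy q.out v'' := h1
      rw [h2, mk_smul]
  · intro q
    set x := q.out with hx
    have hyx := hyT hy x
    have hpx := pt x
    letI : CommGroup ↥(VV S k x) :=
      { (inferInstance : Group ↥(VV S k x)) with
        mul_comm := fun u v => Subtype.ext (Vg_comm hyx hpx u.2 v.2).eq }
    letI : CommGroup ↥(QQ S k x) :=
      { (inferInstance : Group ↥(QQ S k x)) with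
        mul_comm := fun u v => Subtype.ext (Qg_comm hyx hpx u.2 v.2).eq }
    let f : ↥(QQ S k x) →* ↥(VV S k x) :=
      { toFun := fun y => ⟨y.1 * x.1.2.1 * y.1⁻¹ * x.1.2.1⁻¹, cmt_mem hyx hpx y.2⟩
        map_one' := by
          apply Subtype.ext
          change (1 : G) * x.1.2.1 * 1⁻¹ * x.1.2.1⁻¹ = 1
          group
        map_mul' := by
          intro y z
          apply Subtype.ext
          change y.1 * z.1 * x.1.2.1 * (y.1 * z.1)⁻¹ * x.1.2.1⁻¹ =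
            y.1 * x.1.2.1 * y.1⁻¹ * x.1.2.1⁻¹ * (z.1 * x.1.2.1 * z.1⁻¹ * x.1.2.1⁻¹)
          have h1 := cmt_mem hyx hpx z.2
          have h2 := (Vg_Qg hyx hpx h1 y.2).eq
          have h3 := cmt_mem hyx hpx y.2
          have h4 := (Vg_comm hyx hpx h3 h1).eq
          calc y.1 * z.1 * x.1.2.1 * (y.1 * z.1)⁻¹ * x.1.2.1⁻¹
              = y.1 * (z.1 * x.1.2.1 * z.1⁻¹ * x.1.2.1⁻¹) * x.1.2.1 * y.1⁻¹ * x.1.2.1⁻¹ := by
                group
            _ = (z.1 * x.1.2.1 * z.1⁻¹ * x.1.2.1⁻¹) * y.1 * x.1.2.1 * y.1⁻¹ * x.1.2.1⁻¹ := by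
                rw [h2]
            _ = (z.1 * x.1.2.1 * z.1⁻¹ * x.1.2.1⁻¹) * (y.1 * x.1.2.1 * y.1⁻¹ * x.1.2.1⁻¹) := by
                group
            _ = y.1 * x.1.2.1 * y.1⁻¹ * x.1.2.1⁻¹ * (z.1 * x.1.2.1 * z.1⁻¹ * x.1.2.1⁻¹) := by
                rw [h4] }
    have hfv : ∀ y : ↥(QQ S k x), (f y).1 = y.1 * x.1.2.1 * y.1⁻¹ * x.1.2.1⁻¹ :=
      fun _ => rfl
    have hQs : ∀ y ∈ QQ S k x, (y ∈ S ∧ ∀ i, y * x.1.2.2 i = x.1.2.2 i * y) ∧
        y * x.1.1 = x.1.1 * y :=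
      fun y hy1 => ⟨mem_Sc.1 (Qg_sub hyx hpx hy1).1, (Qg_sub hyx hpx hy1).2⟩
    let ι : ↥(QQ S k x) →* ↥S := Subgroup.inclusion (fun y hy1 => (hQs y hy1).1.1)
    have hι : ∀ y : ↥(QQ S k x), ((ι y : ↥S) : G) = y.1 := fun _ => rfl
    have hcq : cq k x.1.1 x.1.2.1 ∈ VV S k x := cq_mem_Vg hyx hpx
    have hsv : ∀ (s : ↥S) (x : XM p w M C),
      (s • x).1 = ((s : G) * x.1.1 * (s : G)⁻¹, (s : G) * x.1.2.1 * (s : G)⁻¹,
        ca (s : G) x.1.2.2) := fun _ _ => rfl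
    refine block_one (lam := lam) hκ' hT (vX hy x) ⟨cq k x.1.1 x.1.2.1, hcq⟩ f ?_ ι ?_ ?_ ?_ ?_
    · rw [injective_iff_map_eq_one]
      intro y hy1
      have h1 : y.1 * x.1.2.1 * y.1⁻¹ * x.1.2.1⁻¹ = 1 := by
        rw [← hfv, hy1]
        rfl
      have h2 := Qg_sub hyx hpx y.2
      have h3 : y.1 * x.1.2.1 = x.1.2.1 * y.1 := by
        have h4 : y.1 * x.1.2.1 = (y.1 * x.1.2.1 * y.1⁻¹ * x.1.2.1⁻¹) * (x.1.2.1 * y.1) := by
          group
        rw [h4, h1, one_mul]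
      exact Subtype.ext (fix_one hyx hpx h2.1 h2.2 h3)
    · intro y v
      apply Subtype.ext
      rw [hsv, hι]
      change (x.1.1, (f y).1 * v.1 * x.1.2.1, x.1.2.2) =
        (y.1 * x.1.1 * y.1⁻¹, y.1 * (v.1 * x.1.2.1) * y.1⁻¹, ca y.1 x.1.2.2)
      have h2 := hQs y.1 y.2
      have h3 := (Vg_Qg hyx hpx v.2 y.2).eq
      have h4 := (Vg_comm hyx hpx (f y).2 v.2).eq
      rw [Prod.mk.injEq, Prod.mk.injEq]
      refine ⟨?_, ?_, ?_⟩
      · rw [h2.2, mul_inv_cancel_right]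
      · calc (f y).1 * v.1 * x.1.2.1 = v.1 * (f y).1 * x.1.2.1 := by rw [h4]
          _ = v.1 * (y.1 * x.1.2.1 * y.1⁻¹ * x.1.2.1⁻¹) * x.1.2.1 := by rw [hfv]
          _ = (v.1 * y.1) * x.1.2.1 * y.1⁻¹ := by group
          _ = (y.1 * v.1) * x.1.2.1 * y.1⁻¹ := by rw [h3]
          _ = y.1 * (v.1 * x.1.2.1) * y.1⁻¹ := by group
      · funext i
        unfold ca
        rw [h2.1.2 i, mul_inv_cancel_right]
    · intro v
      exact T1k hC hy x v
    · intro v v' s h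
      have h1 := congrArg Subtype.val h
      rw [hsv] at h1
      have h2 : x.1.1 = (s : G) * x.1.1 * (s : G)⁻¹ := congrArg Prod.fst h1
      have h3 : v.1 * x.1.2.1 = (s : G) * (v'.1 * x.1.2.1) * (s : G)⁻¹ :=
        congrArg (fun t => t.2.1) h1
      have h3c : x.1.2.2 = ca (s : G) x.1.2.2 := congrArg (fun t => t.2.2) h1
      have hsa : (s : G) * x.1.1 = x.1.1 * (s : G) := by
        conv_rhs => rw [h2]
        group
      have hsc : ∀ i, (s : G) * x.1.2.2 i = x.1.2.2 i * (s : G) := by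
        intro i
        have h4 : x.1.2.2 i = (s : G) * x.1.2.2 i * (s : G)⁻¹ := congrFun h3c i
        conv_rhs => rw [h4]
        group
      have hsS : (s : G) ∈ Sc S x.1.2.2 := mem_Sc.2 ⟨s.2, hsc⟩
      -- `v` as an element of the group of the pair `(a, v' b)`
      have hP' := Pw_vb hyx hpx v'.2
      have hVV : Vg (Sc S x.1.2.2) k x.1.1 (v'.1 * x.1.2.1) = Vg (Sc S x.1.2.2) k x.1.1 x.1.2.1 :=
        Vg_vb hyx hpx v'.2
      have h4 : (s : G) * (v'.1 * x.1.2.1) * (s : G)⁻¹ * (v'.1 * x.1.2.1)⁻¹ ∈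
          Vg (Sc S x.1.2.2) k x.1.1 (v'.1 * x.1.2.1) := by
        rw [hVV, ← h3]
        have h5 : v.1 * x.1.2.1 * (v'.1 * x.1.2.1)⁻¹ = v.1 * v'.1⁻¹ := by group
        rw [h5]
        exact Subgroup.mul_mem _ v.2 (Subgroup.inv_mem _ v'.2)
      have h5 := mem_Qg_of hyx hP' hsS hsa h4
      rw [Qg_vb hyx hpx v'.2] at h5
      refine ⟨⟨s, h5⟩, ?_⟩
      apply Subtype.ext
      change v.1 = (f ⟨s, h5⟩).1 * v'.1
      rw [hfv]
      change v.1 = (s : G) * x.1.2.1 * (s : G)⁻¹ * x.1.2.1⁻¹ * v'.1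
      have h6 := (Vg_Qg hyx hpx v'.2 h5).eq
      have h7 : (s : G) * x.1.2.1 * (s : G)⁻¹ * x.1.2.1⁻¹ ∈ Vg (Sc S x.1.2.2) k x.1.1 x.1.2.1 :=
        cmt_mem hyx hpx h5
      have h8 := (Vg_comm hyx hpx h7 v'.2).eq
      rw [h8]
      have h9 : v.1 = (s : G) * (v'.1 * x.1.2.1) * (s : G)⁻¹ * x.1.2.1⁻¹ := by
        rw [← h3, mul_inv_cancel_right]
      rw [h9]
      calc (s : G) * (v'.1 * x.1.2.1) * (s : G)⁻¹ * x.1.2.1⁻¹
          = ((s : G) * v'.1) * x.1.2.1 * (s : G)⁻¹ * x.1.2.1⁻¹ := by group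
        _ = (v'.1 * (s : G)) * x.1.2.1 * (s : G)⁻¹ * x.1.2.1⁻¹ := by
            have h10 : ((s : G)) * v'.1 = v'.1 * (s : G) := h6
            rw [h10]
        _ = v'.1 * ((s : G) * x.1.2.1 * (s : G)⁻¹ * x.1.2.1⁻¹) := by group
    · apply Subtype.ext
      change (cq k x.1.1 x.1.2.1) ^ (Nat.card (Vg (Sc S x.1.2.2) k x.1.1 x.1.2.1) /
        Nat.card (Qg (Sc S x.1.2.2) k x.1.1 x.1.2.1)) = 1
      exact cq_pow hyx hpx

end

end Pool.Agent.Lib.P0c8ca5.Kp
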