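import Mathlib
import Pool.Agent.Lib.P0c8ca5Kp.MLT

/-!
# P0c8ca5Kp.MKey: tuples with `[a, b] c_1 ... c_M = u d`, the key statement with a homomorphism

`G` finite, `O_p(G) = 1`, `u` a p-element and `d` p-regular commuting, `S` a p-subgroup commuting
with `w = u d`, `lam` a homomorphism from `S` to a commutative group. Then the p-part of the order
of `lam u` times the order of `S` divides the number of the tuples.
-/

namespace Pool.Agent.Lib.P0c8ca5.Kp

open MulAction Ab Fo

section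
variable {G : Type*} [Group G] {M : ℕ}

theorem Mv.comp {f g : G × G × (ℕ → G) → G × G × (ℕ → G)} (hf : Mv M f) (hg : Mv M g) :
    Mv M (f ∘ g) where
  inv := by
    obtain ⟨f', h1, h2⟩ := hf.inv
    obtain ⟨g', h3, h4⟩ := hg.inv
    refine ⟨g' ∘ f', fun x => ?_, fun x => (h4 _).trans (h2 x)⟩
    simp only [Function.comp_apply, h1, h3]
  le x := (hf.le _).trans (hg.le x)
  vl x := (hf.vl _).trans (hg.vl x)
  me C hC x h := hf.me C hC _ (hg.me C hC x h)
  eq s x := by
    simp only [Function.comp_apply, hg.eq, hf.eq]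

end

theorem KFM {G : Type*} [Group G] [Finite G] {p k M s : ℕ} [Fact p.Prime] {S : Subgroup G}
    {w u d : G} {C : ℕ → Set G} (hC : CI M C)
    (hy : HyS p k S w) (hk : ¬ p ∣ k) (hu : u ∈ S) (hw : w = u * d)
    (hc : Commute u d) (hd : Preg p d) {A : Type*} [CommGroup A] (lam : ↥S →* A)
    (hlam : p ^ s ∣ orderOf (lam ⟨u, hu⟩)) : p ^ s * Nat.card S ∣ Nat.card (XM p w M C) := by
  have hp : p.Prime := Fact.out
  letI : MulAction ↥S (XM p w M C) := actM hC hy
  have hfin0 : Finite (XM p w M C) := finite_XM hC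
  have hsv : ∀ (s : ↥S) (x : XM p w M C), (s • x).1 = cx (s : G) x.1 := fun _ _ => rfl
  have hfree : ∀ (s : ↥S) (x : XM p w M C), s • x = x → s = 1 := by
    intro s x h
    have h1 := congrArg Subtype.val h
    rw [hsv] at h1
    have h2 : (s : G) * x.1.1 * (s : G)⁻¹ = x.1.1 :=
      congrArg (fun t : G × G × (ℕ → G) => t.1) h1
    have h3 : (s : G) * x.1.2.1 * (s : G)⁻¹ = x.1.2.1 :=
      congrArg (fun t : G × G × (ℕ → G) => t.2.1) h1
    have h4 : ca (s : G) x.1.2.2 = x.1.2.2 :=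
      congrArg (fun t : G × G × (ℕ → G) => t.2.2) h1
    have h5 : ∀ i, (s : G) * x.1.2.2 i = x.1.2.2 i * (s : G) := by
      intro i
      have h6 : (s : G) * x.1.2.2 i * (s : G)⁻¹ = x.1.2.2 i := congrFun h4 i
      conv_rhs => rw [← h6]
      group
    refine Subtype.ext (fix_one (hyT hy x) (pt x) (mem_Sc.2 ⟨s.2, h5⟩) ?_ ?_)
    · conv_rhs => rw [← h2]
      group
    · conv_rhs => rw [← h3]
      group
  obtain ⟨κ, hκ⟩ := exists_kap (X := XM p w M C) lam hfree
  -- equivariance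
  have heq : ∀ {f : G × G × (ℕ → G) → G × G × (ℕ → G)} (h : Mv M f) (s : ↥S) (x : XM p w M C),
      lf h hC (s • x) = s • lf h hC x := fun h s x => lf_cs h hC _ _ x
  have hcomp : ∀ {f g : G × G × (ℕ → G) → G × G × (ℕ → G)} (hf : Mv M f) (hg : Mv M g)
      (hfg : Mv M (f ∘ g)), trL (↥S) κ (lf hfg hC : XM p w M C → XM p w M C) =
        trL (↥S) κ (lf hf hC : XM p w M C → XM p w M C) *
        trL (↥S) κ (lf hg hC : XM p w M C → XM p w M C) := by
    intro f g hf hg hfg
    exact trL_comp hκ (heq hf) (heq hg) (lf_bij hg hC)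
  have hsub : ∀ {f g : G × G × (ℕ → G) → G × G × (ℕ → G)} (hf : Mv M f) (hg : Mv M g),
      f = g → trL (↥S) κ (lf hf hC : XM p w M C → XM p w M C) =
        trL (↥S) κ (lf hg hC : XM p w M C → XM p w M C) := by
    intro f g hf hg h
    subst h
    rfl
  set l : A := trL (↥S) κ (lf (mv_t1 M) hC : XM p w M C → XM p w M C) with hl
  set l2 : A := trL (↥S) κ (lf (mv_t2 M) hC : XM p w M C → XM p w M C) with hl2
  -- braid relations
  have hbraid : ∀ {f : G × G × (ℕ → G) → G × G × (ℕ → G)} (hf : Mv M f),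
      (∀ x, t2 (f (t2 x)) = f (t2 (f x))) →
      trL (↥S) κ (lf hf hC : XM p w M C → XM p w M C) = l2 := by
    intro f hf h
    have h1 := hsub ((mv_t2 M).comp (hf.comp (mv_t2 M))) (hf.comp ((mv_t2 M).comp hf)) (funext h)
    rw [hcomp (mv_t2 M) (hf.comp (mv_t2 M)), hcomp hf (mv_t2 M), hcomp hf ((mv_t2 M).comp hf),
      hcomp (mv_t2 M) hf, ← hl2] at h1
    set y := trL (↥S) κ (lf hf hC : XM p w M C → XM p w M C) with hyy
    -- `l2 (y l2) = y (l2 y)`
    have h2 : (y * l2) * l2 = (y * l2) * y := by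
      calc (y * l2) * l2 = l2 * (y * l2) := mul_comm _ _
        _ = y * (l2 * y) := h1
        _ = (y * l2) * y := (mul_assoc _ _ _).symm
    exact (mul_left_cancel h2).symm
  have hl12 : l = l2 := hbraid (mv_t1 M) (fun x => (t_braid12 x).symm)
  have hlu : ∀ {j : ℕ} (hj : j ≤ M),
      trL (↥S) κ (lf (mv_tu hj) hC : XM p w M C → XM p w M C) = l := by
    intro j hj
    rw [hl12]
    exact hbraid (mv_tu hj) (t_braid2u j)
  have hlz : ∀ {j : ℕ} (hj : j < M),
      trL (↥S) κ (lf (mv_tz hj) hC : XM p w M C → XM p w M C) = l := by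
    intro j hj
    rw [hl12]
    exact hbraid (mv_tz hj) (t_braid2z j)
  -- the twists around the punctures
  have htt : ∀ {j : ℕ} (hj : j ≤ M),
      trL (↥S) κ (lf (mv_tt hj) hC : XM p w M C → XM p w M C) = 1 := by
    intro j
    induction j with
    | zero =>
      intro hj
      have h1 : (lf (mv_tt hj) hC : XM p w M C → XM p w M C) = (lf (mv_t1 M) hC)^[0] := by
        funext x
        exact Subtype.ext (tt_zero x.1)
      rw [h1, trL_iter hκ (heq _) (lf_bij _ hC), pow_zero]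
    | succ j ih =>
      intro hj
      have hj1 : j ≤ M := by omega
      have hj2 : j < M := by omega
      have h1 := hsub ((mv_t1 M).comp ((mv_tu hj).comp (mv_tt hj1)))
        ((mv_tt hj).comp ((mv_tu hj1).comp (mv_tz hj2))) (funext (t_lantern j))
      rw [hcomp (mv_t1 M) ((mv_tu hj).comp (mv_tt hj1)), hcomp (mv_tu hj) (mv_tt hj1),
        hcomp (mv_tt hj) ((mv_tu hj1).comp (mv_tz hj2)), hcomp (mv_tu hj1) (mv_tz hj2), hlu hj,
        hlu hj1, hlz hj2, ih hj1, mul_one] at h1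
      exact (mul_eq_right.1 h1.symm)
  -- the product of the three moves
  have hF := (mv_t1 M).comp ((mv_t2 M).comp (mv_tu (le_refl M) : Mv M (tu M : G × G × (ℕ → G) → _)))
  have hLF : trL (↥S) κ (lf hF hC : XM p w M C → XM p w M C) = l ^ 3 := by
    rw [hcomp (mv_t1 M) ((mv_t2 M).comp (mv_tu (le_refl M))),
      hcomp (mv_t2 M) (mv_tu (le_refl M)), hlu (le_refl M), ← hl2, ← hl12, pow_succ, pow_two,
      mul_assoc]
  have hR := (mv_tt (le_refl M) : Mv M (tt M : G × G × (ℕ → G) → _))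
  have hval : ∀ (n : ℕ) (x : XM p w M C), ((lf hF hC)^[n] x).1 =
      (fun y => t1 (t2 (t3 M w y)))^[n] x.1 := by
    intro n x
    induction n with
    | zero => rfl
    | succ n ih =>
      rw [Function.iterate_succ_apply', Function.iterate_succ_apply']
      change t1 (t2 (tu M ((lf hF hC)^[n] x).1)) = _
      rw [tu_eq ((lf hF hC)^[n] x).2.cm, ih]
  have hfour : ∀ x : XM p w M C, ((lf hF hC)^[4] x).1 = cx w⁻¹ (lf hR hC x).1 := by
    intro x
    rw [hval]
    have h1 := t123_four x.2.cm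
    change (fun y => t1 (t2 (t3 M w y)))^[4] (x.1.1, x.1.2.1, x.1.2.2) = _
    rw [h1]
    change _ = (w⁻¹ * x.1.1 * w⁻¹⁻¹, w⁻¹ * x.1.2.1 * w⁻¹⁻¹, ca w⁻¹ (cp M (pp M x.1.2.2)⁻¹ x.1.2.2))
    rw [inv_inv, Prod.mk.injEq, Prod.mk.injEq]
    refine ⟨rfl, rfl, ?_⟩
    funext i
    unfold ca
    rcases lt_or_ge i M with hi | hi
    · rw [cp_lt hi, cp_lt hi]
      group
    · rw [cp_ge hi, cp_ge hi, hC.on i hi _ (x.2.me i)]
      group
  have hitr : ∀ (r : ℕ) (x : XM p w M C), (((lf hF hC)^[4])^[r] x).1 =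
      cx (w ^ r)⁻¹ ((lf hR hC)^[r] x).1 := by
    intro r
    induction r with
    | zero =>
      intro x
      rw [pow_zero, inv_one, cx_one]
      rfl
    | succ r ih =>
      intro x
      have e0 : (lf hR hC)^[r + 1] x = (lf hR hC)^[r] (lf hR hC x) :=
        Function.iterate_succ_apply _ _ _
      rw [Function.iterate_succ_apply, ih, e0]
      have hcm : w⁻¹ * w = w * w⁻¹ := by group
      have h1 : (lf hF hC)^[4] x = cs hC w⁻¹ hcm (lf hR hC x) := Subtype.ext (hfour x)
      have h2 : ∀ (n : ℕ) (y : XM p w M C), (lf hR hC)^[n] (cs hC w⁻¹ hcm y) =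
          cs hC w⁻¹ hcm ((lf hR hC)^[n] y) := by
        intro n
        induction n with
        | zero => intro y; rfl
        | succ n ihn =>
          intro y
          rw [Function.iterate_succ_apply, lf_cs, ihn, Function.iterate_succ_apply]
      rw [h1, h2]
      change cx (w ^ r)⁻¹ (cx w⁻¹ ((lf hR hC)^[r] (lf hR hC x)).1) = _
      rw [cx_cx, pow_succ', mul_inv_rev]
  -- the `4 r`-th iterate
  set r := orderOf d with hr
  have hwr : w ^ r = u ^ r := by
    rw [hw, hc.mul_pow, hr, pow_orderOf_eq_one, mul_one]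
  set s0 : ↥S := ((⟨u, hu⟩ : ↥S) ^ r)⁻¹ with hs0
  have hs0v : (s0 : G) = (w ^ r)⁻¹ := by
    rw [hwr]
    rfl
  have hit : ((lf hF hC : XM p w M C → XM p w M C)^[4 * r]) =
      fun x : XM p w M C => s0 • ((lf hR hC)^[r] x) := by
    funext x
    apply Subtype.ext
    rw [Function.iterate_mul, hitr, hsv, hs0v]
  have hcen : ∀ (m : ↥S) (x : XM p w M C), s0 • (m • x) = m • (s0 • x) := by
    intro m x
    rw [← mul_smul, ← mul_smul]
    congr 1
    apply Subtype.ext
    change (s0 : G) * (m : G) = (m : G) * (s0 : G)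
    rw [hs0v]
    exact ((show Commute (m : G) w from hy.cw m m.2).pow_right r).inv_right.symm.eq
  have hL := trL_iter hκ (heq hF) (lf_bij hF hC) (4 * r)
  rw [hit, trL_comp hκ hcen (iter_smul (heq hR) r) ((lf_bij hR hC).iterate r), trL_smul hκ,
    trL_iter hκ (heq hR) (lf_bij hR hC), htt (le_refl M), one_pow, mul_one, hLF] at hL
  have hT : l ^ k = 1 := by
    have h1 := trL_iter hκ (heq (mv_t1 M)) (lf_bij (mv_t1 M) hC) k
    have h2 : trL (↥S) κ ((lf (mv_t1 M) hC)^[k] : XM p w M C → XM p w M C) = 1 :=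
      trL_T hC hy lam hκ
    rw [h2] at h1
    exact h1.symm
  set n' := Nat.card (orbitRel.Quotient ↥S (XM p w M C)) with hn'
  have hfin : lam ⟨u, hu⟩ ^ (r * n' * k) = 1 := by
    have h1 : (lam s0 ^ n') ^ k = 1 := by
      rw [hL]
      have h2 : ((l ^ 3) ^ (4 * r)) ^ k = (l ^ k) ^ (3 * (4 * r)) := by
        rw [← pow_mul, ← pow_mul, ← pow_mul]
        congr 1
        ring
      rw [h2, hT, one_pow]
    rw [hs0, map_inv, map_pow, inv_pow, inv_pow, inv_eq_one] at h1
    rw [← h1, pow_mul, pow_mul]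
  have hdvd : p ^ s ∣ r * n' * k := hlam.trans (orderOf_dvd_of_pow_eq_one hfin)
  have hck : Nat.Coprime (p ^ s) k := Nat.Coprime.pow_left s ((Nat.Prime.coprime_iff_not_dvd hp).2 hk)
  have hcr : Nat.Coprime (p ^ s) r := Nat.Coprime.pow_left s ((Nat.Prime.coprime_iff_not_dvd hp).2 hd)
  have hpn : p ^ s ∣ n' := hcr.dvd_of_dvd_mul_left (hck.dvd_of_dvd_mul_right hdvd)
  rw [card_free hfree, mul_comm (p ^ s)]
  exact Nat.mul_dvd_mul_left _ hpn

end Pool.Agent.Lib.P0c8ca5.Kp
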