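import Mathlib
import Pool.Agent.Lib.P0c8ca5Kp.Defs
import Pool.Agent.Lib.P0c8ca5Kp.MKey

/-!
# P0c8ca5Kp.MFoc: tuples with `[a, b] c_1 ... c_M = u d`

`G` finite, `O_p(G) = 1`, `u` a p-element and `d` p-regular commuting; if only the powers `u ^ j`
with `p ^ s ∣ j` are in the commutator subgroup of the centralizer of `w = u d`, then `KM (p ^ s) p M w`.
-/

namespace Pool.Agent.Lib.P0c8ca5.Kp

open MulAction Ab Fo

section
variable {G : Type*} [Group G] {M : ℕ}

/-- the extension by `1` -/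
def ex (c : Fin M → G) : ℕ → G := fun i => if h : i < M then c ⟨i, h⟩ else 1

theorem ex_lt (c : Fin M → G) {i : ℕ} (h : i < M) : ex c i = c ⟨i, h⟩ := dif_pos h

theorem ex_ge (c : Fin M → G) {i : ℕ} (h : M ≤ i) : ex c i = 1 := dif_neg (not_lt.2 h)

theorem ex_fin (c : Fin M → G) (i : Fin M) : ex c i = c i := ex_lt c i.2

theorem pp_ofFn (f : ℕ → G) (j : ℕ) : pp j f = (List.ofFn (fun i : Fin j => f i)).prod := by
  induction j with
  | zero => simp [pp]
  | succ j ih =>
    rw [pp, ih, List.ofFn_succ', List.concat_eq_append, List.prod_append, List.prod_singleton]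
    rfl

theorem pp_ex (c : Fin M → G) : pp M (ex c) = pd c := by
  rw [pp_ofFn]
  unfold pd
  congr 2
  funext i
  exact ex_fin c i

theorem cl_ex (a b : G) (c : Fin M → G) : cl (a, b, ex c) = gn (a, b, c) := by
  refine le_antisymm (cl_le ?_ ?_ fun i => ?_) ?_
  · exact Subgroup.subset_closure (Or.inl (Or.inl rfl))
  · exact Subgroup.subset_closure (Or.inl (Or.inr rfl))
  · change ex c i ∈ gn (a, b, c)
    rcases lt_or_ge i M with hi | hi
    · rw [ex_lt c hi]
      exact Subgroup.subset_closure (Or.inr ⟨⟨i, hi⟩, rfl⟩)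
    · rw [ex_ge c hi]
      exact Subgroup.one_mem _
  · unfold gn
    rw [Subgroup.closure_le]
    rintro x ((hx | hx) | ⟨i, rfl⟩)
    · rw [hx]
      exact cl_a (a, b, ex c)
    · rw [Set.mem_singleton_iff] at hx
      rw [hx]
      exact cl_b (a, b, ex c)
    · have h1 := cl_c (a, b, ex c) i
      change ex c i ∈ _ at h1
      rw [ex_fin] at h1
      exact h1

/-- the sets for all indices -/
def exC (C : Fin M → Set G) : ℕ → Set G := fun i => {x | (∃ h : i < M, x ∈ C ⟨i, h⟩) ∨ (M ≤ i ∧ x = 1)}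

theorem ci_exC {C : Fin M → Set G} (hC : ∀ i, Bw.CInv (C i)) : CI M (exC C) where
  cj i g c hc := by
    rcases hc with ⟨h, h1⟩ | ⟨h, h1⟩
    · exact Or.inl ⟨h, (hC ⟨i, h⟩ g c).2 h1⟩
    · refine Or.inr ⟨h, ?_⟩
      rw [h1]
      group
  on i hi c hc := by
    rcases hc with ⟨h, _⟩ | ⟨_, h1⟩
    · omega
    · exact h1

theorem card_XM (p : ℕ) (w : G) (C : Fin M → Set G) :
    Nat.card (XM p w M (exC C)) =
      Nat.card {t : Tu G M // vl t = w ∧ (∀ i, t.2.2 i ∈ C i) ∧ ∀ g : G, Preg p g → g ∈ gn t} := by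
  refine Nat.card_congr
    { toFun := fun x => ⟨(x.1.1, x.1.2.1, fun i : Fin M => x.1.2.2 i), ?_⟩
      invFun := fun t => ⟨(t.1.1, t.1.2.1, ex t.1.2.2), ?_⟩
      left_inv := ?_
      right_inv := ?_ }
  · have he : ex (fun i : Fin M => x.1.2.2 i) = x.1.2.2 := by
      funext i
      rcases lt_or_ge i M with hi | hi
      · rw [ex_lt _ hi]
      · rw [ex_ge _ hi]
        rcases x.2.me i with ⟨h, _⟩ | ⟨_, h1⟩
        · omega
        · exact h1.symm
    refine ⟨?_, fun i => ?_, fun g hg => ?_⟩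
    · change cmt x.1.1 x.1.2.1 * pd (fun i : Fin M => x.1.2.2 i) = w
      rw [← pp_ex, he]
      exact x.2.cm
    · rcases x.2.me i with ⟨h, h1⟩ | ⟨h, _⟩
      · exact h1
      · exact absurd i.2 (not_lt.2 h)
    · rw [← cl_ex, he]
      exact x.2.ge g hg
  · refine ⟨?_, fun i => ?_, fun g hg => ?_⟩
    · change cmt t.1.1 t.1.2.1 * pp M (ex t.1.2.2) = w
      rw [pp_ex]
      exact t.2.1
    · rcases lt_or_ge i M with hi | hi
      · refine Or.inl ⟨hi, ?_⟩
        change ex t.1.2.2 i ∈ _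
        rw [ex_lt _ hi]
        exact t.2.2.1 ⟨i, hi⟩
      · exact Or.inr ⟨hi, ex_ge _ hi⟩
    · change g ∈ cl (t.1.1, t.1.2.1, ex t.1.2.2)
      rw [cl_ex]
      exact t.2.2.2 g hg
  · intro x
    apply Subtype.ext
    change (x.1.1, x.1.2.1, ex (fun i : Fin M => x.1.2.2 i)) = x.1
    have he : ex (fun i : Fin M => x.1.2.2 i) = x.1.2.2 := by
      funext i
      rcases lt_or_ge i M with hi | hi
      · rw [ex_lt _ hi]
      · rw [ex_ge _ hi]
        rcases x.2.me i with ⟨h, _⟩ | ⟨_, h1⟩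
        · omega
        · exact h1.symm
    rw [he]
  · intro t
    apply Subtype.ext
    change (t.1.1, t.1.2.1, fun i : Fin M => ex t.1.2.2 i) = t.1
    have he : (fun i : Fin M => ex t.1.2.2 i) = t.1.2.2 := by
      funext i
      exact ex_fin _ i
    rw [he]

end

theorem KM_of {p s : ℕ} [Fact p.Prime] {G : Type*} [Group G] [Finite G]
    (hO : NoP p (⊤ : Subgroup G)) {u d : G} (hud : Commute u d)
    (hu : Pel p u) (hd : Preg p d)
    (hn : ∀ j : ℕ, u ^ j ∈
      ⁅Subgroup.centralizer ({u * d} : Set G), Subgroup.centralizer ({u * d} : Set G)⁆ →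
      p ^ s ∣ j) (M : ℕ) : KM (p ^ s) p M (u * d) := by
  classical
  intro D hD
  have hp : p.Prime := Fact.out
  set w := u * d with hw
  set C : Subgroup G := Subgroup.centralizer ({w} : Set G) with hC
  -- `u` in the centralizer
  have hmemC : ∀ x : G, x ∈ C ↔ x * w = w * x := by
    intro x
    rw [hC, Subgroup.mem_centralizer_iff]
    constructor
    · intro h
      exact (h w rfl).symm
    · intro h y hy
      rw [Set.mem_singleton_iff] at hy
      rw [hy]
      exact h.symm
  have huw : Commute u w := (Commute.refl u).mul_right hud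
  have huC : u ∈ C := (hmemC u).2 huw.eq
  -- elements of the centralizer commute with `u` (a power of `w`)
  have hcu : ∀ x ∈ C, Commute x u := by
    intro x hx
    have h1 : Commute x w := (hmemC x).1 hx
    -- `u` is a power of `w`
    have hcop : Nat.Coprime (orderOf u) (orderOf d) := by
      obtain ⟨m, hm⟩ := hu
      exact Nat.Coprime.coprime_dvd_left (orderOf_dvd_of_pow_eq_one hm)
        (Nat.Coprime.pow_left m ((Nat.Prime.coprime_iff_not_dvd hp).2 hd))
    obtain ⟨t, ht1, ht2⟩ := Nat.chineseRemainder hcop 1 0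
    have h2 : w ^ t = u := by
      rw [hw, hud.mul_pow]
      have h3 : u ^ t = u ^ 1 := by
        rw [pow_eq_pow_iff_modEq]
        exact ht1
      have h4 : d ^ t = d ^ 0 := by
        rw [pow_eq_pow_iff_modEq]
        exact ht2
      rw [h3, h4, pow_one, pow_zero, mul_one]
    rw [← h2]
    exact h1.pow_right t
  -- a Sylow subgroup
  obtain ⟨P⟩ : Nonempty (Sylow p ↥C) := inferInstance
  have huP : (⟨u, huC⟩ : ↥C) ∈ (P : Subgroup ↥C) := by
    have hnorm : (Subgroup.zpowers (⟨u, huC⟩ : ↥C)).Normal := by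
      constructor
      intro n hn' g
      obtain ⟨i, rfl⟩ := Subgroup.mem_zpowers_iff.1 hn'
      have h1 : Commute g ((⟨u, huC⟩ : ↥C) ^ i) := by
        have h2 : Commute g (⟨u, huC⟩ : ↥C) := by
          apply Subtype.ext
          exact (hcu g g.2).eq
        exact h2.zpow_right i
      rw [h1.eq, mul_inv_cancel_right]
      exact hn'
    have hpg : IsPGroup p (Subgroup.zpowers (⟨u, huC⟩ : ↥C)) := by
      obtain ⟨m, hm⟩ := hu
      rintro ⟨x, hx⟩
      obtain ⟨i, rfl⟩ := Subgroup.mem_zpowers_iff.1 hx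
      refine ⟨m, Subtype.ext ?_⟩
      apply Subtype.ext
      change ((u ^ i) ^ p ^ m : G) = 1
      rw [← zpow_natCast, ← zpow_mul, mul_comm, zpow_mul, zpow_natCast, hm, one_zpow]
    have h1 : Subgroup.zpowers (⟨u, huC⟩ : ↥C) ≤ (P : Subgroup ↥C) := by
      have h3 := hpg.exists_le_sylow
      obtain ⟨Q, hQ⟩ := h3
      obtain ⟨g, hg⟩ := MulAction.exists_smul_eq ↥C Q P
      have h4 : Subgroup.zpowers (⟨u, huC⟩ : ↥C) ≤ ((g • Q : Sylow p ↥C) : Subgroup ↥C) := by
        intro x hx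
        have h5 : g⁻¹ * x * g⁻¹⁻¹ ∈ Subgroup.zpowers (⟨u, huC⟩ : ↥C) := hnorm.conj_mem x hx g⁻¹
        have h6 := hQ h5
        rw [inv_inv] at h6
        rw [Sylow.coe_subgroup_smul, Subgroup.mem_pointwise_smul_iff_inv_smul_mem]
        change (MulAut.conj g)⁻¹ x ∈ (Q : Subgroup ↥C)
        rw [← map_inv, MulAut.conj_apply, inv_inv]
        exact h6
      rw [hg] at h4
      exact h4
    exact h1 (Subgroup.mem_zpowers _)
  set S : Subgroup G := (P : Subgroup ↥C).map C.subtype with hS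
  have huS : u ∈ S := ⟨⟨u, huC⟩, huP, rfl⟩
  have hSC : S ≤ C := by
    rintro x ⟨y, _, rfl⟩
    exact y.2
  -- the exponent
  set k := ordCompl[p] (Nat.card G) with hk
  have hG0 : Nat.card G ≠ 0 := Nat.card_pos.ne'
  have hkp : ¬ p ∣ k := Nat.not_dvd_ordCompl hp hG0
  have hyF : HyS p k S w := by
    refine ⟨hO, P.2.map C.subtype, ?_, ?_⟩
    · intro x hx
      exact (hmemC x).1 (hSC hx)
    · intro g
      refine ⟨(Nat.card G).factorization p, ?_⟩
      rw [← pow_mul, hk, mul_comm, Nat.ordProj_mul_ordCompl_eq_self]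
      exact pow_card_eq_one'
  -- the homomorphism
  let lam : ↥S →* Abelianization ↥C := Abelianization.of.comp (Subgroup.inclusion hSC)
  have hlam : p ^ s ∣ orderOf (lam ⟨u, huS⟩) := by
    apply hn
    have h : lam ⟨u, huS⟩ ^ orderOf (lam ⟨u, huS⟩) = 1 := pow_orderOf_eq_one _
    set j := orderOf (lam ⟨u, huS⟩)
    rw [← map_pow] at h
    have h1 : (Abelianization.of ((⟨u, huC⟩ : ↥C) ^ j)) = 1 := h
    have h2 : (⟨u, huC⟩ : ↥C) ^ j ∈ commutator ↥C := by
      rw [← Abelianization.ker_of]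
      exact h1
    have h3 : (commutator ↥C).map C.subtype = ⁅C, C⁆ := by
      rw [commutator_def, Subgroup.map_commutator, ← MonoidHom.range_eq_map, Subgroup.range_subtype]
    rw [← h3]
    exact ⟨_, h2, rfl⟩
  have hmain := KFM (ci_exC hD) hyF hkp huS rfl hud hd lam hlam
  have hcS : Nat.card S = ordProj[p] (Nat.card C) := by
    rw [hS, Nat.card_congr ((P : Subgroup ↥C).equivMapOfInjective C.subtype
      C.subtype_injective).symm.toEquiv]
    exact Sylow.card_eq_multiplicity P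
  rw [hcS, card_XM] at hmain
  exact hmain

end Pool.Agent.Lib.P0c8ca5.Kp
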