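import Mathlib
import Pool.Agent.Lib.P0c8ca5Id.Kz
import Pool.Agent.Lib.P0c8ca5Kp.MFoc

/-!
# P0c8ca5Kp.GA: the order of the p-part of an element modulo the commutator subgroup of the centralizer
-/

namespace Pool.Agent.Lib.P0c8ca5.Kp

open MonoidAlgebra Bw Pool.Agent.Lib.P0c8ca5.Id

set_option linter.unusedSectionVars false

section
variable {p s : ℕ} {A : Type*} [Group A]

/-- only the powers with exponents divisible by `p ^ s` of the p-part of `w` are in the commutator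
subgroup of the centralizer of `w` -/
def Gs (p s : ℕ) (w : A) : Prop := ∀ j : ℕ, (w * (pr p w)⁻¹) ^ j ∈
  ⁅Subgroup.centralizer ({w} : Set A), Subgroup.centralizer ({w} : Set A)⁆ → p ^ s ∣ j

variable [Fact p.Prime] [Finite A]

theorem Gs_of {u d : A} (hud : Commute u d) (hu : Pel p u) (hd : Preg p d)
    (h : ∀ j : ℕ, u ^ j ∈
      ⁅Subgroup.centralizer ({u * d} : Set A), Subgroup.centralizer ({u * d} : Set A)⁆ →
      p ^ s ∣ j) : Gs p s (u * d) := by
  unfold Gs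
  rw [pr_mul_parts hud hu hd, mul_inv_cancel_right]
  exact h

theorem Gs_conj {w : A} (g : A) (h : Gs p s w) : Gs p s (g * w * g⁻¹) := by
  intro j h1
  apply h
  rw [pr_conj] at h1
  have h2 : cg g⁻¹ (Subgroup.centralizer ({g * w * g⁻¹} : Set A))
      ≤ Subgroup.centralizer ({w} : Set A) := by
    intro x hx
    rw [mem_cg, mem_cent1, inv_inv] at hx
    rw [mem_cent1]
    calc x * w = g⁻¹ * (g⁻¹⁻¹ * x * g⁻¹ * (g * w * g⁻¹)) * g := by group
      _ = g⁻¹ * (g * x * g⁻¹ * (g * w * g⁻¹)) * g := by rw [inv_inv]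
      _ = g⁻¹ * (g * w * g⁻¹ * (g * x * g⁻¹)) * g := by rw [hx]
      _ = w * x := by group
  have h3 : g⁻¹ * (g * w * g⁻¹ * (g * pr p w * g⁻¹)⁻¹) ^ j * g⁻¹⁻¹ ∈
      cg g⁻¹ ⁅Subgroup.centralizer ({g * w * g⁻¹} : Set A),
        Subgroup.centralizer ({g * w * g⁻¹} : Set A)⁆ :=
    (ChOrbAux.mem_cg' g⁻¹ _ _).2 h1
  have h4 : cg g⁻¹ ⁅Subgroup.centralizer ({g * w * g⁻¹} : Set A),
        Subgroup.centralizer ({g * w * g⁻¹} : Set A)⁆
      ≤ ⁅Subgroup.centralizer ({w} : Set A), Subgroup.centralizer ({w} : Set A)⁆ := by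
    unfold cg at h2 ⊢
    rw [Subgroup.map_commutator]
    exact Subgroup.commutator_mono h2 h2
  have e0 : g * w * g⁻¹ * (g * pr p w * g⁻¹)⁻¹ = g * (w * (pr p w)⁻¹) * g⁻¹ := by group
  have e : g⁻¹ * (g * w * g⁻¹ * (g * pr p w * g⁻¹)⁻¹) ^ j * g⁻¹⁻¹ = (w * (pr p w)⁻¹) ^ j := by
    rw [e0, conj_pow]
    group
  rw [← e]
  exact h4 h3

theorem Gs_sub {U : Subgroup A} {w : ↥U} (h : Gs p s (w : A)) : Gs p s w := by
  intro j h1
  apply h
  have h2 : (((w * (pr p w)⁻¹) ^ j : ↥U) : A) ∈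
      (⁅Subgroup.centralizer ({w} : Set ↥U), Subgroup.centralizer ({w} : Set ↥U)⁆).map
        U.subtype := Subgroup.mem_map.2 ⟨_, h1, rfl⟩
  rw [Subgroup.map_commutator] at h2
  have h3 : (Subgroup.centralizer ({w} : Set ↥U)).map U.subtype
      ≤ Subgroup.centralizer ({(w : A)} : Set A) := by
    rintro _ ⟨x, hx, rfl⟩
    rw [mem_cent1]
    have h4 := mem_cent1.1 hx
    exact congrArg Subtype.val h4
  have h5 := Subgroup.commutator_mono h3 h3 h2
  have e : (((w * (pr p w)⁻¹) ^ j : ↥U) : A) = ((w : A) * (pr p (w : A))⁻¹) ^ j := by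
    rw [QuoAux.pr_coe' w]
    rfl
  rwa [e] at h5

theorem KM_of_Gs (hO : NoP p (⊤ : Subgroup A)) {w : A} (h : Gs p s w) (M : ℕ) :
    KM (p ^ s) p M w := by
  have h1 : Commute (w * (pr p w)⁻¹) (pr p w) := by
    have h2 : Commute w (pr p w) := by
      unfold pr
      exact (Commute.refl w).pow_right _
    exact h2.mul_left (Commute.refl (pr p w)).inv_left
  have h3 : w * (pr p w)⁻¹ * pr p w = w := by group
  have h4 : Pel p (w * (pr p w)⁻¹) := by
    rw [pel_iff_pr]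
    have h5 : pr p w = pr p (w * (pr p w)⁻¹) * pr p (pr p w) := by
      rw [← pr_mul h1, h3]
    rw [pr_pr] at h5
    exact (mul_eq_right.1 h5.symm)
  have h6 := KM_of (p := p) (s := s) hO h1 h4 (preg_pr w) (by rw [h3]; exact h) M
  rw [h3] at h6
  exact h6

/-- transfer -/
theorem pow_mem_comm {D : Subgroup A} (hDp : IsPGroup p D) {u d : A} (hu : u ∈ D)
    (huc : ∀ x ∈ D, u * x = x * u) (hd : Preg p d) (hud : Commute u d)
    (hDd : D ≤ Subgroup.centralizer ({d} : Set A))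
    (hmax : ∀ P : Subgroup A, IsPGroup p P → P ≤ Subgroup.centralizer ({d} : Set A) →
      D ≤ P → P = D) {j : ℕ}
    (hmem : u ^ j ∈
      ⁅Subgroup.centralizer ({u * d} : Set A), Subgroup.centralizer ({u * d} : Set A)⁆) :
    u ^ j ∈ ⁅D, D⁆ := by
  classical
  let _ : Fintype A := Fintype.ofFinite A
  set C : Subgroup A := Subgroup.centralizer ({u * d} : Set A) with hC
  have hpel : Pel p u := by
    obtain ⟨n, hn⟩ := hDp ⟨u, hu⟩
    exact ⟨n, congrArg Subtype.val hn⟩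
  have hp : p.Prime := Fact.out
  -- `u` and `d` are powers of `u * d`
  have hcop : Nat.Coprime (orderOf u) (orderOf d) := by
    obtain ⟨m, hm⟩ := hpel
    exact Nat.Coprime.coprime_dvd_left (orderOf_dvd_of_pow_eq_one hm)
      (Nat.Coprime.pow_left m ((Nat.Prime.coprime_iff_not_dvd hp).2 hd))
  have hcu : ∀ x ∈ C, Commute x u := by
    intro x hx
    have h1 : Commute x (u * d) := GdAux.mem_cent.1 hx
    obtain ⟨t, ht1, ht2⟩ := Nat.chineseRemainder hcop 1 0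
    have h2 : (u * d) ^ t = u := by
      rw [hud.mul_pow, pow_eq_pow_iff_modEq.2 ht1, pow_eq_pow_iff_modEq.2 ht2, pow_one, pow_zero,
        mul_one]
    rw [← h2]
    exact h1.pow_right t
  have hcd : ∀ x ∈ C, Commute x d := by
    intro x hx
    have h1 : Commute x (u * d) := GdAux.mem_cent.1 hx
    obtain ⟨t, ht1, ht2⟩ := Nat.chineseRemainder hcop 0 1
    have h2 : (u * d) ^ t = d := by
      rw [hud.mul_pow, pow_eq_pow_iff_modEq.2 ht1, pow_eq_pow_iff_modEq.2 ht2, pow_one, pow_zero,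
        one_mul]
    rw [← h2]
    exact h1.pow_right t
  have hDC : D ≤ C := by
    intro x hx
    refine GdAux.mem_cent.2 ?_
    exact (show Commute x u from (huc x hx).symm).mul_right (GdAux.mem_cent.1 (hDd hx))
  have hCd : C ≤ Subgroup.centralizer ({d} : Set A) := fun x hx => GdAux.mem_cent.2 (hcd x hx)
  have hsyl : IsSyl p C D := GdAux.isSyl_of_max hDC hDp
    (fun P hP hPC hDP => hmax P hP (hPC.trans hCd) hDP)
  have huC : u ^ j ∈ C := C.pow_mem (hDC hu) j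
  -- the transfer
  let D' : Subgroup ↥C := D.subgroupOf C
  let ϕ : ↥D' →* Abelianization ↥D' := Abelianization.of
  have hcen : ∀ g : ↥C, Commute g (⟨u ^ j, huC⟩ : ↥C) := fun g =>
    Subtype.ext ((hcu g g.2).pow_right j).eq
  have hkey : ∀ (i : ℕ) (g₀ : ↥C), g₀⁻¹ * (⟨u ^ j, huC⟩ : ↥C) ^ i * g₀ ∈ D' →
      g₀⁻¹ * (⟨u ^ j, huC⟩ : ↥C) ^ i * g₀ = (⟨u ^ j, huC⟩ : ↥C) ^ i := by
    intro i g₀ _
    have h1 : Commute g₀ ((⟨u ^ j, huC⟩ : ↥C) ^ i) := (hcen g₀).pow_right i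
    rw [mul_assoc, ← h1.eq, inv_mul_cancel_left]
  have htr := MonoidHom.transfer_eq_pow ϕ (⟨u ^ j, huC⟩ : ↥C) hkey
  have h1 : (⟨u ^ j, huC⟩ : ↥C) ∈ commutator ↥C := by
    have h3 : (commutator ↥C).map C.subtype = ⁅C, C⁆ := by
      rw [commutator_def, Subgroup.map_commutator, ← MonoidHom.range_eq_map, Subgroup.range_subtype]
    rw [← h3] at hmem
    obtain ⟨x, hx, hxu⟩ := hmem
    have : x = ⟨u ^ j, huC⟩ := Subtype.ext hxu
    rwa [← this]
  have h2 : MonoidHom.transfer ϕ (⟨u ^ j, huC⟩ : ↥C) = 1 :=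
    Abelianization.commutator_subset_ker (MonoidHom.transfer ϕ) h1
  rw [h2] at htr
  have h4 := (QuotientGroup.eq_one_iff _).1 htr.symm
  have h5 : (u ^ j) ^ D'.index ∈ ⁅D, D⁆ := by
    have h6 : ((commutator ↥D').map D'.subtype).map C.subtype = ⁅D, D⁆ := by
      have h7 : D'.map C.subtype = D := by
        rw [Subgroup.map_subgroupOf_eq_of_le hDC]
      rw [commutator_def, Subgroup.map_commutator, ← MonoidHom.range_eq_map, Subgroup.range_subtype,
        Subgroup.map_commutator, h7]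
    rw [← h6]
    exact ⟨_, ⟨_, h4, rfl⟩, rfl⟩
  have h8 : Nat.Coprime D'.index (orderOf (u ^ j)) := by
    obtain ⟨m, hm⟩ := hpel
    have hm' : (u ^ j) ^ p ^ m = 1 := by rw [← pow_mul, mul_comm, pow_mul, hm, one_pow]
    refine Nat.Coprime.coprime_dvd_right (orderOf_dvd_of_pow_eq_one hm') (Nat.Coprime.pow_right m ?_)
    rw [Nat.coprime_comm]
    exact (Nat.Prime.coprime_iff_not_dvd hp).2 hsyl.ndvd
  obtain ⟨m, hm⟩ := exists_pow_eq_self_of_coprime h8
  rw [← hm]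
  exact Subgroup.pow_mem _ h5 m

/-- the exponents -/
theorem dvd_of_pow_mem {D : Subgroup A} (hDp : IsPGroup p D) {u : A} (hu : u ∈ D)
    (hu' : u ^ p ^ s ∉ ⁅D, D⁆) {j : ℕ} (hj : u ^ j ∈ ⁅D, D⁆) : p ^ (s + 1) ∣ j := by
  have hp : p.Prime := Fact.out
  have key : ∀ n : ℕ, (Abelianization.of (⟨u, hu⟩ : ↥D)) ^ n = 1 ↔ u ^ n ∈ ⁅D, D⁆ := by
    intro n
    have h3 : (commutator ↥D).map D.subtype = ⁅D, D⁆ := by
      rw [commutator_def, Subgroup.map_commutator, ← MonoidHom.range_eq_map, Subgroup.range_subtype]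
    rw [← map_pow, ← MonoidHom.mem_ker, Abelianization.ker_of, ← h3]
    constructor
    · intro h
      exact ⟨_, h, rfl⟩
    · rintro ⟨x, hx, hxu⟩
      have : x = ⟨u, hu⟩ ^ n := Subtype.ext hxu
      rwa [← this]
  set x := Abelianization.of (⟨u, hu⟩ : ↥D) with hx
  obtain ⟨m, hm⟩ := hDp ⟨u, hu⟩
  have h1 : x ^ p ^ m = 1 := by rw [hx, ← map_pow, hm, map_one]
  obtain ⟨i, -, hi⟩ := (Nat.dvd_prime_pow hp).1 (orderOf_dvd_of_pow_eq_one h1)
  have h2 : s < i := by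
    by_contra h
    push Not at h
    apply hu'
    rw [← key, ← orderOf_dvd_iff_pow_eq_one, hi]
    exact pow_dvd_pow p h
  have h3 : p ^ i ∣ j := by
    rw [← hi]
    exact orderOf_dvd_of_pow_eq_one ((key j).2 hj)
  exact (pow_dvd_pow p h2).trans h3

end

end Pool.Agent.Lib.P0c8ca5.Kp
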