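import Mathlib
import Pool.Agent.Lib.P0c8ca5V.DA
import Pool.Agent.Lib.P0c8ca5Kp.Defs

/-! Part (B), step 1: the sum over the tuples in `T` generating a subgroup containing `O^p(T)`. -/

namespace Pool.Agent.Lib.P0c8ca5.Kp

open Bw DAAux

section
variable {A : Type*} [Group A] {M : ℕ}

theorem gn_le {t : Tu A M} {U : Subgroup A} :
    gn t ≤ U ↔ t.1 ∈ U ∧ t.2.1 ∈ U ∧ ∀ i, t.2.2 i ∈ U := by
  unfold gn
  rw [Subgroup.closure_le]
  constructor
  · intro h
    exact ⟨h (by simp), h (by simp), fun i => h (by simp)⟩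
  · rintro ⟨h1, h2, h3⟩ x hx
    rcases hx with (rfl | rfl) | ⟨i, rfl⟩
    exacts [h1, h2, h3 i]

theorem gn_cU_le (g : A) (t : Tu A M) : gn (cU g t) ≤ cg g (gn t) := by
  have h := gn_le.1 (le_refl (gn t))
  rw [gn_le]
  refine ⟨?_, ?_, fun i => ?_⟩
  · exact (ChOrbAux.mem_cg' g t.1 (gn t)).2 h.1
  · exact (ChOrbAux.mem_cg' g t.2.1 (gn t)).2 h.2.1
  · exact (ChOrbAux.mem_cg' g (t.2.2 i) (gn t)).2 (h.2.2 i)

theorem cU_inv_cU (g : A) (t : Tu A M) : cU g⁻¹ (cU g t) = t := by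
  obtain ⟨a, b, c⟩ := t
  change ((g⁻¹ * (g * a * g⁻¹) * g⁻¹⁻¹, g⁻¹ * (g * b * g⁻¹) * g⁻¹⁻¹,
    fun i => g⁻¹ * (g * c i * g⁻¹) * g⁻¹⁻¹) : Tu A M) = (a, b, c)
  simp only [Prod.mk.injEq]
  exact ⟨by group, by group, by funext i; group⟩

theorem gn_cU (g : A) (t : Tu A M) : gn (cU g t) = cg g (gn t) := by
  apply le_antisymm (gn_cU_le g t)
  rw [cg_le_iff]
  have h := gn_cU_le g⁻¹ (cU g t)
  rwa [cU_inv_cU] at h

theorem cU_one (t : Tu A M) : cU 1 t = t := by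
  obtain ⟨a, b, c⟩ := t
  change ((1 * a * 1⁻¹, 1 * b * 1⁻¹, fun i => 1 * c i * 1⁻¹) : Tu A M) = (a, b, c)
  simp only [Prod.mk.injEq]
  exact ⟨by group, by group, by funext i; group⟩

theorem cU_mul (g h : A) (t : Tu A M) : cU (g * h) t = cU g (cU h t) := by
  obtain ⟨a, b, c⟩ := t
  change ((g * h * a * (g * h)⁻¹, g * h * b * (g * h)⁻¹, fun i => g * h * c i * (g * h)⁻¹) :
    Tu A M) = (g * (h * a * h⁻¹) * g⁻¹, g * (h * b * h⁻¹) * g⁻¹, fun i => g * (h * c i * h⁻¹) * g⁻¹)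
  simp only [Prod.mk.injEq]
  exact ⟨by group, by group, by funext i; group⟩

theorem pd_conj (g : A) (c : Fin M → A) : pd (fun i => g * c i * g⁻¹) = g * pd c * g⁻¹ := by
  unfold pd
  have h : ∀ l : List A, (l.map fun x => g * x * g⁻¹).prod = g * l.prod * g⁻¹ := by
    intro l
    induction l with
    | nil => simp
    | cons x l ih =>
      rw [List.map_cons, List.prod_cons, List.prod_cons, ih]
      group
  rw [← h, List.map_ofFn]
  rfl

theorem vl_cU (g : A) (t : Tu A M) : vl (cU g t) = g * vl t * g⁻¹ := by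
  have h : vl (cU g t) = cmt (g * t.1 * g⁻¹) (g * t.2.1 * g⁻¹) *
      pd (fun i => g * t.2.2 i * g⁻¹) := rfl
  rw [h, pd_conj]
  unfold vl cmt
  group

theorem dM_cU {S : Set A} (hS : CInv S) {C : Fin M → Set A} (hC : ∀ i, CInv (C i)) (g : A)
    (t : Tu A M) : dM S C (cU g t) = dM S C t := by
  classical
  unfold dM
  rw [vl_cU]
  have h1 : (g * vl t * g⁻¹ ∈ S ∧ ∀ i, (cU g t).2.2 i ∈ C i) ↔ (vl t ∈ S ∧ ∀ i, t.2.2 i ∈ C i) :=
    and_congr (hS g _) (forall_congr' fun i => hC i g (t.2.2 i))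
  exact if_congr h1 rfl rfl

variable {p : ℕ}

theorem bM_cg {S : Set A} (hS : CInv S) {C : Fin M → Set A} (hC : ∀ i, CInv (C i)) (g : A)
    (U : Subgroup A) : bM p S C (cg g U) = bM p S C U := by
  unfold bM
  rw [← finsum_comp_equiv (cU g)]
  apply finsum_congr
  intro t
  rw [gn_cU, Opr_cg, cg_le_cg_iff, cg_le_cg_iff, dM_cU hS hC]

open Classical in
/-- Suppose that `q |U|_p` divides `bM p S C U` for all `U ≤ T` with `O^p(U) = O^p(T)` and
`O_p(U) = 1`. Then `q |T|_p` divides the sum of `dM * fK` over the tuples in `T` generating a group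
containing `O^p(T)`. -/
theorem sum_T [Fact p.Prime] [Finite A] {q : ℤ} {S : Set A} (hS : CInv S) {C : Fin M → Set A}
    (hC : ∀ i, CInv (C i)) {T : Subgroup A}
    (h : ∀ U : Subgroup A, U ≤ T → Opr p U = Opr p T → NoP p U →
      q * (ordProj[p] (Nat.card U) : ℕ) ∣ bM p S C U) :
    q * (ordProj[p] (Nat.card T) : ℕ) ∣
      ∑ᶠ t : Tu A M, (if gn t ≤ T ∧ Opr p T ≤ gn t then dM S C t * fK p (gn t) else 0) := by
  haveI : Fintype A := Fintype.ofFinite A
  haveI : Fintype (Subgroup A) := Fintype.ofFinite _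
  -- the sum over the chains
  have key : ∑ᶠ t : Tu A M,
      (if gn t ≤ T ∧ Opr p T ≤ gn t then dM S C t * fK p (gn t) else 0) =
      ∑ σ : Finset (Subgroup A), (if IsCh p σ ∧ Opr p T ≤ sN σ then
        (-1) ^ σ.card * bM p S C (T ⊓ sN σ) else 0) := by
    rw [finsum_eq_sum_of_fintype]
    have e1 : ∀ t : Tu A M,
        (if gn t ≤ T ∧ Opr p T ≤ gn t then dM S C t * fK p (gn t) else 0) =
        ∑ σ : Finset (Subgroup A), (if gn t ≤ T ∧ Opr p T ≤ gn t then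
          dM S C t * (if IsCh p σ then (-1) ^ σ.card * (if gn t ≤ sN σ then 1 else 0) else 0)
          else 0) := by
      intro t
      split_ifs with ht
      · rw [← Finset.mul_sum, fK, chS, finsum_eq_sum_of_fintype]
      · rw [Finset.sum_const_zero]
    rw [Finset.sum_congr rfl (fun t _ => e1 t), Finset.sum_comm]
    apply Finset.sum_congr rfl
    intro σ _
    split_ifs with hσ1 hσ2 hσ2
    · obtain ⟨_, hσ2⟩ := hσ2
      have hU : Opr p T ≤ T ⊓ sN σ := le_inf (Opr_le T) hσ2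
      have hO : Opr p (T ⊓ sN σ) = Opr p T := Opr_eq_of_le hU inf_le_left
      rw [bM, finsum_eq_sum_of_fintype, Finset.mul_sum]
      apply Finset.sum_congr rfl
      intro t _
      rw [hO, le_inf_iff]
      by_cases c1 : gn t ≤ T <;> by_cases c2 : Opr p T ≤ gn t <;> by_cases c3 : gn t ≤ sN σ <;>
        simp [c1, c2, c3, mul_comm]
    · apply Finset.sum_eq_zero
      intro t _
      split_ifs with c1 c2
      · exact absurd ⟨hσ1, c1.2.trans c2⟩ hσ2
      · simp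
      · rfl
    · exact absurd hσ2.1 hσ1
    · simp
  rw [key]
  -- the chains with a normal p-subgroup cancel
  have hz : ∀ U : Subgroup A, (Opr p T ≤ U ∧ ¬ NoP p U) → U ≤ T →
      ∑ᶠ x : {x : {σ : Finset (Subgroup A) // IsCh p σ ∧ Opr p T ≤ sN σ} // T ⊓ sN x.1 = U},
        ((-1 : ℤ)) ^ x.1.1.card = 0 := by
    intro U hU hUT
    refine exact_zero (X := {σ : Finset (Subgroup A) // IsCh p σ ∧ Opr p T ≤ sN σ}) T
      (fun x => T ⊓ sN x.1) (fun x => inf_le_left) (fun x => (-1) ^ x.1.card)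
      (fun U => Opr p T ≤ U ∧ ¬ NoP p U) ?_ ?_ U hU hUT
    · rintro U U' ⟨h1, h2⟩ h3 h4
      refine ⟨h1.trans h3, fun h5 => h2 ?_⟩
      refine NoP_up h3 ?_ h5
      rw [Opr_eq_of_le h1 (h3.trans h4), Opr_eq_of_le (h1.trans h3) h4]
    · rintro U ⟨h1, h2⟩ h3
      have h4 : fK p U = 0 := by
        unfold NoP at h2
        push Not at h2
        obtain ⟨R, hR1, hR2, hR3, hR4⟩ := h2
        exact fK_zero hR1 hR2 hR3 hR4
      rw [← h4, fK, chS]
      rw [finsum_sub (fun x : {σ : Finset (Subgroup A) // IsCh p σ ∧ Opr p T ≤ sN σ} =>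
        U ≤ T ⊓ sN x.1) (fun x => (-1) ^ x.1.card)]
      rw [finsum_sub (fun σ : Finset (Subgroup A) => IsCh p σ ∧ Opr p T ≤ sN σ)
        (fun σ => if U ≤ T ⊓ sN σ then (-1) ^ σ.card else 0)]
      apply finsum_congr
      intro σ
      by_cases c1 : IsCh p σ <;> by_cases c2 : U ≤ sN σ
      · have c3 : Opr p T ≤ sN σ := h1.trans c2
        have c4 : U ≤ T ⊓ sN σ := le_inf h3 c2
        simp [c1, c2, c3, c4]
      · have c4 : ¬ U ≤ T ⊓ sN σ := fun c => c2 (c.trans inf_le_right)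
        simp [c1, c2, c4]
      · simp [c1]
      · simp [c1]
  have hz' : ∑ σ : Finset (Subgroup A), (if (IsCh p σ ∧ Opr p T ≤ sN σ) ∧ ¬ NoP p (T ⊓ sN σ) then
        (-1) ^ σ.card * bM p S C (T ⊓ sN σ) else 0) = 0 := by
    have e2 : ∑ σ : Finset (Subgroup A), (if (IsCh p σ ∧ Opr p T ≤ sN σ) ∧ ¬ NoP p (T ⊓ sN σ) then
        (-1) ^ σ.card * bM p S C (T ⊓ sN σ) else 0) =
        ∑ x : {σ : Finset (Subgroup A) // IsCh p σ ∧ Opr p T ≤ sN σ},
          (if ¬ NoP p (T ⊓ sN x.1) then (-1) ^ x.1.card * bM p S C (T ⊓ sN x.1) else 0) := by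
      rw [← finsum_eq_sum_of_fintype, ← finsum_eq_sum_of_fintype,
        finsum_sub (fun σ : Finset (Subgroup A) => IsCh p σ ∧ Opr p T ≤ sN σ)
        (fun σ => if ¬ NoP p (T ⊓ sN σ) then (-1) ^ σ.card * bM p S C (T ⊓ sN σ) else 0)]
      apply finsum_congr
      intro σ
      by_cases c1 : IsCh p σ ∧ Opr p T ≤ sN σ
      · by_cases c2 : NoP p (T ⊓ sN σ)
        · rw [if_neg (fun h => h.2 c2), if_pos c1, if_neg (fun h => h c2)]
        · rw [if_pos ⟨c1, c2⟩, if_pos c1, if_pos c2]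
      · rw [if_neg (fun h => c1 h.1), if_neg c1]
    rw [e2, ← Finset.sum_fiberwise (s := Finset.univ)
      (g := fun x : {σ : Finset (Subgroup A) // IsCh p σ ∧ Opr p T ≤ sN σ} => T ⊓ sN x.1)]
    apply Finset.sum_eq_zero
    intro U _
    by_cases hU : (Opr p T ≤ U ∧ ¬ NoP p U) ∧ U ≤ T
    · have h1 := hz U hU.1 hU.2
      rw [finsum_sub (fun x : {σ : Finset (Subgroup A) // IsCh p σ ∧ Opr p T ≤ sN σ} =>
        T ⊓ sN x.1 = U) (fun x => (-1) ^ x.1.card), finsum_eq_sum_of_fintype,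
        ← Finset.sum_filter] at h1
      calc _ = ∑ x ∈ Finset.univ.filter (fun x : {σ : Finset (Subgroup A) //
            IsCh p σ ∧ Opr p T ≤ sN σ} => T ⊓ sN x.1 = U), (-1) ^ x.1.card * bM p S C U := by
            apply Finset.sum_congr rfl
            intro x hx
            rw [Finset.mem_filter] at hx
            rw [hx.2, if_pos hU.1.2]
        _ = 0 := by rw [← Finset.sum_mul, h1, zero_mul]
    · apply Finset.sum_eq_zero
      intro x hx
      rw [Finset.mem_filter] at hx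
      rw [if_neg]
      intro hn
      apply hU
      rw [← hx.2]
      exact ⟨⟨le_inf (Opr_le T) x.2.2, hn⟩, inf_le_left⟩
  have hs : ∑ σ : Finset (Subgroup A), (if IsCh p σ ∧ Opr p T ≤ sN σ then
        (-1) ^ σ.card * bM p S C (T ⊓ sN σ) else 0) =
      ∑ σ : Finset (Subgroup A), (if (IsCh p σ ∧ Opr p T ≤ sN σ) ∧ NoP p (T ⊓ sN σ) then
        (-1) ^ σ.card * bM p S C (T ⊓ sN σ) else 0) := by
    have e3 : ∑ σ : Finset (Subgroup A), (if IsCh p σ ∧ Opr p T ≤ sN σ then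
        (-1) ^ σ.card * bM p S C (T ⊓ sN σ) else 0) =
      ∑ σ : Finset (Subgroup A), (if (IsCh p σ ∧ Opr p T ≤ sN σ) ∧ NoP p (T ⊓ sN σ) then
        (-1) ^ σ.card * bM p S C (T ⊓ sN σ) else 0) +
      ∑ σ : Finset (Subgroup A), (if (IsCh p σ ∧ Opr p T ≤ sN σ) ∧ ¬ NoP p (T ⊓ sN σ) then
        (-1) ^ σ.card * bM p S C (T ⊓ sN σ) else 0) := by
      rw [← Finset.sum_add_distrib]
      apply Finset.sum_congr rfl
      intro σ _
      by_cases c1 : IsCh p σ ∧ Opr p T ≤ sN σ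
      · by_cases c2 : NoP p (T ⊓ sN σ)
        · rw [if_pos c1, if_pos ⟨c1, c2⟩, if_neg (fun h => h.2 c2), add_zero]
        · rw [if_pos c1, if_neg (fun h => c2 h.2), if_pos ⟨c1, c2⟩, zero_add]
      · rw [if_neg c1, if_neg (fun h => c1 h.1), if_neg (fun h => c1 h.1), add_zero]
    rw [e3, hz', add_zero]
  rw [hs]
  -- orbits
  refine @orb_dvd_p p _ T (Finset (Subgroup A)) _ _ (actT T) _ _ ?_ q ?_
  · intro t σ
    change (if (IsCh p (cgF (t : A) σ) ∧ Opr p T ≤ sN (cgF (t : A) σ)) ∧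
      NoP p (T ⊓ sN (cgF (t : A) σ)) then (-1) ^ (cgF (t : A) σ).card *
        bM p S C (T ⊓ sN (cgF (t : A) σ)) else 0) = _
    have hT : cg (t : A) T = T := cg_mem_self t.2
    have hO : cg (t : A) (Opr p T) = Opr p T := by rw [← Opr_cg, hT]
    have e1 : T ⊓ sN (cgF (t : A) σ) = cg (t : A) (T ⊓ sN σ) := by rw [sN_cgF, cg_inf, hT]
    have e2 : Opr p T ≤ sN (cgF (t : A) σ) ↔ Opr p T ≤ sN σ := by
      rw [sN_cgF]
      conv_lhs => rw [← hO]
      exact cg_le_cg_iff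
    rw [e1, e2, isCh_cgF, noP_cg, card_cgF, bM_cg hS hC]
  · intro σ
    split_ifs with hσ
    · obtain ⟨⟨c1, c2⟩, c3⟩ := hσ
      rw [card_stab c1]
      apply Dvd.dvd.mul_left
      exact h _ inf_le_left (Opr_eq_of_le (le_inf (Opr_le T) c2) inf_le_left) c3
    · exact dvd_zero _

end

end Pool.Agent.Lib.P0c8ca5.Kp
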