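import Mathlib
import Pool.Agent.Lib.P0c8ca5V.DB
import Pool.Agent.Lib.P0c8ca5Kp.BA

/-! Part (B), step 2: the sum over the tuples with `O^p(<a, b, c>) = H`. -/

namespace Pool.Agent.Lib.P0c8ca5.Kp

open Bw DAAux DBAux

section
variable {A : Type*} [Group A] {M : ℕ} {p : ℕ}

/-- the intersection of the groups `upS H (P i)` -/
def inS {N : ℕ} (H : Subgroup A) (P : Fin N → Sylow p (NQ H)) : Subgroup A := ⨅ i, upS H (P i)

theorem cg_iInf {ι : Type*} (g : A) (K : ι → Subgroup A) : cg g (⨅ i, K i) = ⨅ i, cg g (K i) := by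
  ext x
  rw [mem_cg, Subgroup.mem_iInf, Subgroup.mem_iInf]
  exact forall_congr' fun i => mem_cg.symm

/-- the action of `N(H)` on the families of Sylow p-subgroups of `N(H)/H` -/
noncomputable def actX (p N : ℕ) (H : Subgroup A) :
    MulAction ↥(Subgroup.normalizer (H : Set A)) (Fin N → Sylow p (NQ H)) where
  smul g P := fun i => (QuotientGroup.mk g : NQ H) • P i
  one_smul P := by
    funext i
    change (QuotientGroup.mk (1 : ↥(Subgroup.normalizer (H : Set A))) : NQ H) • P i = P i
    rw [QuotientGroup.mk_one, one_smul]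
  mul_smul g h P := by
    funext i
    change (QuotientGroup.mk (g * h) : NQ H) • P i = (QuotientGroup.mk g : NQ H) •
      ((QuotientGroup.mk h : NQ H) • P i)
    rw [QuotientGroup.mk_mul, mul_smul]

theorem inS_smul {N : ℕ} {H : Subgroup A} (g : ↥(Subgroup.normalizer (H : Set A)))
    (P : Fin N → Sylow p (NQ H)) :
    inS H (fun i => (QuotientGroup.mk g : NQ H) • P i) = cg (g : A) (inS H P) := by
  unfold inS
  rw [cg_iInf]
  exact iInf_congr fun i => upS_smul g (P i)

theorem card_stabX [Fact p.Prime] [Finite A] {N : ℕ} (H : Subgroup A)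
    (P : Fin N → Sylow p (NQ H)) :
    ordProj[p] (Nat.card (@MulAction.stabilizer ↥(Subgroup.normalizer (H : Set A))
      (Fin N → Sylow p (NQ H)) _ (actX p N H) P)) ∣ ordProj[p] (Nat.card (inS H P)) := by
  letI := actX (A := A) p N H
  have hp : p.Prime := Fact.out
  set St := MulAction.stabilizer ↥(Subgroup.normalizer (H : Set A)) P with hSt
  obtain ⟨R⟩ : Nonempty (Sylow p ↥St) := inferInstance
  have hR : Nat.card (R : Subgroup ↥St) = ordProj[p] (Nat.card ↥St) := R.card_eq_multiplicity
  set R1 : Subgroup ↥(Subgroup.normalizer (H : Set A)) := (R : Subgroup ↥St).map St.subtype with hR1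
  set R2 : Subgroup A := R1.map (Subgroup.subtype _) with hR2
  have hc1 : Nat.card R1 = Nat.card (R : Subgroup ↥St) :=
    Subgroup.card_map_of_injective (Subgroup.subtype_injective _)
  have hc2 : Nat.card R2 = Nat.card R1 :=
    Subgroup.card_map_of_injective (Subgroup.subtype_injective _)
  have hpR : IsPGroup p (R : Subgroup ↥St) := R.isPGroup'
  have hpR1 : IsPGroup p R1 := hpR.map _
  have hle : R2 ≤ inS H P := by
    unfold inS
    refine le_iInf fun i => ?_
    set K : Subgroup (NQ H) := R1.map (QuotientGroup.mk' _) with hK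
    have hpK : IsPGroup p K := hpR1.map _
    have hfix : P i ∈ MulAction.fixedPoints K (Sylow p (NQ H)) := by
      rintro ⟨_, g, hg, rfl⟩
      obtain ⟨g', hg', rfl⟩ := hg
      have h1 : (fun i => (QuotientGroup.mk (g' : ↥(Subgroup.normalizer (H : Set A))) : NQ H) • P i)
          = P := g'.2
      exact congrFun h1 i
    have hKP : K ≤ P i := (hpK.sylow_mem_fixedPoints_iff).1 hfix
    rintro _ ⟨g, hg, rfl⟩
    exact SylCAux.mem_upS.2 ⟨g, hKP ⟨g, hg, rfl⟩, rfl⟩
  have h1 : Nat.card R2 ∣ Nat.card (inS H P) := Subgroup.card_dvd_of_le hle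
  rw [hc2, hc1, hR] at h1
  have h2 := Nat.ordProj_dvd_ordProj_of_dvd Nat.card_pos.ne' h1 p
  refine dvd_trans (dvd_of_eq ?_) h2
  rw [Nat.Prime.factorization_pow hp]
  simp

/-- the number of the families with `K ≤ inS H P` -/
theorem card_inS [Fact p.Prime] [Finite A] (N : ℕ) (H K : Subgroup A) :
    Nat.card {P : Fin N → Sylow p (NQ H) // K ≤ inS H P} = nP p H K ^ N := by
  have h1 : ∀ P : Fin N → Sylow p (NQ H), K ≤ inS H P ↔ ∀ i, K ≤ upS H (P i) := by
    intro P
    unfold inS
    exact le_iInf_iff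
  rw [Nat.card_congr (Equiv.subtypeEquivRight h1),
    Nat.card_congr (Equiv.subtypePiEquivPi (p := fun {_ : Fin N} (P : Sylow p (NQ H)) => K ≤ upS H P)),
    Nat.card_pi, Finset.prod_const, Finset.card_univ, Fintype.card_fin]
  rfl

open Classical in
theorem sum_H [Fact p.Prime] [Finite A] {s : ℕ} {S : Set A} (hS : CInv S) {C : Fin M → Set A}
    (hC : ∀ i, CInv (C i)) {H : Subgroup A}
    (h : ∀ U : Subgroup A, Opr p U = H → NoP p U →
      ((p ^ s : ℕ) : ℤ) * (ordProj[p] (Nat.card U) : ℕ) ∣ bM p S C U) :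
    ((p ^ s : ℕ) : ℤ) * (ordProj[p] (Nat.card ↥(Subgroup.normalizer (H : Set A))) : ℕ) ∣
      ∑ᶠ t : Tu A M, (if Opr p (gn t) = H then dM S C t * fK p (gn t) else 0) := by
  haveI : Fintype A := Fintype.ofFinite A
  haveI : Fintype (Sylow p (NQ H)) := Fintype.ofFinite _
  have hp : p.Prime := Fact.out
  by_cases hH : Opr p H = H
  swap
  · have h0 : ∀ t : Tu A M,
        (if Opr p (gn t) = H then dM S C t * fK p (gn t) else 0) = 0 := by
      intro t
      rw [if_neg]
      intro e
      apply hH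
      have h1 : Opr p (Opr p (gn t)) = Opr p (gn t) := Opr_eq_of_le le_rfl (Opr_le _)
      rwa [e] at h1
    rw [finsum_congr h0, finsum_zero]
    exact dvd_zero _
  rw [finsum_eq_sum_of_fintype]
  set a := (Nat.card ↥(Subgroup.normalizer (H : Set A))).factorization p with ha
  set n := s + a with hn
  set N := p ^ n with hN
  have hNpos : 0 < N := pow_pos hp.pos n
  -- the groups `inS H P`
  have hH1 : ∀ P : Fin N → Sylow p (NQ H), H ≤ inS H P := fun P => by
    unfold inS
    exact le_iInf fun i => le_upS H (P i)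
  have hH2 : ∀ P : Fin N → Sylow p (NQ H), inS H P ≤ upS H (P ⟨0, hNpos⟩) := fun P => by
    unfold inS
    exact iInf_le _ _
  have hO : ∀ P : Fin N → Sylow p (NQ H), Opr p (inS H P) = H := by
    intro P
    apply le_antisymm
    · exact Opr_le_of_pow (hH1 P) ((hH2 P).trans (upS_le H _))
        (fun x hx => upS_pow H _ (hH2 P hx))
    · conv_lhs => rw [← hH]
      exact Opr_mono (hH1 P)
  let F : (Fin N → Sylow p (NQ H)) → ℤ := fun P =>
    ∑ t : Tu A M, (if gn t ≤ inS H P ∧ H ≤ gn t then dM S C t * fK p (gn t) else 0)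
  have hF : ∀ P, ((p ^ s : ℕ) : ℤ) * (ordProj[p] (Nat.card (inS H P)) : ℕ) ∣ F P := by
    intro P
    have h1 := sum_T hS hC (T := inS H P) (q := ((p ^ s : ℕ) : ℤ))
      (fun U _ hU hU' => h U (hU.trans (hO P)) hU')
    rw [hO P, finsum_eq_sum_of_fintype] at h1
    exact h1
  have hcg : ∀ g ∈ Subgroup.normalizer (H : Set A), cg g H = H := fun g hg => cg_eq_self_iff.2 hg
  have hsum : ((p ^ s : ℕ) : ℤ) *
      (ordProj[p] (Nat.card ↥(Subgroup.normalizer (H : Set A))) : ℕ) ∣
      ∑ P : Fin N → Sylow p (NQ H), F P := by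
    refine @orb_dvd_p p _ (Subgroup.normalizer (H : Set A)) (Fin N → Sylow p (NQ H)) _ _
      (actX p N H) _ F ?_ _ ?_
    · intro g P
      change ∑ t : Tu A M, (if gn t ≤ inS H (fun i => (QuotientGroup.mk g : NQ H) • P i) ∧
        H ≤ gn t then dM S C t * fK p (gn t) else 0) = F P
      rw [inS_smul, ← Equiv.sum_comp (cU (g : A))]
      refine Finset.sum_congr rfl fun t _ => ?_
      rw [gn_cU, cg_le_cg_iff, dM_cU hS hC, fK_conj]
      have h1 : H ≤ cg (g : A) (gn t) ↔ H ≤ gn t :=
        ⟨fun c => cg_le_cg_iff.1 ((hcg g g.2).le.trans c),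
          fun c => (hcg g g.2).ge.trans (cg_le_cg_iff.2 c)⟩
      exact if_congr (and_congr Iff.rfl h1) rfl rfl
    · intro P
      refine dvd_trans (mul_dvd_mul_left _ ?_) (hF P)
      exact_mod_cast card_stabX H P
  have hswap : ∑ P : Fin N → Sylow p (NQ H), F P = ∑ t : Tu A M, (if Opr p (gn t) = H then
        ((nP p H (gn t) : ℤ) ^ N) * (dM S C t * fK p (gn t)) else 0) := by
    change ∑ P : Fin N → Sylow p (NQ H), ∑ t : Tu A M,
      (if gn t ≤ inS H P ∧ H ≤ gn t then dM S C t * fK p (gn t) else 0) = _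
    rw [Finset.sum_comm]
    refine Finset.sum_congr rfl fun t _ => ?_
    split_ifs with ht
    · have h3 : H ≤ gn t := by rw [← ht]; exact Opr_le _
      simp only [h3, and_true]
      rw [← Finset.sum_filter, Finset.sum_const, nsmul_eq_mul]
      congr 1
      have h4 := card_inS (p := p) N H (gn t)
      rw [Nat.card_eq_fintype_card, Fintype.card_subtype] at h4
      exact_mod_cast h4
    · apply Finset.sum_eq_zero
      intro P _
      rw [if_neg]
      rintro ⟨h3, h4⟩
      apply ht
      have h5 : Opr p (gn t) = Opr p (inS H P) :=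
        Opr_eq_of_le (by rw [hO P]; exact h4) h3
      rw [h5, hO P]
  rw [hswap] at hsum
  -- the error term
  have hE : ((p ^ s : ℕ) : ℤ) * (ordProj[p] (Nat.card ↥(Subgroup.normalizer (H : Set A))) : ℕ) ∣
      ∑ t : Tu A M, (if Opr p (gn t) = H then
        ((nP p H (gn t) : ℤ) ^ N - 1) * (dM S C t * fK p (gn t)) else 0) := by
    refine Finset.dvd_sum fun t _ => ?_
    split_ifs with ht
    · have h1 : (p : ℤ) ∣ (nP p H (gn t) : ℤ) - 1 := by
        have h2 : nP p H (gn t) ≡ 1 [MOD p] := by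
          refine card_upS_over ?_ ?_ ?_
          · rw [← ht]; exact Opr_le _
          · rw [← ht]; exact Opr_normal _
          · intro x hx
            obtain ⟨n, hn⟩ := Opr_pow (p := p) hx
            rw [ht] at hn
            exact ⟨n, hn⟩
        have h3 := (Nat.modEq_iff_dvd.1 h2.symm)
        simpa using h3
      have h2 := dvd_sub_pow_of_dvd_sub (R := ℤ) (p := p) h1 n
      rw [one_pow] at h2
      refine Dvd.dvd.mul_right (dvd_trans ?_ h2) _
      rw [← ha, ← Nat.cast_mul, ← pow_add]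
      push_cast
      exact pow_dvd_pow _ (Nat.le_succ n)
    · exact dvd_zero _
  have hd := dvd_sub hsum hE
  rw [← Finset.sum_sub_distrib] at hd
  have hfin : ∀ t : Tu A M, (if Opr p (gn t) = H then dM S C t * fK p (gn t) else 0) =
      ((if Opr p (gn t) = H then ((nP p H (gn t) : ℤ) ^ N) * (dM S C t * fK p (gn t)) else 0) -
        (if Opr p (gn t) = H then
          ((nP p H (gn t) : ℤ) ^ N - 1) * (dM S C t * fK p (gn t)) else 0)) := by
    intro t
    split_ifs
    · ring
    · ring
  rw [Finset.sum_congr rfl (fun t _ => hfin t)]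
  exact hd

end

end Pool.Agent.Lib.P0c8ca5.Kp
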