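import Mathlib
import Pool.Agent.Lib.P0c8ca5Ab.Cls
import Pool.Agent.Lib.P0c8ca5Kp.BB

/-! Part (B): the chain argument modulo `q = p ^ s`. -/

namespace Pool.Agent.Lib.P0c8ca5.Kp

open Bw DAAux

namespace BCAux

section
variable {A : Type*} [Group A] {M : ℕ}

/-- the tuple in `A` of a tuple in `U` -/
def up (U : Subgroup A) (t : Tu ↥U M) : Tu A M := (t.1, t.2.1, fun i => t.2.2 i)

theorem up_injective (U : Subgroup A) : Function.Injective (up U : Tu ↥U M → Tu A M) := by
  rintro ⟨a, b, c⟩ ⟨a', b', c'⟩ h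
  simp only [up, Prod.mk.injEq, Subtype.coe_inj] at h
  obtain ⟨rfl, rfl, h3⟩ := h
  have h4 : c = c' := by
    funext i
    exact Subtype.ext (congrFun h3 i)
  rw [h4]

theorem gn_up (U : Subgroup A) (t : Tu ↥U M) : gn (up U t) = (gn t).map U.subtype := by
  unfold gn up
  rw [MonoidHom.map_closure]
  congr 1
  rw [Set.image_union, ← Set.range_comp]
  simp only [Set.image_insert_eq, Set.image_singleton]
  rfl

theorem pd_up (U : Subgroup A) (c : Fin M → ↥U) : pd (fun i => (c i : A)) = ((pd c : ↥U) : A) := by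
  unfold pd
  rw [← Subgroup.coe_subtype, map_list_prod, List.map_ofFn]
  rfl

theorem vl_up (U : Subgroup A) (t : Tu ↥U M) : vl (up U t) = ((vl t : ↥U) : A) := by
  unfold vl up
  rw [pd_up]
  simp [cmt]

theorem range_up (U : Subgroup A) : Set.range (up U : Tu ↥U M → Tu A M) = {t | gn t ≤ U} := by
  ext t
  rw [Set.mem_ofPred_eq, gn_le]
  constructor
  · rintro ⟨s, rfl⟩
    exact ⟨s.1.2, s.2.1.2, fun i => (s.2.2 i).2⟩
  · rintro ⟨h1, h2, h3⟩
    exact ⟨(⟨t.1, h1⟩, ⟨t.2.1, h2⟩, fun i => ⟨t.2.2 i, h3 i⟩), rfl⟩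

theorem cInv_dn {S : Set A} (hS : CInv S) (U : Subgroup A) : CInv {x : ↥U | (x : A) ∈ S} := by
  intro g u
  exact hS (g : A) (u : A)

theorem dM_up (S : Set A) (C : Fin M → Set A) (U : Subgroup A) (t : Tu ↥U M) :
    dM S C (up U t) = dM {x : ↥U | (x : A) ∈ S} (fun i => {x : ↥U | (x : A) ∈ C i}) t := by
  classical
  unfold dM
  rw [vl_up]
  exact if_congr Iff.rfl rfl rfl

variable {p : ℕ}

/-- transport between the subgroup `U` of `A` and the group `U` -/
theorem bM_dn (S : Set A) (C : Fin M → Set A) (U : Subgroup A) :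
    bM p {x : ↥U | (x : A) ∈ S} (fun i => {x : ↥U | (x : A) ∈ C i}) (⊤ : Subgroup ↥U)
      = bM p S C U := by
  classical
  unfold bM
  have h1 : ∀ t : Tu ↥U M, (if gn t ≤ ⊤ ∧ Opr p (⊤ : Subgroup ↥U) ≤ gn t
      then dM {x : ↥U | (x : A) ∈ S} (fun i => {x : ↥U | (x : A) ∈ C i}) t else 0) =
      (if gn (up U t) ≤ U ∧ Opr p U ≤ gn (up U t) then dM S C (up U t) else 0) := by
    intro t
    rw [dM_up, gn_up, DCAux.Opr_top U,
      Subgroup.map_le_map_iff_of_injective U.subtype_injective]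
    have h2 : (gn t).map U.subtype ≤ U := by
      rintro _ ⟨y, -, rfl⟩
      exact y.2
    simp only [le_top, h2, true_and]
  rw [finsum_congr h1, ← finsum_mem_range (f := fun t : Tu A M =>
    if gn t ≤ U ∧ Opr p U ≤ gn t then dM S C t else 0) (up_injective U), range_up,
    finsum_mem_def]
  refine finsum_congr (fun t => ?_)
  by_cases h : gn t ≤ U
  · rw [Set.indicator_of_mem (show t ∈ {t | gn t ≤ U} from h)]
  · rw [Set.indicator_of_notMem (show t ∉ {t | gn t ≤ U} from h), if_neg (fun h' => h h'.1)]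

end

theorem cls_sum {G : Type*} [Group G] [Finite G] {p : ℕ} [Fact p.Prime] (q : ℤ) {f : G → ℤ}
    (hf : ∀ g w, f (g * w * g⁻¹) = f w)
    (h : ∀ w : G, q * (ordProj[p] (Nat.card (Subgroup.centralizer ({w} : Set G))) : ℕ) ∣ f w) :
    q * (ordProj[p] (Nat.card G) : ℕ) ∣ ∑ᶠ w : G, f w := by
  classical
  have := Fintype.ofFinite G
  rw [finsum_eq_sum_of_fintype,
    ← Finset.sum_fiberwise Finset.univ (fun w : G => ConjClasses.mk w) f]
  refine Finset.dvd_sum fun K _ => ?_
  obtain ⟨g, rfl⟩ := ConjClasses.exists_rep K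
  have h1 : ∀ w ∈ Finset.univ.filter (fun w : G => ConjClasses.mk w = ConjClasses.mk g),
      f w = f g := by
    intro w hw
    rw [Finset.mem_filter, ConjClasses.mk_eq_mk_iff_isConj] at hw
    obtain ⟨c, hc⟩ := isConj_iff.1 hw.2
    rw [← hc, hf]
  rw [Finset.sum_congr rfl h1, Finset.sum_const, nsmul_eq_mul]
  have h2 := Ab.ClsAux.card_mul g
  set a := (Finset.univ.filter fun w : G => ConjClasses.mk w = ConjClasses.mk g).card with ha
  set c := Nat.card (Subgroup.centralizer ({g} : Set G)) with hc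
  have hG : Nat.card G ≠ 0 := Nat.card_pos.ne'
  have ha0 : a ≠ 0 := fun h0 => hG (by rw [← h2, h0, zero_mul])
  have hc0 : c ≠ 0 := fun h0 => hG (by rw [← h2, h0, mul_zero])
  have h3 : ordProj[p] (Nat.card G) = ordProj[p] a * ordProj[p] c := by
    rw [← h2]
    exact Nat.ordProj_mul p ha0 hc0
  have h4 : ((ordProj[p] a : ℕ) : ℤ) ∣ (a : ℤ) := by exact_mod_cast Nat.ordProj_dvd a p
  rw [h3]
  obtain ⟨u, hu⟩ := h4
  obtain ⟨v, hv⟩ := h g
  refine ⟨u * v, ?_⟩
  rw [hv]
  push_cast at hu ⊢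
  rw [hu]
  ring

section
variable {G : Type*} [Group G] {M p : ℕ}

/-- the number of the tuples with value `w` -/
noncomputable def nV (p : ℕ) (C : Fin M → Set G) (w : G) : ℕ :=
  Nat.card {t : Tu G M // vl t = w ∧ (∀ i, t.2.2 i ∈ C i) ∧ ∀ g : G, Preg p g → g ∈ gn t}

theorem opr_le_iff {t : Tu G M} :
    Opr p (⊤ : Subgroup G) ≤ gn t ↔ ∀ g : G, Preg p g → g ∈ gn t := by
  unfold Opr
  rw [Subgroup.closure_le]
  constructor
  · intro h g hg
    exact h ⟨Subgroup.mem_top g, hg⟩
  · rintro h g ⟨-, hg⟩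
    exact h g hg

theorem nV_conj [Finite G] {C : Fin M → Set G} (hC : ∀ i, CInv (C i)) (g w : G) :
    nV p C (g * w * g⁻¹) = nV p C w := by
  unfold nV
  symm
  refine Nat.card_congr ((cU g).subtypeEquiv fun t => ?_)
  rw [vl_cU, gn_cU]
  refine and_congr ?_ (and_congr (forall_congr' fun i => (hC i g (t.2.2 i)).symm) ?_)
  · constructor
    · intro h
      rw [h]
    · intro h
      exact mul_left_cancel (mul_right_cancel h)
  · constructor
    · intro h x hx
      rw [mem_cg]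
      refine h _ ?_
      have h1 := (preg_conj (p := p) g⁻¹ x).2 hx
      rwa [inv_inv] at h1
    · intro h x hx
      have h1 := h _ ((preg_conj (p := p) g x).2 hx)
      exact (ChOrbAux.mem_cg' g x (gn t)).1 h1

theorem bM_eq [Finite G] (S : Set G) (C : Fin M → Set G) :
    bM p S C (⊤ : Subgroup G)
      = ∑ᶠ w : G, @ite ℤ (w ∈ S) (Classical.propDecidable _) (nV p C w : ℤ) 0 := by
  classical
  have : Fintype G := Fintype.ofFinite G
  unfold bM
  rw [finsum_eq_sum_of_fintype, finsum_eq_sum_of_fintype]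
  have h1 : ∀ w : G, @ite ℤ (w ∈ S) (Classical.propDecidable _) (nV p C w : ℤ) 0
      = ∑ t : Tu G M, if w ∈ S ∧ vl t = w ∧ (∀ i, t.2.2 i ∈ C i) ∧
        ∀ g : G, Preg p g → g ∈ gn t then 1 else 0 := by
    intro w
    by_cases h : w ∈ S
    · rw [if_pos h]
      unfold nV
      rw [Nat.card_eq_fintype_card, Fintype.card_subtype, Finset.card_filter]
      push_cast
      refine Finset.sum_congr rfl fun t _ => ?_
      exact if_congr (by simp only [h, true_and]) rfl rfl
    · rw [if_neg h]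
      symm
      exact Finset.sum_eq_zero fun t _ => if_neg fun h1 => h h1.1
  rw [Finset.sum_congr rfl fun w _ => h1 w, Finset.sum_comm]
  refine Finset.sum_congr rfl fun t _ => ?_
  rw [Finset.sum_eq_single (vl t)
    (fun w _ hw => if_neg fun h => hw h.2.1.symm) (fun h => absurd (Finset.mem_univ _) h)]
  unfold dM
  by_cases hS : vl t ∈ S
  · by_cases ho : Opr p (⊤ : Subgroup G) ≤ gn t
    · rw [if_pos ⟨le_top, ho⟩]
      have ho' := opr_le_iff.1 ho
      exact if_congr ⟨fun h => ⟨hS, rfl, h.2, ho'⟩, fun h => ⟨hS, h.2.2.1⟩⟩ rfl rfl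
    · rw [if_neg (fun h => ho h.2), if_neg (fun h => ho (opr_le_iff.2 h.2.2.2))]
  · have e1 : (if vl t ∈ S ∧ ∀ i, t.2.2 i ∈ C i then (1 : ℤ) else 0) = 0 :=
      if_neg (fun h => hS h.1)
    have e2 : (if vl t ∈ S ∧ vl t = vl t ∧ (∀ i, t.2.2 i ∈ C i) ∧
        ∀ g : G, Preg p g → g ∈ gn t then (1 : ℤ) else 0) = 0 := if_neg (fun h => hS h.1)
    rw [e1, e2, ite_self]

theorem bM_dvd [Fact p.Prime] [Finite G] {q : ℕ} {S : Set G} (hS : CInv S) {C : Fin M → Set G}
    (hC : ∀ i, CInv (C i)) (h : ∀ w ∈ S, KM q p M w) :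
    (q : ℤ) * (ordProj[p] (Nat.card G) : ℕ) ∣ bM p S C (⊤ : Subgroup G) := by
  classical
  rw [bM_eq]
  refine cls_sum (q : ℤ) ?_ ?_
  · intro g w
    rw [nV_conj hC]
    exact if_congr (hS g w) rfl rfl
  · intro w
    split_ifs with hw
    · exact_mod_cast h w hw C hC
    · exact dvd_zero _

open Classical in
/-- the sum over the tuples with `O^p(gn t) = H` -/
noncomputable def FM (p : ℕ) (S : Set G) (C : Fin M → Set G) (H : Subgroup G) : ℤ :=
  ∑ᶠ t : Tu G M, (if Opr p (gn t) = H then dM S C t * fK p (gn t) else 0)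

theorem FM_cg [Fact p.Prime] [Finite G] {S : Set G} (hS : CInv S) {C : Fin M → Set G}
    (hC : ∀ i, CInv (C i)) (g : G) (H : Subgroup G) : FM p S C (cg g H) = FM p S C H := by
  classical
  unfold FM
  rw [← finsum_comp_equiv (cU g)]
  refine finsum_congr (fun t => ?_)
  rw [gn_cU, Opr_cg, dM_cU hS hC, fK_conj]
  have h : cg g (Opr p (gn t)) = cg g H ↔ Opr p (gn t) = H := by
    constructor
    · intro h
      exact cg_injective g h
    · intro h
      rw [h]
  simp only [h]

theorem sum_FM [Finite G] (S : Set G) (C : Fin M → Set G) :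
    eM p S C = ∑ᶠ H : Subgroup G, FM p S C H := by
  classical
  have := Fintype.ofFinite G
  have := Fintype.ofFinite (Subgroup G)
  simp only [FM, eM, finsum_eq_sum_of_fintype]
  rw [Finset.sum_comm]
  refine Finset.sum_congr rfl (fun t _ => ?_)
  rw [Finset.sum_ite_eq]
  simp

end

end BCAux

open BCAux

section
variable {A : Type*} [Group A] [Finite A] {p s M : ℕ} [Fact p.Prime]

/-- double counting -/
theorem eM_chS (p : ℕ) (S : Set A) (C : Fin M → Set A) :
    eM p S C = chS p (fun U => nM S C U) := by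
  classical
  have := Fintype.ofFinite A
  have := Fintype.ofFinite (Subgroup A)
  have hn : ∀ U : Subgroup A, nM S C U = ∑ t : Tu A M, (if gn t ≤ U then dM S C t else 0) := by
    intro U
    unfold nM
    rw [finsum_eq_sum_of_fintype]
  unfold eM chS
  rw [finsum_eq_sum_of_fintype, finsum_eq_sum_of_fintype]
  have e2 : ∀ t : Tu A M, dM S C t * fK p (gn t) = ∑ σ : Finset (Subgroup A),
      if IsCh p σ then (-1) ^ σ.card * (if gn t ≤ sN σ then dM S C t else 0) else 0 := by
    intro t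
    rw [fK, chS, finsum_eq_sum_of_fintype, Finset.mul_sum]
    refine Finset.sum_congr rfl (fun σ _ => ?_)
    by_cases hc : IsCh p σ
    · rw [if_pos hc, if_pos hc]
      by_cases hg : gn t ≤ sN σ
      · rw [if_pos hg, if_pos hg]
        ring
      · rw [if_neg hg, if_neg hg]
        ring
    · rw [if_neg hc, if_neg hc, mul_zero]
  rw [Finset.sum_congr rfl (fun t _ => e2 t), Finset.sum_comm]
  refine Finset.sum_congr rfl (fun σ _ => ?_)
  by_cases hc : IsCh p σ
  · simp only [hc, if_true]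
    rw [hn, Finset.mul_sum]
  · simp [hc]

theorem nM_conj {S : Set A} (hS : CInv S) {C : Fin M → Set A} (hC : ∀ i, CInv (C i)) (g : A)
    (U : Subgroup A) : nM S C (cg g U) = nM S C U := by
  classical
  unfold nM
  rw [← finsum_comp_equiv (cU g)]
  refine finsum_congr (fun t => ?_)
  rw [gn_cU, cg_le_cg_iff, dM_cU hS hC]

/-- from the groups without normal p-subgroups to the sum over all tuples -/
theorem eM_dvd {S : Set A} (hS : CInv S) {C : Fin M → Set A} (hC : ∀ i, CInv (C i))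
    (h : ∀ U : Subgroup A, NoP p U → ∀ w : ↥U, (w : A) ∈ S → KM (p ^ s) p M w) :
    ((p ^ s : ℕ) : ℤ) * (ordProj[p] (Nat.card A) : ℕ) ∣ eM p S C := by
  rw [sum_FM]
  refine sub_dvd_p _ (fun g U => FM_cg hS hC g U) _ (fun K => ?_)
  refine sum_H hS hC fun U _ hU => ?_
  rw [← bM_dn]
  exact bM_dvd (BCAux.cInv_dn hS U) (fun i => BCAux.cInv_dn (hC i) U) fun w hw => h U hU w hw

end

end Pool.Agent.Lib.P0c8ca5.Kp
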