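import Mathlib
import Pool.Agent.Lib.P0c8ca5Id.Rk
import Pool.Agent.Lib.P0c8ca5Kp.Defs

/-!
# P0c8ca5Kp.TA: traces over a commutative ring

* `Ce U z`: `z` is supported in `U` and invariant under `U` (so `z` is in the center of `R U`);
* `tq U f`: the trace of the class function `f` of `U` acting on the class functions;
* `Mq U z`: the matrix of this action; `Mq_pow`, `Mq_map`, `tq_eq`.
-/

namespace Pool.Agent.Lib.P0c8ca5.Kp

open MonoidAlgebra

set_option linter.unusedSectionVars false

section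
variable {R : Type*} [CommRing R] {A : Type*} [Group A] [Fintype A]

theorem coeff_mulq (a b : MonoidAlgebra R A) (x : A) :
    (a * b).coeff x = ∑ y, a.coeff y * b.coeff (y⁻¹ * x) := by
  rw [coeff_mul_apply_left, Finsupp.sum_fintype]
  intro i; simp

/-- `z` is in the center of `R U` -/
structure Ce (U : Subgroup A) (z : MonoidAlgebra R A) : Prop where
  sp : ∀ x, x ∉ U → z.coeff x = 0
  iv : ∀ g ∈ U, ∀ x, z.coeff (g * x * g⁻¹) = z.coeff x

namespace Ce

variable {U : Subgroup A} {a b : MonoidAlgebra R A}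

theorem mul (ha : Ce U a) (hb : Ce U b) : Ce U (a * b) where
  sp x hx := by
    rw [coeff_mulq]
    refine Finset.sum_eq_zero fun y _ => ?_
    by_cases hy : y ∈ U
    · rw [hb.sp, mul_zero]
      intro h
      apply hx
      have := U.mul_mem hy h
      rwa [mul_inv_cancel_left] at this
    · rw [ha.sp y hy, zero_mul]
  iv g hg x := by
    rw [coeff_mulq, coeff_mulq, ← Equiv.sum_comp (MulAut.conj g).toEquiv]
    refine Finset.sum_congr rfl fun y _ => ?_
    have e1 : (MulAut.conj g).toEquiv y = g * y * g⁻¹ := rfl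
    have e2 : (g * y * g⁻¹)⁻¹ * (g * x * g⁻¹) = g * (y⁻¹ * x) * g⁻¹ := by group
    rw [e1, e2, ha.iv g hg, hb.iv g hg]

theorem one : Ce U (1 : MonoidAlgebra R A) where
  sp x hx := by
    rw [MonoidAlgebra.one_def, coeff_single, Finsupp.single_eq_of_ne]
    rintro rfl
    exact hx U.one_mem
  iv g hg x := by
    rw [MonoidAlgebra.one_def, coeff_single]
    by_cases h : x = 1
    · subst h
      simp
    · rw [Finsupp.single_eq_of_ne h, Finsupp.single_eq_of_ne]
      intro h1
      apply h
      have e1 : x = g⁻¹ * (g * x * g⁻¹) * g := by group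
      rw [e1, h1]
      group

theorem pow (ha : Ce U a) (n : ℕ) : Ce U (a ^ n) := by
  induction n with
  | zero => rw [pow_zero]; exact one
  | succ n ih => rw [pow_succ]; exact ih.mul ha

theorem zero : Ce U (0 : MonoidAlgebra R A) where
  sp _ _ := rfl
  iv _ _ _ := rfl

theorem add (ha : Ce U a) (hb : Ce U b) : Ce U (a + b) where
  sp x hx := by
    rw [coeff_add, Finsupp.add_apply, ha.sp x hx, hb.sp x hx, add_zero]
  iv g hg x := by
    rw [coeff_add, Finsupp.add_apply, Finsupp.add_apply, ha.iv g hg, hb.iv g hg]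

theorem smul (ha : Ce U a) (c : R) : Ce U (c • a) where
  sp x hx := by
    rw [coeff_smul, Finsupp.smul_apply, ha.sp x hx, smul_zero]
  iv g hg x := by
    rw [coeff_smul, Finsupp.smul_apply, Finsupp.smul_apply, ha.iv g hg]

theorem sum {ι : Type*} (s : Finset ι) {f : ι → MonoidAlgebra R A} (h : ∀ i ∈ s, Ce U (f i)) :
    Ce U (∑ i ∈ s, f i) := by
  classical
  induction s using Finset.induction_on with
  | empty => rw [Finset.sum_empty]; exact zero
  | insert i s hi ih =>
    rw [Finset.sum_insert hi]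
    exact (h i (Finset.mem_insert_self i s)).add
      (ih fun j hj => h j (Finset.mem_insert_of_mem hj))

theorem comm (ha : Ce U a) (hb : Ce U b) : a * b = b * a := by
  ext x
  rw [coeff_mulq, coeff_mulq, ← Equiv.sum_comp ((Equiv.inv A).trans (Equiv.mulLeft x))
    (fun y => b.coeff y * a.coeff (y⁻¹ * x))]
  refine Finset.sum_congr rfl fun y _ => ?_
  have e1 : ((Equiv.inv A).trans (Equiv.mulLeft x)) y = x * y⁻¹ := rfl
  have e2 : (x * y⁻¹)⁻¹ * x = y := by group
  rw [e1, e2, mul_comm]
  by_cases hy : y ∈ U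
  · have h1 := hb.iv y hy (y⁻¹ * x)
    have e3 : y * (y⁻¹ * x) * y⁻¹ = x * y⁻¹ := by group
    rw [e3] at h1
    rw [h1]
  · rw [ha.sp y hy, mul_zero, mul_zero]

end Ce

/-! ### traces and matrices -/

open Classical in
/-- the trace of `f` on the class functions of `U` -/
noncomputable def tq (U : Subgroup A) (f : A → R) : R :=
  ∑ᶠ X : Cl U (fun x => x ∈ U), ∑ y : A,
    if y ∈ U ∧ ∃ h ∈ U, y * (X.out : A) = h * (X.out : A) * h⁻¹ then f y else 0

open Classical in
/-- the matrix of the action of `z` on the class functions -/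
noncomputable def Mq (U : Subgroup A) (z : MonoidAlgebra R A) :
    Matrix (Cl U (fun x => x ∈ U)) (Cl U (fun x => x ∈ U)) R :=
  fun X Y => ∑ y : A, if y ∈ U ∧ ∃ h ∈ U, y * (X.out : A) = h * (Y.out : A) * h⁻¹
    then z.coeff y else 0

theorem tq_eq (U : Subgroup A) [Fintype (Cl U (fun x => x ∈ U))] (z : MonoidAlgebra R A) :
    tq U (fun x => z.coeff x) = (Mq U z).trace := by
  classical
  unfold tq Matrix.trace
  rw [finsum_eq_sum_of_fintype]
  refine Finset.sum_congr rfl fun X _ => ?_
  change _ = Mq U z X X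
  unfold Mq
  refine Finset.sum_congr rfl fun y _ => ?_
  split_ifs <;> rfl

theorem tq_add (U : Subgroup A) (f g : A → R) :
    tq U (fun x => f x + g x) = tq U f + tq U g := by
  classical
  let _ : Fintype (Cl U (fun x => x ∈ U)) := Fintype.ofFinite _
  unfold tq
  rw [finsum_eq_sum_of_fintype, finsum_eq_sum_of_fintype, finsum_eq_sum_of_fintype,
    ← Finset.sum_add_distrib]
  refine Finset.sum_congr rfl fun X _ => ?_
  rw [← Finset.sum_add_distrib]
  refine Finset.sum_congr rfl fun y _ => ?_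
  split_ifs
  · rfl
  · rw [add_zero]

theorem tq_smul (U : Subgroup A) (c : R) (f : A → R) :
    tq U (fun x => c * f x) = c * tq U f := by
  classical
  let _ : Fintype (Cl U (fun x => x ∈ U)) := Fintype.ofFinite _
  unfold tq
  rw [finsum_eq_sum_of_fintype, finsum_eq_sum_of_fintype, Finset.mul_sum]
  refine Finset.sum_congr rfl fun X _ => ?_
  rw [Finset.mul_sum]
  refine Finset.sum_congr rfl fun y _ => ?_
  split_ifs
  · rfl
  · rw [mul_zero]

theorem tq_cast (U : Subgroup A) (f : A → ℤ) :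
    ((tq U f : ℤ) : R) = tq U (fun x => (f x : R)) := by
  classical
  let _ : Fintype (Cl U (fun x => x ∈ U)) := Fintype.ofFinite _
  unfold tq
  rw [finsum_eq_sum_of_fintype, finsum_eq_sum_of_fintype]
  push_cast
  rfl

/-- convolution -/
noncomputable def cvq (c : MonoidAlgebra R A) (f : A → R) : A → R :=
  fun x => ∑ h : A, c.coeff h * f (h * x)

theorem cvq_cvq (c d : MonoidAlgebra R A) (f : A → R) :
    cvq d (cvq c f) = cvq (c * d) f := by
  funext x
  unfold cvq
  simp only [coeff_mulq, Finset.sum_mul, Finset.mul_sum]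
  rw [Finset.sum_comm]
  conv_rhs => rw [Finset.sum_comm]
  refine Finset.sum_congr rfl fun g _ => ?_
  rw [← Equiv.sum_comp (Equiv.mulLeft g) (fun w => c.coeff g * d.coeff (g⁻¹ * w) * f (w * x))]
  refine Finset.sum_congr rfl fun h _ => ?_
  simp only [Equiv.coe_mulLeft, inv_mul_cancel_left, mul_assoc]
  ring

theorem cvq_one (f : A → R) : cvq (1 : MonoidAlgebra R A) f = f := by
  classical
  funext x
  unfold cvq
  rw [Finset.sum_eq_single 1]
  · rw [one_mul, MonoidAlgebra.one_def, coeff_single, Finsupp.single_eq_same, one_mul]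
  · intro y _ hy
    rw [MonoidAlgebra.one_def, coeff_single, Finsupp.single_eq_of_ne hy, zero_mul]
  · intro h
    exact absurd (Finset.mem_univ _) h

/-- class functions of `U`, extended by zero -/
def CFq (U : Subgroup A) (f : A → R) : Prop :=
  (∀ x, x ∉ U → f x = 0) ∧ ∀ h ∈ U, ∀ x, f (h * x * h⁻¹) = f x

theorem cvq_CF {U : Subgroup A} {z : MonoidAlgebra R A} (hz : Ce U z) {f : A → R}
    (hf : CFq U f) : CFq U (cvq z f) := by
  refine ⟨fun x hx => ?_, fun g hg x => ?_⟩
  · unfold cvq
    refine Finset.sum_eq_zero fun y _ => ?_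
    by_cases hy : y ∈ U
    · rw [hf.1, mul_zero]
      intro h
      apply hx
      have := U.mul_mem (U.inv_mem hy) h
      rwa [inv_mul_cancel_left] at this
    · rw [hz.sp y hy, zero_mul]
  · unfold cvq
    rw [← Equiv.sum_comp (MulAut.conj g).toEquiv]
    refine Finset.sum_congr rfl fun y _ => ?_
    have e1 : (MulAut.conj g).toEquiv y = g * y * g⁻¹ := rfl
    have e2 : g * y * g⁻¹ * (g * x * g⁻¹) = g * (y * x) * g⁻¹ := by group
    rw [e1, e2, hz.iv g hg, hf.2 g hg]

theorem Mq_mulVec {U : Subgroup A} [Fintype (Cl U (fun x => x ∈ U))]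
    {z : MonoidAlgebra R A} (hz : Ce U z) {f : A → R} (hf : CFq U f) :
    (Mq U z).mulVec (fun Y => f (Y.out : A)) = fun X => cvq z f (X.out : A) := by
  classical
  funext X
  unfold Matrix.mulVec dotProduct cvq
  simp only [Mq, Finset.sum_mul]
  rw [Finset.sum_comm]
  refine Finset.sum_congr rfl fun y _ => ?_
  by_cases hy : y ∈ U
  · have hyx : y * (X.out : A) ∈ U := U.mul_mem hy X.out.2
    set Y0 : Cl U (fun x => x ∈ U) := Quotient.mk _ ⟨y * (X.out : A), hyx⟩ with hY0
    rw [Finset.sum_eq_single Y0]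
    · obtain ⟨g, hg, e⟩ : ∃ g ∈ U, (Y0.out : A) = g * (y * (X.out : A)) * g⁻¹ := by
        have h1 : Quotient.mk (clSetoid U (fun x => x ∈ U)) ⟨y * (X.out : A), hyx⟩
            = Quotient.mk _ Y0.out := by rw [Quotient.out_eq]
        exact Quotient.exact h1
      rw [if_pos ⟨hy, g⁻¹, U.inv_mem hg, by rw [e]; group⟩, e, hf.2 g hg]
    · intro Y _ hY
      rw [if_neg, zero_mul]
      rintro ⟨_, h, hh, e⟩
      apply hY
      rw [hY0, ← Quotient.out_eq Y]
      exact Quotient.sound ⟨h, hh, e⟩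
    · intro h
      exact absurd (Finset.mem_univ _) h
  · rw [hz.sp y hy, zero_mul]
    refine Finset.sum_eq_zero fun Y _ => ?_
    rw [if_neg (fun h => hy h.1), zero_mul]

theorem Mq_pow_mulVec {U : Subgroup A} [Fintype (Cl U (fun x => x ∈ U))]
    [DecidableEq (Cl U (fun x => x ∈ U))]
    {z : MonoidAlgebra R A} (hz : Ce U z) (n : ℕ) :
    ∀ {f : A → R}, CFq U f →
    ((Mq U z) ^ n).mulVec (fun Y => f (Y.out : A)) = fun X => cvq (z ^ n) f (X.out : A) := by
  induction n with
  | zero =>
    intro f _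
    rw [pow_zero, pow_zero, Matrix.one_mulVec, cvq_one]
  | succ n ih =>
    intro f hf
    rw [pow_succ, ← Matrix.mulVec_mulVec, Mq_mulVec hz hf, ih (cvq_CF hz hf), cvq_cvq,
      ← pow_succ']

/-- all vectors are class functions -/
theorem exists_CFq {U : Subgroup A} (v : Cl U (fun x => x ∈ U) → R) :
    ∃ f : A → R, CFq U f ∧ (fun Y : Cl U (fun x => x ∈ U) => f (Y.out : A)) = v := by
  classical
  refine ⟨fun x => if h : x ∈ U then v (Quotient.mk (clSetoid U (fun x => x ∈ U)) ⟨x, h⟩) else 0,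
    ⟨fun x hx => dif_neg hx, fun h hh x => ?_⟩, ?_⟩
  · by_cases hx : x ∈ U
    · have hx' : h * x * h⁻¹ ∈ U := U.mul_mem (U.mul_mem hh hx) (U.inv_mem hh)
      beta_reduce
      rw [dif_pos hx, dif_pos hx']
      congr 1
      exact (Quotient.sound ⟨h, hh, rfl⟩ :
            Quotient.mk (clSetoid U (fun x => x ∈ U)) ⟨x, hx⟩
              = Quotient.mk _ ⟨h * x * h⁻¹, hx'⟩).symm
    · have hx' : h * x * h⁻¹ ∉ U := by
        intro h1
        apply hx
        have := U.mul_mem (U.mul_mem (U.inv_mem hh) h1) hh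
        have e : h⁻¹ * (h * x * h⁻¹) * h = x := by group
        rwa [e] at this
      beta_reduce
      rw [dif_neg hx, dif_neg hx']
  · funext Z
    beta_reduce
    rw [dif_pos Z.out.2]
    have e : Quotient.mk (clSetoid U (fun x => x ∈ U)) ⟨(Z.out : A), Z.out.2⟩ = Z :=
      Quotient.out_eq Z
    rw [e]

theorem Mq_pow {U : Subgroup A} [Fintype (Cl U (fun x => x ∈ U))]
    [DecidableEq (Cl U (fun x => x ∈ U))]
    {z : MonoidAlgebra R A} (hz : Ce U z) (n : ℕ) : Mq U (z ^ n) = (Mq U z) ^ n := by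
  apply Matrix.mulVec_injective
  funext v
  obtain ⟨f, hf, rfl⟩ := exists_CFq v
  rw [Mq_pow_mulVec hz n hf, Mq_mulVec (hz.pow n) hf]

theorem Mq_add (U : Subgroup A) (z z' : MonoidAlgebra R A) :
    Mq U (z + z') = Mq U z + Mq U z' := by
  classical
  ext X Y
  rw [Matrix.add_apply]
  unfold Mq
  rw [← Finset.sum_add_distrib]
  refine Finset.sum_congr rfl fun y _ => ?_
  split_ifs
  · rw [coeff_add, Finsupp.add_apply]
  · rw [add_zero]

theorem Mq_zero (U : Subgroup A) : Mq U (0 : MonoidAlgebra R A) = 0 := by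
  classical
  ext X Y
  unfold Mq
  refine Finset.sum_eq_zero fun y _ => ?_
  split_ifs <;> rfl

theorem Mq_smul (U : Subgroup A) (c : R) (z : MonoidAlgebra R A) :
    Mq U (c • z) = c • Mq U z := by
  classical
  ext X Y
  rw [Matrix.smul_apply]
  unfold Mq
  rw [Finset.smul_sum]
  refine Finset.sum_congr rfl fun y _ => ?_
  split_ifs
  · rw [coeff_smul, Finsupp.smul_apply]
  · rw [smul_zero]

theorem Mq_sum (U : Subgroup A) {ι : Type*} (s : Finset ι) (z : ι → MonoidAlgebra R A) :
    Mq U (∑ i ∈ s, z i) = ∑ i ∈ s, Mq U (z i) := by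
  classical
  induction s using Finset.induction_on with
  | empty => rw [Finset.sum_empty, Finset.sum_empty, Mq_zero]
  | insert i s hi ih => rw [Finset.sum_insert hi, Finset.sum_insert hi, Mq_add, ih]

theorem coeff_mapRingHom_apply' {S : Type*} [CommRing S] (ρ : R →+* S) (z : MonoidAlgebra R A)
    (y : A) : ρ (z.coeff y) = (mapRingHom A ρ z).coeff y := rfl

theorem Mq_map {S : Type*} [CommRing S] (ρ : R →+* S) (U : Subgroup A) (z : MonoidAlgebra R A) :
    (Mq U z).map ρ = Mq U (mapRingHom A ρ z) := by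
  classical
  ext X Y
  rw [Matrix.map_apply]
  unfold Mq
  rw [map_sum]
  refine Finset.sum_congr rfl fun y _ => ?_
  split_ifs
  · exact (coeff_mapRingHom_apply' ρ z y)
  · rw [map_zero]

end

section
variable {k : Type*} [Field k] {A : Type*} [Group A] [Fintype A] {U : Subgroup A}

theorem ce_iff {z : MonoidAlgebra k A} : Ce U z ↔ z ∈ fixAlg k U U := by
  rw [mem_fixAlg]
  constructor
  · intro h
    refine ⟨fun x hx => ?_, h.iv⟩
    by_contra h1
    exact hx (h.sp x h1)
  · rintro ⟨h1, h2⟩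
    refine ⟨fun x hx => ?_, h2⟩
    by_contra h
    exact hx (h1 x h)

open Pool.Agent.Lib.P0c8ca5.Id Pool.Agent.Lib.P0c8ca5.Id.RkAux R2bAux in
/-- the rank of the matrix of a central idempotent -/
theorem rank_Mq [Fintype (Cl U (fun x => x ∈ U))] [DecidableEq (Cl U (fun x => x ∈ U))]
    {e : MonoidAlgebra k A} (he : e ∈ fixAlg k U U) (hee : e * e = e) :
    (Mq U e).rank = Module.finrank k ↥(ctr k U e) := by
  classical
  have he' := mem_fixAlg.1 he
  have h0 : Mq U e = MT U e := rfl
  -- the linear equivalence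
  let φ := LinearEquiv.ofBijective (ev k U) (ev_bij k U)
  have h2 : ∀ z : ↥(Subalgebra.toSubmodule (fixAlg k U U)),
      (MT U e).mulVec (φ z) = φ (ml e he z) := by
    intro z
    have hz' := mem_fixAlg.1 (show z.1 ∈ fixAlg k U U from z.2)
    have hCF : CF U (fun x => z.1.coeff x⁻¹) := by
      refine ⟨fun x hx => ?_, fun g hg x => ?_⟩
      · by_contra h
        exact hx (by simpa using U.inv_mem (hz'.1 _ h))
      · have e1 : (g * x * g⁻¹)⁻¹ = g * x⁻¹ * g⁻¹ := by group
        change z.1.coeff (g * x * g⁻¹)⁻¹ = z.1.coeff x⁻¹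
        rw [e1, hz'.2 g hg]
    have h3 := MT_mulVec he'.1 hCF
    have h4 : (φ z : Cl U (fun x => x ∈ U) → k) = fun Y => z.1.coeff (Y.out : A)⁻¹ := rfl
    rw [h4, h3]
    funext X
    have h5 := conv_coeff (e := e) (z := z.1) (X.out : A)⁻¹
    rw [inv_inv] at h5
    exact h5
  -- the projection on the functions on the classes
  let T := Matrix.toLin' (MT U e)
  have hT : ∀ v, T v = (MT U e).mulVec v := fun v => Matrix.toLin'_apply _ _
  let P : Submodule k (Cl U (fun x => x ∈ U) → k) := LinearMap.eqLocus T LinearMap.id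
  have hP : ∀ v, v ∈ P ↔ T v = v := fun v => Iff.rfl
  have hidem : ∀ v, T (T v) = T v := by
    intro v
    obtain ⟨z, rfl⟩ := φ.surjective v
    have h3 : T (φ z) = φ (ml e he z) := by rw [hT, h2]
    rw [h3, hT, h2]
    congr 1
    apply Subtype.ext
    change z.1 * e * e = z.1 * e
    rw [mul_assoc, hee]
  have hrange : LinearMap.range T = P := by
    ext v
    constructor
    · rintro ⟨w, rfl⟩
      exact hidem w
    · intro hv
      exact ⟨v, hv⟩
  have hle : ∀ z ∈ ctr k U e, z ∈ fixAlg k U U := fun z hz => hz.1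
  let F : ↥(ctr k U e) →ₗ[k] ↥P :=
    { toFun := fun z => ⟨φ ⟨z.1, hle z.1 z.2⟩, by
        rw [hP, hT, h2]
        congr 1
        exact Subtype.ext z.2.2⟩
      map_add' := fun x y => rfl
      map_smul' := fun c x => rfl }
  have hF : Function.Bijective F := by
    constructor
    · intro z z' h
      have h3 : φ ⟨z.1, hle z.1 z.2⟩ = φ ⟨z'.1, hle z'.1 z'.2⟩ :=
        congrArg (fun t : ↥P => (t : Cl U (fun x => x ∈ U) → k)) h
      have h4 := φ.injective h3
      have h5 : z.1 = z'.1 :=
        congrArg (fun t : ↥(Subalgebra.toSubmodule (fixAlg k U U)) => (t : MonoidAlgebra k A)) h4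
      exact Subtype.ext h5
    · rintro ⟨v, hv⟩
      obtain ⟨z, rfl⟩ := φ.surjective v
      rw [hP, hT, h2] at hv
      have h3 : z.1 * e = z.1 :=
        congrArg (fun t : ↥(Subalgebra.toSubmodule (fixAlg k U U)) => (t : MonoidAlgebra k A))
          (φ.injective hv)
      exact ⟨⟨z.1, z.2, h3⟩, rfl⟩
  have h6 : (MT U e).mulVecLin = T := (Matrix.toLin'_apply' _).symm
  rw [h0, Matrix.rank, h6, hrange]
  exact ((LinearEquiv.ofBijective F hF).finrank_eq).symm

end

end Pool.Agent.Lib.P0c8ca5.Kp
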