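import Mathlib
import Pool.Agent.Lib.P0c8ca5Id.Fun
import Pool.Agent.Lib.P0c8ca5Kp.TA

/-!
# P0c8ca5Kp.TB: the numbers of the tuples as traces over a commutative ring
-/

namespace Pool.Agent.Lib.P0c8ca5.Kp

open MonoidAlgebra Bw

set_option linter.unusedSectionVars false

section
variable {A : Type*} [Group A] [Fintype A]

open Classical in
/-- the sum of the inverses of the elements of `S` in `U` -/
noncomputable def hq (R : Type*) [CommRing R] (S : Set A) (U : Subgroup A) : MonoidAlgebra R A :=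
  MonoidAlgebra.ofCoeff (Finsupp.equivFunOnFinite.symm fun x =>
    if x⁻¹ ∈ S ∧ x ∈ U then (1 : R) else 0)

open Classical in
/-- the restriction to `U` -/
noncomputable def rq {R : Type*} [CommRing R] (U : Subgroup A) (z : MonoidAlgebra R A) :
    MonoidAlgebra R A :=
  MonoidAlgebra.ofCoeff (Finsupp.equivFunOnFinite.symm fun x => if x ∈ U then z.coeff x else 0)

open Classical in
/-- the sum of the elements of `C` -/
noncomputable def iq (R : Type*) [CommRing R] (C : Set A) : MonoidAlgebra R A :=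
  MonoidAlgebra.ofCoeff (Finsupp.equivFunOnFinite.symm fun x => if x ∈ C then (1 : R) else 0)

variable {R : Type*} [CommRing R]

open Classical in
theorem hq_coeff (S : Set A) (U : Subgroup A) (x : A) :
    (hq R S U).coeff x = if x⁻¹ ∈ S ∧ x ∈ U then 1 else 0 := rfl

open Classical in
theorem rq_coeff (U : Subgroup A) (z : MonoidAlgebra R A) (x : A) :
    (rq U z).coeff x = if x ∈ U then z.coeff x else 0 := rfl

open Classical in
theorem iq_coeff (C : Set A) (x : A) : (iq R C).coeff x = if x ∈ C then 1 else 0 := rfl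

theorem rq_add (U : Subgroup A) (y z : MonoidAlgebra R A) : rq U (y + z) = rq U y + rq U z := by
  classical
  ext x
  rw [coeff_add, Finsupp.add_apply, rq_coeff, rq_coeff, rq_coeff, coeff_add, Finsupp.add_apply]
  split_ifs
  · rfl
  · rw [add_zero]

theorem rq_smul (U : Subgroup A) (c : R) (z : MonoidAlgebra R A) : rq U (c • z) = c • rq U z := by
  classical
  ext x
  rw [coeff_smul, Finsupp.smul_apply, rq_coeff, rq_coeff, coeff_smul, Finsupp.smul_apply]
  split_ifs
  · rfl
  · rw [smul_zero]

theorem rq_zero (U : Subgroup A) : rq U (0 : MonoidAlgebra R A) = 0 := by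
  have h := rq_smul U (0 : R) (0 : MonoidAlgebra R A)
  rwa [zero_smul, zero_smul] at h

theorem rq_hq (S : Set A) (U : Subgroup A) : rq U (hq R S (⊤ : Subgroup A)) = hq R S U := by
  classical
  ext x
  rw [rq_coeff, hq_coeff, hq_coeff]
  by_cases h1 : x ∈ U <;> by_cases h2 : x⁻¹ ∈ S <;> simp [h1, h2]

theorem ce_rq {U : Subgroup A} {z : MonoidAlgebra R A}
    (hz : ∀ g x : A, z.coeff (g * x * g⁻¹) = z.coeff x) : Ce U (rq U z) where
  sp x hx := by
    classical
    rw [rq_coeff, if_neg hx]
  iv g hg x := by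
    classical
    rw [rq_coeff, rq_coeff, hz]
    have h : g * x * g⁻¹ ∈ U ↔ x ∈ U := NsTAux.mem_conj U hg x
    simp only [h]

theorem ce_hq {S : Set A} (hS : CInv S) (U : Subgroup A) : Ce U (hq R S U) where
  sp x hx := by
    classical
    rw [hq_coeff, if_neg (fun h => hx h.2)]
  iv g hg x := by
    classical
    rw [hq_coeff, hq_coeff]
    have h : g * x * g⁻¹ ∈ U ↔ x ∈ U := NsTAux.mem_conj U hg x
    have h1 : (g * x * g⁻¹)⁻¹ = g * x⁻¹ * g⁻¹ := by group
    rw [h1]
    simp only [h, hS g]

theorem Ce.list_prod {U : Subgroup A} {L : List (MonoidAlgebra R A)} (h : ∀ z ∈ L, Ce U z) :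
    Ce U L.prod := by
  induction L with
  | nil => exact Ce.one
  | cons z L ih =>
    rw [List.prod_cons]
    exact (h z List.mem_cons_self).mul (ih fun y hy => h y (List.mem_cons_of_mem z hy))

/-- the coefficients of a product -/
theorem coeff_ofFn_prod {M : ℕ} (z : Fin M → MonoidAlgebra R A) (y : A) :
    ((List.ofFn z).prod).coeff y =
      ∑ c : Fin M → A, @ite R (pd c = y) (Classical.propDecidable _) (∏ i, (z i).coeff (c i)) 0 := by
  classical
  induction M generalizing y with
  | zero =>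
    rw [List.ofFn_zero, List.prod_nil, Fintype.sum_unique, MonoidAlgebra.one_def, coeff_single]
    have h1 : pd (default : Fin 0 → A) = 1 := by
      unfold pd
      rw [List.ofFn_zero, List.prod_nil]
    rw [h1, Finset.univ_eq_empty, Finset.prod_empty]
    by_cases h : (1 : A) = y
    · subst h
      rw [if_pos rfl, Finsupp.single_eq_same]
    · rw [if_neg h, Finsupp.single_eq_of_ne (Ne.symm h)]
  | succ M ih =>
    rw [List.ofFn_succ, List.prod_cons, coeff_mulq,
      ← Equiv.sum_comp (Fin.consEquiv (fun _ : Fin (M + 1) => A)), Fintype.sum_prod_type]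
    refine Finset.sum_congr rfl fun a _ => ?_
    rw [ih, Finset.mul_sum]
    refine Finset.sum_congr rfl fun c _ => ?_
    have h1 : pd (Fin.consEquiv (fun _ : Fin (M + 1) => A) (a, c)) = a * pd c := by
      unfold pd
      rw [List.ofFn_succ, List.prod_cons]
      rfl
    have h2 : ∏ i, (z i).coeff (Fin.consEquiv (fun _ : Fin (M + 1) => A) (a, c) i) =
        (z 0).coeff a * ∏ i : Fin M, (z i.succ).coeff (c i) := by
      rw [Fin.prod_univ_succ]
      rfl
    rw [h1, h2]
    by_cases h : pd c = a⁻¹ * y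
    · rw [if_pos h, if_pos (by rw [h]; group)]
    · rw [if_neg h, if_neg, mul_zero]
      intro h3
      apply h
      rw [← h3]
      group

/-- the integral coefficients -/
noncomputable def mq {M : ℕ} (S : Set A) (C : Fin M → Set A) (U : Subgroup A) (x : A) : ℤ :=
  (hq ℤ S U * (List.ofFn fun i => rq U (iq ℤ (C i))).prod).coeff x

theorem ce_mq {M : ℕ} {S : Set A} (hS : CInv S) {C : Fin M → Set A} (hC : ∀ i, CInv (C i))
    (U : Subgroup A) : Ce U (hq ℤ S U * (List.ofFn fun i => rq U (iq ℤ (C i))).prod) := by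
  classical
  refine (ce_hq hS U).mul (Ce.list_prod fun z hz => ?_)
  rw [List.mem_ofFn] at hz
  obtain ⟨i, rfl⟩ := hz
  refine ce_rq fun g x => ?_
  rw [iq_coeff, iq_coeff]
  simp only [hC i g]

theorem nE_tq (U : Subgroup A) {m : A → ℤ} (hm : ∀ h ∈ U, ∀ x, m (h * x * h⁻¹) = m x) :
    nE U m = (Nat.card U : ℤ) * tq U m := by
  obtain ⟨t, h1, h2⟩ := nE_trE (k := ℚ) U hm
  have h3 : ((tq U m : ℤ) : ℚ) = trE ℚ U (fun y => (m y : ℚ)) := tq_cast U m
  rw [← h3] at h2
  rw [h1, Int.cast_injective h2]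

theorem gn_leU {M : ℕ} {t : Tu A M} {U : Subgroup A} :
    gn t ≤ U ↔ t.1 ∈ U ∧ t.2.1 ∈ U ∧ ∀ i, t.2.2 i ∈ U := by
  unfold gn
  rw [Subgroup.closure_le]
  constructor
  · intro h
    exact ⟨h (Or.inl (Or.inl rfl)), h (Or.inl (Or.inr rfl)), fun i => h (Or.inr ⟨i, rfl⟩)⟩
  · rintro ⟨h1, h2, h3⟩ x ((hx | hx) | ⟨i, rfl⟩)
    · rw [hx]
      exact h1
    · rw [Set.mem_singleton_iff] at hx
      rw [hx]
      exact h2
    · exact h3 i

theorem pd_mem {M : ℕ} {c : Fin M → A} {U : Subgroup A} (h : ∀ i, c i ∈ U) : pd c ∈ U := by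
  unfold pd
  refine Subgroup.list_prod_mem _ fun x hx => ?_
  rw [List.mem_ofFn] at hx
  obtain ⟨i, rfl⟩ := hx
  exact h i

theorem nE_mq {M : ℕ} {S : Set A} (hS : CInv S) (C : Fin M → Set A) (U : Subgroup A) :
    nE U (mq S C U) = nM S C U := by
  classical
  unfold nE nM
  rw [finsum_eq_sum_of_fintype, finsum_eq_sum_of_fintype, Fintype.sum_prod_type,
    Fintype.sum_prod_type]
  refine Finset.sum_congr rfl fun a _ => ?_
  rw [Fintype.sum_prod_type]
  refine Finset.sum_congr rfl fun b _ => ?_
  by_cases hab : a ∈ U ∧ b ∈ U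
  · rw [if_pos hab]
    unfold mq
    rw [coeff_mulq]
    have h1 : ∀ v : A, (hq ℤ S U).coeff v *
        ((List.ofFn fun i => rq U (iq ℤ (C i))).prod).coeff (v⁻¹ * (cmt a b)⁻¹) =
        ∑ c : Fin M → A, if v = (cmt a b)⁻¹ * (pd c)⁻¹ then
          (if gn (a, b, c) ≤ U then dM S C (a, b, c) else 0) else 0 := by
      intro v
      rw [coeff_ofFn_prod, Finset.mul_sum]
      refine Finset.sum_congr rfl fun c _ => ?_
      have e1 : (∏ i, (rq U (iq ℤ (C i))).coeff (c i)) =
          if ∀ i, c i ∈ U ∧ c i ∈ C i then (1 : ℤ) else 0 := by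
        by_cases h : ∀ i, c i ∈ U ∧ c i ∈ C i
        · rw [if_pos h]
          refine Finset.prod_eq_one fun i _ => ?_
          rw [rq_coeff, iq_coeff, if_pos (h i).1, if_pos (h i).2]
        · rw [if_neg h]
          push Not at h
          obtain ⟨i, hi⟩ := h
          refine Finset.prod_eq_zero (Finset.mem_univ i) ?_
          rw [rq_coeff, iq_coeff]
          by_cases h2 : c i ∈ U
          · rw [if_pos h2, if_neg (hi h2)]
          · rw [if_neg h2]
      rw [e1, hq_coeff]
      by_cases hv : v = (cmt a b)⁻¹ * (pd c)⁻¹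
      · have e2 : pd c = v⁻¹ * (cmt a b)⁻¹ := by
          rw [hv]
          group
        rw [if_pos hv, if_pos e2]
        have e3 : v⁻¹ ∈ S ↔ cmt a b * pd c ∈ S := by
          have h2 := hS (cmt a b) (v⁻¹)
          have h3 : cmt a b * v⁻¹ * (cmt a b)⁻¹ = cmt a b * pd c := by
            rw [hv]
            group
          rw [h3] at h2
          exact h2.symm
        by_cases hc : ∀ i, c i ∈ U ∧ c i ∈ C i
        · have hg : gn (a, b, c) ≤ U := gn_leU.2 ⟨hab.1, hab.2, fun i => (hc i).1⟩
          have hvU : v ∈ U := by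
            rw [hv]
            exact U.mul_mem (U.inv_mem (NsTAux.cmt_mem U hab.1 hab.2))
              (U.inv_mem (pd_mem fun i => (hc i).1))
          rw [if_pos hc, if_pos hg, mul_one]
          unfold dM
          by_cases hs : cmt a b * pd c ∈ S
          · rw [if_pos ⟨e3.2 hs, hvU⟩, if_pos ⟨hs, fun i => (hc i).2⟩]
          · rw [if_neg (fun h => hs (e3.1 h.1)), if_neg (fun h => hs h.1)]
        · rw [if_neg hc, mul_zero]
          by_cases hg : gn (a, b, c) ≤ U
          · rw [if_pos hg]
            unfold dM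
            rw [if_neg]
            rintro ⟨_, h3⟩
            exact hc fun i => ⟨(gn_leU.1 hg).2.2 i, h3 i⟩
          · rw [if_neg hg]
      · have h4 : ¬ pd c = v⁻¹ * (cmt a b)⁻¹ := by
          intro h2
          apply hv
          rw [h2]
          group
        rw [if_neg hv, if_neg h4, mul_zero]
    rw [Finset.sum_congr rfl fun v _ => h1 v, Finset.sum_comm]
    refine Finset.sum_congr rfl fun c _ => ?_
    rw [Finset.sum_ite_eq' Finset.univ, if_pos (Finset.mem_univ _)]
  · rw [if_neg hab]
    symm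
    refine Finset.sum_eq_zero fun c _ => ?_
    rw [if_neg]
    intro h
    exact hab ⟨(gn_leU.1 h).1, (gn_leU.1 h).2.1⟩

theorem nM_tq {M : ℕ} {S : Set A} (hS : CInv S) {C : Fin M → Set A} (hC : ∀ i, CInv (C i))
    (U : Subgroup A) : nM S C U = (Nat.card U : ℤ) * tq U (mq S C U) := by
  rw [← nE_mq hS C U]
  exact nE_tq U (fun h hh x => (ce_mq hS hC U).iv h hh x)

/-! ### change of rings -/

theorem map_hq (S : Set A) (U : Subgroup A) :
    mapRingHom A (Int.castRingHom R) (hq ℤ S U) = hq R S U := by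
  classical
  ext x
  change (Int.castRingHom R) ((hq ℤ S U).coeff x) = _
  rw [hq_coeff, hq_coeff]
  split_ifs <;> simp

theorem map_iq (C : Set A) : mapRingHom A (Int.castRingHom R) (iq ℤ C) = iq R C := by
  classical
  ext x
  change (Int.castRingHom R) ((iq ℤ C).coeff x) = _
  rw [iq_coeff, iq_coeff]
  split_ifs <;> simp

theorem map_rq {Q : Type*} [CommRing Q] (ρ : Q →+* R) (U : Subgroup A) (z : MonoidAlgebra Q A) :
    mapRingHom A ρ (rq U z) = rq U (mapRingHom A ρ z) := by
  classical
  ext x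
  change ρ ((rq U z).coeff x) = _
  rw [rq_coeff, rq_coeff]
  split_ifs
  · rfl
  · rw [map_zero]

theorem mq_cast {M : ℕ} (S : Set A) (C : Fin M → Set A) (U : Subgroup A) :
    (fun x => (mq S C U x : R)) =
      fun x => (hq R S U * (List.ofFn fun i => rq U (iq R (C i))).prod).coeff x := by
  funext x
  unfold mq
  change (Int.castRingHom R) _ = _
  have e : (⇑(mapRingHom A (Int.castRingHom R)) ∘ fun i => rq U (iq ℤ (C i))) =
      fun i => rq U (iq R (C i)) := by
    funext i
    simp only [Function.comp_apply, map_rq, map_iq]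
  rw [coeff_mapRingHom_apply', map_mul, map_list_prod, map_hq, List.map_ofFn, e]

end

end Pool.Agent.Lib.P0c8ca5.Kp
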