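import Mathlib
import Pool.Agent.Lib.P0c8ca5Kp.TB
import Pool.Agent.Lib.P0c8ca5Kp.BC

/-!
# P0c8ca5Kp.TC: the alternating sums of the traces of products vanish
-/

namespace Pool.Agent.Lib.P0c8ca5.Kp

open MonoidAlgebra Bw Pool.Agent.Lib.P0c8ca5.Id

set_option linter.unusedSectionVars false

section
variable {A : Type*} [Group A] [Fintype A] {p s M : ℕ} [Fact p.Prime]

theorem sum_mq_dvd {S : Set A} (hS : CInv S) {C : Fin M → Set A} (hC : ∀ i, CInv (C i))
    (h : ∀ U : Subgroup A, NoP p U → ∀ w : ↥U, (w : A) ∈ S → KM (p ^ s) p M w) :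
    ((p ^ s : ℕ) : ℤ) ∣ ∑ σ ∈ chRE p A, (-1) ^ σ.card * tq (sN σ) (mq S C (sN σ)) := by
  classical
  have hp : p.Prime := Fact.out
  have htc : ∀ (g : A) (U : Subgroup A),
      tq (cg g U) (mq S C (cg g U)) = tq U (mq S C U) := by
    intro g U
    have h1 := nM_conj hS hC g U
    rw [nM_tq hS hC, nM_tq hS hC, card_cg] at h1
    have h2 : (Nat.card U : ℤ) ≠ 0 := by
      have : 0 < Nat.card U := Nat.card_pos
      exact_mod_cast this.ne'
    exact mul_left_cancel₀ h2 h1
  have h1 := chS_sumE (p := p) (fun U => nM S C U) (fun U => tq U (mq S C U))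
    (fun U => nM_tq hS hC U) htc
  have h2 := eM_dvd hS hC h
  rw [eM_chS, h1] at h2
  set T := ∑ σ ∈ chRE p A, (-1) ^ σ.card * tq (sN σ) (mq S C (sN σ)) with hT
  have h3 : (Nat.card A : ℤ) = (ordProj[p] (Nat.card A) : ℕ) * (ordCompl[p] (Nat.card A) : ℕ) := by
    exact_mod_cast (Nat.ordProj_mul_ordCompl_eq_self (Nat.card A) p).symm
  rw [h3, mul_comm ((p ^ s : ℕ) : ℤ), mul_assoc] at h2
  have h4 : ((ordProj[p] (Nat.card A) : ℕ) : ℤ) ≠ 0 := by
    have := Nat.ordProj_pos (Nat.card A) p
    exact_mod_cast this.ne'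
  have h5 := Int.dvd_of_mul_dvd_mul_left h4 h2
  have h6 : IsCoprime ((p ^ s : ℕ) : ℤ) ((ordCompl[p] (Nat.card A) : ℕ) : ℤ) := by
    have h7 : Nat.Coprime (p ^ s) (ordCompl[p] (Nat.card A)) :=
      (Nat.coprime_ordCompl hp (Nat.card_pos (α := A)).ne').pow_left s
    exact h7.isCoprime
  exact h6.dvd_of_dvd_mul_left h5

variable {R : Type*} [CommRing R]

/-- the alternating sum of the traces of the products -/
noncomputable def FL (p : ℕ) (S : Set A) (L : List (MonoidAlgebra R A)) : R :=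
  ∑ σ ∈ chRE p A, (-1) ^ σ.card *
    tq (sN σ) (fun x => (hq R S (sN σ) * (L.map (rq (sN σ))).prod).coeff x)

theorem FL_iq {S : Set A} (hS : CInv S) (hR : (p : R) ^ s = 0)
    (h : ∀ U : Subgroup A, NoP p U → ∀ w : ↥U, (w : A) ∈ S → ∀ M, KM (p ^ s) p M w)
    (𝓛 : List (Set A)) (h𝓛 : ∀ C ∈ 𝓛, CInv C) : FL p S (𝓛.map (iq R)) = 0 := by
  have h1 := sum_mq_dvd (p := p) (s := s) hS (C := 𝓛.get) (fun i => h𝓛 _ (List.get_mem 𝓛 i))
    (fun U hU w hw => h U hU w hw _)
  obtain ⟨t, ht⟩ := h1
  have h2 := congrArg (Int.cast : ℤ → R) ht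
  rw [Int.cast_mul, Int.cast_natCast, Nat.cast_pow, hR, zero_mul] at h2
  rw [← h2]
  unfold FL
  push_cast
  refine Finset.sum_congr rfl fun σ _ => ?_
  rw [tq_cast, mq_cast]
  congr 4
  funext x
  congr 3
  rw [List.map_map]
  conv_lhs => rw [← List.ofFn_get 𝓛]
  rw [List.map_ofFn]
  rfl

theorem prod_mid (U : Subgroup A) (S : Set A) (L1 L2 : List (MonoidAlgebra R A))
    (z : MonoidAlgebra R A) : hq R S U * ((L1 ++ z :: L2).map (rq U)).prod =
      hq R S U * (L1.map (rq U)).prod * rq U z * (L2.map (rq U)).prod := by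
  rw [List.map_append, List.prod_append, List.map_cons, List.prod_cons]
  simp only [mul_assoc]

theorem FL_add (S : Set A) (L1 L2 : List (MonoidAlgebra R A)) (y z : MonoidAlgebra R A) :
    FL p S (L1 ++ (y + z) :: L2) = FL p S (L1 ++ y :: L2) + FL p S (L1 ++ z :: L2) := by
  unfold FL
  rw [← Finset.sum_add_distrib]
  refine Finset.sum_congr rfl fun σ _ => ?_
  rw [← mul_add, ← tq_add]
  congr 2
  funext x
  rw [prod_mid, prod_mid, prod_mid, rq_add, mul_add, add_mul, coeff_add, Finsupp.add_apply]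

theorem FL_smul (S : Set A) (L1 L2 : List (MonoidAlgebra R A)) (c : R) (z : MonoidAlgebra R A) :
    FL p S (L1 ++ (c • z) :: L2) = c * FL p S (L1 ++ z :: L2) := by
  unfold FL
  rw [Finset.mul_sum]
  refine Finset.sum_congr rfl fun σ _ => ?_
  rw [mul_left_comm c, ← tq_smul (sN σ) c]
  congr 2
  funext x
  rw [prod_mid, prod_mid, rq_smul, mul_smul_comm, smul_mul_assoc, coeff_smul, Finsupp.smul_apply,
    smul_eq_mul]

theorem FL_sum (S : Set A) (L1 L2 : List (MonoidAlgebra R A)) {ι : Type*} (F : Finset ι)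
    (z : ι → MonoidAlgebra R A) :
    FL p S (L1 ++ (∑ i ∈ F, z i) :: L2) = ∑ i ∈ F, FL p S (L1 ++ z i :: L2) := by
  classical
  induction F using Finset.induction_on with
  | empty =>
    rw [Finset.sum_empty, Finset.sum_empty]
    have h := FL_smul (p := p) S L1 L2 (0 : R) (0 : MonoidAlgebra R A)
    rwa [zero_smul, zero_mul] at h
  | insert i F hi ih => rw [Finset.sum_insert hi, Finset.sum_insert hi, FL_add, ih]

open Classical in
/-- the decomposition into level sets -/
theorem eq_sum_iq (z : MonoidAlgebra R A) :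
    z = ∑ r ∈ Finset.univ.image (fun x => z.coeff x), r • iq R {x : A | z.coeff x = r} := by
  ext x
  have h1 : ∀ (F : Finset R), (∑ r ∈ F, r • iq R {x : A | z.coeff x = r}).coeff x =
      ∑ r ∈ F, (r • iq R {x : A | z.coeff x = r}).coeff x := by
    intro F
    induction F using Finset.induction_on with
    | empty => rw [Finset.sum_empty, Finset.sum_empty]; rfl
    | insert i F hi ih =>
      rw [Finset.sum_insert hi, Finset.sum_insert hi, coeff_add, Finsupp.add_apply, ih]
  rw [h1, Finset.sum_eq_single (z.coeff x)]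
  · rw [coeff_smul, Finsupp.smul_apply, iq_coeff, if_pos (show x ∈ {y | z.coeff y = z.coeff x} from rfl),
      smul_eq_mul, mul_one]
  · intro r _ hr
    rw [coeff_smul, Finsupp.smul_apply, iq_coeff, if_neg, smul_zero]
    intro h
    exact hr h.symm
  · intro h
    exact absurd (Finset.mem_image_of_mem _ (Finset.mem_univ x)) h

theorem FL_zero {S : Set A} (hS : CInv S) (hR : (p : R) ^ s = 0)
    (h : ∀ U : Subgroup A, NoP p U → ∀ w : ↥U, (w : A) ∈ S → ∀ M, KM (p ^ s) p M w)
    (L : List (MonoidAlgebra R A)) (hL : ∀ z ∈ L, ∀ g x : A, z.coeff (g * x * g⁻¹) = z.coeff x) :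
    FL p S L = 0 := by
  classical
  have key : ∀ (L : List (MonoidAlgebra R A)),
      (∀ z ∈ L, ∀ g x : A, z.coeff (g * x * g⁻¹) = z.coeff x) →
      ∀ (𝓛 : List (Set A)), (∀ C ∈ 𝓛, CInv C) → FL p S (𝓛.map (iq R) ++ L) = 0 := by
    intro L
    induction L with
    | nil =>
      intro _ 𝓛 h𝓛
      rw [List.append_nil]
      exact FL_iq hS hR h 𝓛 h𝓛
    | cons z L ih =>
      intro hL 𝓛 h𝓛
      have hz := hL z List.mem_cons_self
      have hL' : ∀ z ∈ L, ∀ g x : A, z.coeff (g * x * g⁻¹) = z.coeff x :=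
        fun y hy => hL y (List.mem_cons_of_mem z hy)
      rw [eq_sum_iq z, FL_sum]
      refine Finset.sum_eq_zero fun r _ => ?_
      rw [FL_smul]
      have h1 : 𝓛.map (iq R) ++ iq R {x : A | z.coeff x = r} :: L =
          (𝓛 ++ [{x : A | z.coeff x = r}]).map (iq R) ++ L := by
        rw [List.map_append, List.map_singleton, List.append_assoc, List.singleton_append]
      rw [h1, ih hL', mul_zero]
      intro C hC
      rw [List.mem_append, List.mem_singleton] at hC
      rcases hC with hC | rfl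
      · exact h𝓛 C hC
      · intro g x
        change z.coeff (g * x * g⁻¹) = r ↔ z.coeff x = r
        rw [hz]
  have h1 := key L hL [] (fun C hC => absurd hC List.not_mem_nil)
  rwa [List.map_nil, List.nil_append] at h1

/-- the powers of the product of the restrictions of the inverse class sum and of a central element -/
theorem pow_zero_sum {S : Set A} (hS : CInv S) (hR : (p : R) ^ s = 0)
    (h : ∀ U : Subgroup A, NoP p U → ∀ w : ↥U, (w : A) ∈ S → ∀ M, KM (p ^ s) p M w)
    {y : MonoidAlgebra R A} (hy : ∀ g x : A, y.coeff (g * x * g⁻¹) = y.coeff x) (j : ℕ) :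
    ∑ σ ∈ chRE p A, (-1) ^ σ.card *
      tq (sN σ) (fun x => ((hq R S (sN σ) * rq (sN σ) y) ^ (j + 1)).coeff x) = (0 : R) := by
  classical
  -- the list
  let L : ℕ → List (MonoidAlgebra R A) := fun n =>
    Nat.rec [y] (fun _ l => y :: hq R S (⊤ : Subgroup A) :: l) n
  have hL0 : L 0 = [y] := rfl
  have hLs : ∀ n, L (n + 1) = y :: hq R S (⊤ : Subgroup A) :: L n := fun _ => rfl
  have hprod : ∀ (U : Subgroup A) (n : ℕ), hq R S U * ((L n).map (rq U)).prod =
      (hq R S U * rq U y) ^ (n + 1) := by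
    intro U n
    induction n with
    | zero =>
      rw [hL0, List.map_singleton, List.prod_singleton, zero_add, pow_one]
    | succ n ih =>
      rw [hLs, List.map_cons, List.map_cons, List.prod_cons, List.prod_cons, rq_hq, ih,
        pow_succ' _ (n + 1), mul_assoc]
  have hmem : ∀ n, ∀ z ∈ L n, ∀ g x : A, z.coeff (g * x * g⁻¹) = z.coeff x := by
    intro n
    induction n with
    | zero =>
      intro z hz
      rw [hL0, List.mem_singleton] at hz
      subst hz
      exact hy
    | succ n ih =>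
      intro z hz
      rw [hLs, List.mem_cons, List.mem_cons] at hz
      rcases hz with rfl | rfl | hz
      · exact hy
      · intro g x
        exact (ce_hq hS (⊤ : Subgroup A)).iv g (Subgroup.mem_top g) x
      · exact ih z hz
  have h1 := FL_zero (p := p) hS hR h (L j) (hmem j)
  rw [← h1]
  unfold FL
  refine Finset.sum_congr rfl fun σ _ => ?_
  rw [hprod]

end

end Pool.Agent.Lib.P0c8ca5.Kp
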