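import Mathlib
import Pool.Agent.Lib.P0c8ca5Id.Krs
import Pool.Agent.Lib.P0c8ca5Ex.OB
import Pool.Agent.Lib.P0c8ca5Kp.TB

/-!
# P0c8ca5Kp.TD: idempotents as polynomials, and their traces
-/

namespace Pool.Agent.Lib.P0c8ca5.Kp

open MonoidAlgebra Bw Pool.Agent.Lib.P0c8ca5.Id

set_option linter.unusedSectionVars false

section
open Polynomial

theorem exists_poly (S : ℕ) : ∃ f : ℤ[X], f.coeff 0 = 0 ∧ (X ^ 2 - X : ℤ[X]) ∣ f - X ∧
    (X ^ 2 - X : ℤ[X]) ^ S ∣ f ^ 2 - f := by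
  have key : ∀ m : ℕ, ∃ f : ℤ[X], f.coeff 0 = 0 ∧ (X ^ 2 - X : ℤ[X]) ∣ f - X ∧
      (X ^ 2 - X : ℤ[X]) ^ 2 ^ m ∣ f ^ 2 - f := by
    intro m
    induction m with
    | zero =>
      refine ⟨X, by simp, by simp, ?_⟩
      rw [pow_zero, pow_one]
    | succ m ih =>
      obtain ⟨f, h0, h1, h2⟩ := ih
      have h3 : (X ^ 2 - X : ℤ[X]) ∣ f ^ 2 - f := (dvd_pow_self _ (by positivity)).trans h2
      refine ⟨3 * f ^ 2 - 2 * f ^ 3, ?_, ?_, ?_⟩
      · simp [pow_succ, h0]
      · have e : 3 * f ^ 2 - 2 * f ^ 3 - X = (f ^ 2 - f) * (1 - 2 * f) + (f - X) := by ring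
        rw [e]
        exact dvd_add (h3.mul_right _) h1
      · have e : (3 * f ^ 2 - 2 * f ^ 3) ^ 2 - (3 * f ^ 2 - 2 * f ^ 3)
            = (f ^ 2 - f) ^ 2 * (4 * f ^ 2 - 4 * f - 3) := by ring
        rw [e, pow_succ 2 m, pow_mul]
        exact (pow_dvd_pow_of_dvd h2 2).mul_right _
  obtain ⟨f, h0, h1, h2⟩ := key S
  exact ⟨f, h0, h1, (pow_dvd_pow _ (Nat.lt_two_pow_self).le).trans h2⟩

theorem idem_of_poly {B : Type*} [Ring B] {x : B} {S : ℕ} (hx : (x ^ 2 - x) ^ S = 0) {f : ℤ[X]}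
    (hf : (X ^ 2 - X : ℤ[X]) ^ S ∣ f ^ 2 - f) : aeval x f * aeval x f = aeval x f := by
  obtain ⟨g, hg⟩ := hf
  have h1 := congrArg (aeval x) hg
  rw [map_mul, map_pow, map_sub, map_pow, map_sub, map_pow, aeval_X, hx, zero_mul, sub_eq_zero, pow_two] at h1
  exact h1

theorem nil_of_poly {B : Type*} [Ring B] {x : B} (hx : IsNilpotent (x ^ 2 - x)) {f : ℤ[X]}
    (hf : (X ^ 2 - X : ℤ[X]) ∣ f - X) : IsNilpotent (aeval x f - x) := by
  obtain ⟨g, hg⟩ := hf
  have h1 := congrArg (aeval x) hg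
  rw [map_mul, map_sub, map_sub, map_pow, aeval_X] at h1
  rw [h1]
  have h2 : Commute (x ^ 2 - x) (aeval x g) := by
    have h3 : x ^ 2 - x = aeval x (X ^ 2 - X : ℤ[X]) := by
      rw [map_sub, map_pow, aeval_X]
    rw [h3]
    change aeval x _ * aeval x g = aeval x g * aeval x _
    rw [← map_mul, ← map_mul, mul_comm]
  exact h2.isNilpotent_mul_right hx

end

theorem eq_of_nil {B : Type*} [Ring B] {a e : B} (ha : a * a = a) (he : e * e = e)
    (hc : a * e = e * a) (hn : IsNilpotent (a - e)) : a = e := by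
  have h3 : (a - e) * ((a - e) * (a - e)) = a - e := by
    have h1 : (a - e) * (a - e) = a - a * e - e * a + e := by
      rw [sub_mul, mul_sub, mul_sub, ha, he]
      abel
    have h2 : a * (a * e) = a * e := by rw [← mul_assoc, ha]
    have h4 : a * (e * a) = a * e := by rw [← hc, h2]
    have h5 : e * (a * e) = a * e := by rw [hc, ← mul_assoc, he]
    have h6 : e * (e * a) = e * a := by rw [← mul_assoc, he]
    rw [h1, sub_mul, mul_add, mul_sub, mul_sub, mul_add, mul_sub, mul_sub, ha, h2, h4, h5, h6, he,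
      hc]
    abel
  obtain ⟨n, hn⟩ := hn
  have h4 : ∀ m : ℕ, (a - e) ^ (2 * m + 1) = a - e := by
    intro m
    induction m with
    | zero => rw [mul_zero, zero_add, pow_one]
    | succ m ih =>
      have e1 : 2 * (m + 1) + 1 = (2 * m + 1) + 1 + 1 := by ring
      rw [e1, pow_succ, pow_succ, ih, mul_assoc]
      exact h3
  have h5 := h4 n
  have e2 : 2 * n + 1 = n + (n + 1) := by ring
  rw [e2, pow_add, hn, zero_mul] at h5
  exact sub_eq_zero.1 h5.symm

section
variable {R k : Type*} [CommRing R] [Field k] {A : Type*} [Group A] [Fintype A] {p s : ℕ}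

theorem nil_lift (ρ : R →+* k) (hd : ∀ r, ρ r = 0 → (p : R) ∣ r) (hs : (p : R) ^ s = 0)
    {x : MonoidAlgebra R A} (h : IsNilpotent (mapRingHom A ρ x)) : IsNilpotent x := by
  classical
  obtain ⟨n, hn⟩ := h
  rw [← map_pow] at hn
  have h1 : ∀ g : A, ∃ y : R, (x ^ n).coeff g = p * y := by
    intro g
    apply hd
    have h2 := congrArg (fun z : MonoidAlgebra k A => z.coeff g) hn
    exact h2
  choose y hy using h1
  let Y : MonoidAlgebra R A := MonoidAlgebra.ofCoeff (Finsupp.equivFunOnFinite.symm y)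
  have h3 : x ^ n = (p : R) • Y := by
    ext g
    rw [hy]
    rfl
  refine ⟨n * s, ?_⟩
  rw [pow_mul, h3, smul_pow, hs, zero_smul]

open Polynomial in
theorem ce_aeval {U : Subgroup A} {x : MonoidAlgebra R A} (hx : Ce U x) (f : ℤ[X]) :
    aeval x f = ∑ i ∈ Finset.range (f.natDegree + 1), (f.coeff i : R) • x ^ i ∧
      Ce U (aeval x f) := by
  have h1 : aeval x f = ∑ i ∈ Finset.range (f.natDegree + 1), (f.coeff i : R) • x ^ i := by
    rw [aeval_eq_sum_range]
    refine Finset.sum_congr rfl fun i _ => ?_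
    rw [Int.cast_smul_eq_zsmul]
  refine ⟨h1, ?_⟩
  rw [h1]
  exact Ce.sum _ fun i _ => (hx.pow i).smul _

theorem tq_zero (U : Subgroup A) : tq U (fun _ : A => (0 : R)) = 0 := by
  have h := tq_smul U (0 : R) (fun _ : A => (0 : R))
  simp only [zero_mul] at h
  exact h

theorem tq_sum (U : Subgroup A) {ι : Type*} (F : Finset ι) (f : ι → A → R) :
    tq U (fun x => ∑ i ∈ F, f i x) = ∑ i ∈ F, tq U (f i) := by
  classical
  induction F using Finset.induction_on with
  | empty =>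
    simp only [Finset.sum_empty]
    exact tq_zero U
  | insert i F hi ih =>
    rw [Finset.sum_insert hi, ← ih, ← tq_add]
    congr 1
    funext x
    rw [Finset.sum_insert hi]

open Polynomial in
theorem tq_aeval {U : Subgroup A} {x : MonoidAlgebra R A} (hx : Ce U x) (f : ℤ[X]) :
    tq U (fun g => (aeval x f).coeff g) =
      ∑ i ∈ Finset.range (f.natDegree + 1), (f.coeff i : R) * tq U (fun g => (x ^ i).coeff g) := by
  classical
  rw [(ce_aeval hx f).1]
  have h1 : ∀ F : Finset ℕ, (fun g => (∑ i ∈ F, (f.coeff i : R) • x ^ i).coeff g) =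
      fun g => ∑ i ∈ F, (f.coeff i : R) * (x ^ i).coeff g := by
    intro F
    funext g
    induction F using Finset.induction_on with
    | empty => rfl
    | insert i F hi ih =>
      rw [Finset.sum_insert hi, Finset.sum_insert hi, MonoidAlgebra.coeff_add, Finsupp.add_apply, ih,
        MonoidAlgebra.coeff_smul, Finsupp.smul_apply, smul_eq_mul]
  rw [h1, tq_sum]
  exact Finset.sum_congr rfl fun i _ => tq_smul U _ _

variable [Fact p.Prime] [CharP k p] [IsAlgClosed k]

/-- the idempotent of `sN σ` below a central idempotent -/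
theorem e_props {σ : Finset (Subgroup A)} (h : IsChE p σ) {b : MonoidAlgebra k A}
    (hb : b ∈ fixAlg k (⊤ : Subgroup A) ⊤) (hbb : b * b = b) :
    resS (sC σ : Set A) b ∈ fixAlg k (sN σ) (sN σ) ∧
      resS (sC σ : Set A) b * resS (sC σ : Set A) b = resS (sC σ : Set A) b ∧
      rz (sN σ) b - resS (sC σ : Set A) b ∈ fixAlg k (sN σ) (sN σ) ∧
      IsNilpotent (rz (sN σ) b - resS (sC σ : Set A) b) := by
  classical
  obtain ⟨Q, hQ, hC⟩ := sand_sC h
  have hbi : InvBy (⊤ : Subgroup A) b := (mem_fixAlg.1 hb).2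
  set e := resS (sC σ : Set A) b with he
  have hcn : ∀ g ∈ sN σ, ∀ x, g * x * g⁻¹ ∈ sC σ ↔ x ∈ sC σ := by
    have key : ∀ g ∈ sN σ, ∀ x ∈ sC σ, g * x * g⁻¹ ∈ sC σ := by
      intro g hg x hx
      rw [hC, Subgroup.mem_centralizer_iff] at hx ⊢
      intro y hy
      have h1 := (Subgroup.mem_normalizer_iff.1
        (Subgroup.inv_mem _ (hQ.no hg)) y).1 hy
      have h2 := hx _ h1
      rw [inv_inv] at h2
      calc y * (g * x * g⁻¹) = g * (g⁻¹ * y * g * x) * g⁻¹ := by group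
        _ = g * (x * (g⁻¹ * y * g)) * g⁻¹ := by rw [h2]
        _ = g * x * g⁻¹ * y := by group
    intro g hg x
    refine ⟨fun hx => ?_, key g hg x⟩
    have h1 := key g⁻¹ ((sN σ).inv_mem hg) _ hx
    have e1 : g⁻¹ * (g * x * g⁻¹) * g⁻¹⁻¹ = x := by group
    rwa [e1] at h1
  have heU : e ∈ fixAlg k (sN σ) (sN σ) := by
    rw [mem_fixAlg]
    refine ⟨fun x hx => ?_, fun g hg x => ?_⟩
    · by_cases hx' : x ∈ sC σ
      · rw [hC] at hx'
        exact hQ.ce hx'
      · exact absurd (coeff_resS_of_notMem b (show x ∉ (sC σ : Set A) from hx')) hx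
    · by_cases hx' : x ∈ sC σ
      · rw [he, coeff_resS_of_mem _ (show x ∈ (sC σ : Set A) from hx'),
          coeff_resS_of_mem _ (show g * x * g⁻¹ ∈ (sC σ : Set A) from (hcn g hg x).2 hx')]
        exact hbi g (Subgroup.mem_top g) x
      · rw [he, coeff_resS_of_notMem _ (show x ∉ (sC σ : Set A) from hx'),
          coeff_resS_of_notMem _ (show g * x * g⁻¹ ∉ (sC σ : Set A) from
            fun h1 => hx' ((hcn g hg x).1 h1))]
  have hee : e * e = e := by
    rw [he, hC, ← resS_mul hQ.pg (hbi.mono le_top) (hbi.mono le_top), hbb]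
  have hd : rz (sN σ) b - e ∈ fixAlg k (sN σ) (sN σ) :=
    (fixAlg k (sN σ) (sN σ)).sub_mem (NilCAux.rz_mem hb _) heU
  have hdn : IsNilpotent (rz (sN σ) b - e) := by
    refine nil_sub hQ.le hQ.no hQ.pg hd fun x hx => ?_
    have hx' : x ∈ (sC σ : Set A) := by
      rw [hC]
      exact hx
    have h1 : (rz (sN σ) b - e).coeff x = (rz (sN σ) b).coeff x - e.coeff x := rfl
    rw [h1, rz_coeff, if_pos (hQ.ce hx), he, coeff_resS_of_mem _ hx', sub_self]
  exact ⟨heU, hee, hd, hdn⟩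

open Polynomial in
/-- the trace of the idempotent is the number of characters -/
theorem trq_kB (ρ : R →+* k) (hs : Function.Surjective ρ) (hu : ∀ r, ρ r ≠ 0 → IsUnit r)
    {σ : Finset (Subgroup A)} (h : IsChE p σ) {b : MonoidAlgebra k A}
    (hb : b ∈ fixAlg k (⊤ : Subgroup A) ⊤) (hbb : b * b = b) {x : MonoidAlgebra R A}
    (hx : Ce (sN σ) x)
    (hred : IsNilpotent (MonoidAlgebra.mapRingHom A ρ x - resS (sC σ : Set A) b)) {S : ℕ}
    (hS : (x ^ 2 - x) ^ S = 0) {f : ℤ[X]} (hf1 : (X ^ 2 - X : ℤ[X]) ∣ f - X)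
    (hf2 : (X ^ 2 - X : ℤ[X]) ^ S ∣ f ^ 2 - f) :
    tq (sN σ) (fun g => (aeval x f).coeff g) = (kB σ b : R) := by
  classical
  let _ : Fintype (Cl (sN σ) (fun x => x ∈ sN σ)) := Fintype.ofFinite _
  obtain ⟨he, hee, -, -⟩ := e_props h hb hbb
  set e := resS (sC σ : Set A) b with hedef
  set x' := MonoidAlgebra.mapRingHom A ρ x with hx'
  have hE : aeval x f * aeval x f = aeval x f := idem_of_poly hS hf2
  have hCe := (ce_aeval hx f).2
  -- the reduction
  have hred1 : MonoidAlgebra.mapRingHom A ρ (aeval x f) = aeval x' f := by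
    have h1 := Polynomial.aeval_algHom_apply (MonoidAlgebra.mapRingHom A ρ).toIntAlgHom x f
    exact h1.symm
  have hx'c : Ce (sN σ) x' := by
    refine ⟨fun g hg => ?_, fun g hg y => ?_⟩
    · rw [hx', ← coeff_mapRingHom_apply', hx.sp g hg, map_zero]
    · rw [hx', ← coeff_mapRingHom_apply', ← coeff_mapRingHom_apply', hx.iv g hg]
  have hec : Ce (sN σ) e := ce_iff.2 he
  have hE' : aeval x' f * aeval x' f = aeval x' f := by
    rw [← hred1, ← map_mul, hE]
  have hnil1 : IsNilpotent (x' ^ 2 - x') := by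
    refine ⟨S, ?_⟩
    rw [hx', ← map_pow, ← map_sub, ← map_pow, hS, map_zero]
  have hnil2 := nil_of_poly hnil1 hf1
  have hEc' := (ce_aeval hx'c f).2
  have hcomm : ∀ {a c : MonoidAlgebra k A}, Ce (sN σ) a → Ce (sN σ) c → Commute a c :=
    fun ha hc => ha.comm hc
  have hsubc : ∀ {a c : MonoidAlgebra k A}, Ce (sN σ) a → Ce (sN σ) c → Ce (sN σ) (a - c) :=
    fun ha hc => by
      rw [ce_iff] at ha hc ⊢
      exact (fixAlg k (sN σ) (sN σ)).sub_mem ha hc
  have hfin : aeval x' f = e := by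
    refine eq_of_nil hE' hee (hEc'.comm hec) ?_
    have h1 : aeval x' f - e = (aeval x' f - x') + (x' - e) := by abel
    rw [h1]
    exact (hcomm (hsubc hEc' hx'c) (hsubc hx'c hec)).isNilpotent_add hnil2 hred
  -- the trace
  have hidem : Mq (sN σ) (aeval x f) * Mq (sN σ) (aeval x f) = Mq (sN σ) (aeval x f) := by
    rw [← pow_two, ← Mq_pow hCe 2, pow_two, hE]
  rw [tq_eq, Ex.trace_rank ρ hs hu _ hidem, Mq_map, hred1, hfin, rank_Mq he hee]
  rfl

end

end Pool.Agent.Lib.P0c8ca5.Kp
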