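import Mathlib
import Pool.Agent.Lib.P0c8ca5Ex.OB

/-!
# WQ: the rings `W(k) / p ^ s`

`exists_ring`: a commutative ring `R` with a surjection `ρ` onto `k` with kernel `(p)`, such that
all `x` with `ρ x ≠ 0` are units and `n = 0` in `R` if and only if `p ^ s` divides `n`.
-/

namespace Pool.Agent.Lib.P0c8ca5.Kp

open Pool.Agent.Lib.P0c8ca5.Ex

universe u

theorem exists_ring (p : ℕ) [Fact p.Prime] (k : Type u) [Field k] [IsAlgClosed k] [CharP k p]
    {s : ℕ} (hs : s ≠ 0) : ∃ (R : Type u) (_ : CommRing R) (ρ : R →+* k),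
      Function.Surjective ρ ∧ (∀ x, ρ x ≠ 0 → IsUnit x) ∧ (∀ x, ρ x = 0 → (p : R) ∣ x) ∧
      (p : R) ^ s = 0 ∧ ∀ n : ℕ, (n : R) = 0 ↔ p ^ s ∣ n := by
  let I : Ideal (OW p k) := Ideal.span {(p : OW p k) ^ s}
  have hI : ∀ a ∈ I, rdO p k a = 0 := by
    intro a ha
    rw [rdO_eq_zero]
    exact (dvd_pow_self _ hs).trans (Ideal.mem_span_singleton.1 ha)
  refine ⟨OW p k ⧸ I, inferInstance, Ideal.Quotient.lift I (rdO p k) hI, ?_, ?_, ?_, ?_, ?_⟩
  · intro c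
    obtain ⟨y, rfl⟩ := rdO_surj p k c
    exact ⟨Ideal.Quotient.mk I y, Ideal.Quotient.lift_mk I _ hI⟩
  · intro x hx
    obtain ⟨y, rfl⟩ := Ideal.Quotient.mk_surjective x
    rw [Ideal.Quotient.lift_mk] at hx
    exact (unitO hx).map (Ideal.Quotient.mk I)
  · intro x hx
    obtain ⟨y, rfl⟩ := Ideal.Quotient.mk_surjective x
    rw [Ideal.Quotient.lift_mk] at hx
    obtain ⟨z, rfl⟩ := rdO_eq_zero.1 hx
    exact ⟨Ideal.Quotient.mk I z, by rw [map_mul, map_natCast]⟩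
  · rw [← map_natCast (Ideal.Quotient.mk I), ← map_pow, Ideal.Quotient.eq_zero_iff_mem]
    exact Ideal.mem_span_singleton_self _
  · intro n
    rw [← map_natCast (Ideal.Quotient.mk I), Ideal.Quotient.eq_zero_iff_mem,
      Ideal.mem_span_singleton, natO_dvd]

end Pool.Agent.Lib.P0c8ca5.Kp
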