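import Mathlib
import Pool.Agent.Lib.P0c8ca5Kp.GA
import Pool.Agent.Lib.P0c8ca5Kp.TC
import Pool.Agent.Lib.P0c8ca5Kp.TD
import Pool.Agent.Lib.P0c8ca5Kp.WQ

/-!
# P0c8ca5Kp.KrP: the alternating sum of the numbers of characters modulo `p ^ s`
-/

namespace Pool.Agent.Lib.P0c8ca5.Kp

open MonoidAlgebra Bw Pool.Agent.Lib.P0c8ca5.Id

set_option linter.unusedSectionVars false

section
universe v
variable {p s : ℕ} {k : Type v} [Field k] {A : Type*} [Group A] [Fintype A]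
variable [Fact p.Prime] [CharP k p] [IsAlgClosed k]

/-- the sum over the chosen representatives, from the class `S` -/
theorem kR_dvd {b : MonoidAlgebra k A} (hb : IsBlock (⊤ : Subgroup A) b) {S : Set A} (hS : CInv S)
    (h : ∀ U : Subgroup A, NoP p U → ∀ w : ↥U, (w : A) ∈ S → ∀ M, KM (p ^ s) p M w)
    (hn : ¬ IsNilpotent (hI k S (⊤ : Subgroup A) * b)) :
    ((p ^ s : ℕ) : ℤ) ∣ ∑ σ ∈ chRE p A, (-1) ^ σ.card * (kB σ b : ℤ) := by
  classical
  rcases Nat.eq_zero_or_pos s with rfl | hs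
  · simp
  obtain ⟨R, _, ρ, hρs, hu, hker, hR, hdvd⟩ := exists_ring p k hs.ne'
  -- the inverse of the class sum on the block
  obtain ⟨w, hw, hwb⟩ := (blk_nilp_or_unit hb (NilCAux.hI_mem (k := k) hS ⊤)).resolve_left hn
  have hwb' : w * b ∈ fixAlg k (⊤ : Subgroup A) ⊤ := (fixAlg k (⊤ : Subgroup A) ⊤).mul_mem hw hb.mem
  have hKw : hI k S (⊤ : Subgroup A) * (w * b) = b := by
    rw [← mul_assoc]
    exact hwb
  -- the lift
  let ι : k → R := fun c => (hρs c).choose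
  have hι : ∀ c, ρ (ι c) = c := fun c => (hρs c).choose_spec
  let y : MonoidAlgebra R A :=
    MonoidAlgebra.ofCoeff (Finsupp.equivFunOnFinite.symm fun x => ι ((w * b).coeff x))
  have hy : ∀ g x : A, y.coeff (g * x * g⁻¹) = y.coeff x := by
    intro g x
    change ι ((w * b).coeff (g * x * g⁻¹)) = ι ((w * b).coeff x)
    rw [(mem_fixAlg.1 hwb').2 g (Subgroup.mem_top g) x]
  let z : Finset (Subgroup A) → MonoidAlgebra R A := fun σ => hq R S (sN σ) * rq (sN σ) y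
  have hz : ∀ σ, Ce (sN σ) (z σ) := fun σ => (ce_hq hS _).mul (ce_rq hy)
  have hzm : ∀ σ, mapRingHom A ρ (z σ) =
      rz (sN σ) (hI k S (⊤ : Subgroup A)) * rz (sN σ) (w * b) := by
    intro σ
    change mapRingHom A ρ (hq R S (sN σ) * rq (sN σ) y) = _
    rw [map_mul, rz_hI]
    congr 1
    · ext x
      change ρ ((hq R S (sN σ)).coeff x) = _
      rw [hq_coeff, hI_coeff]
      split_ifs
      · exact map_one ρ
      · exact map_zero ρ
    · ext x
      change ρ ((rq (sN σ) y).coeff x) = _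
      rw [rq_coeff, rz_coeff]
      split_ifs
      · exact hι _
      · exact map_zero ρ
  have hmc : ∀ σ, Ce (sN σ) (mapRingHom A ρ (z σ)) := by
    intro σ
    refine ⟨fun g hg => ?_, fun g hg y => ?_⟩
    · rw [← coeff_mapRingHom_apply', (hz σ).sp g hg, map_zero]
    · rw [← coeff_mapRingHom_apply', ← coeff_mapRingHom_apply', (hz σ).iv g hg]
  have hred : ∀ σ ∈ chRE p A, IsNilpotent (mapRingHom A ρ (z σ) - resS (sC σ : Set A) b) := by
    intro σ hσ
    obtain ⟨Q, hQ⟩ := sand_of_chE (isChE_of_mem hσ)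
    obtain ⟨-, -, hd, hdn⟩ := e_props (isChE_of_mem hσ) hb.mem hb.idem
    obtain ⟨h1, h2⟩ := rz_mul_nil hQ (NilCAux.hI_mem (k := k) hS ⊤) hwb'
    rw [hKw] at h1 h2
    have h4 : mapRingHom A ρ (z σ) - resS (sC σ : Set A) b =
        (rz (sN σ) b - resS (sC σ : Set A) b) -
          (rz (sN σ) b - rz (sN σ) (hI k S (⊤ : Subgroup A)) * rz (sN σ) (w * b)) := by
      rw [hzm]
      abel
    rw [h4]
    exact Commute.isNilpotent_sub ((ce_iff.2 hd).comm (ce_iff.2 h1)) hdn h2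
  have hidn : ∀ σ ∈ chRE p A, IsNilpotent (z σ ^ 2 - z σ) := by
    intro σ hσ
    refine nil_lift ρ hker hR ?_
    rw [map_sub, map_pow]
    obtain ⟨he, hee, -, -⟩ := e_props (isChE_of_mem hσ) hb.mem hb.idem
    have hc : Commute (mapRingHom A ρ (z σ)) (resS (sC σ : Set A) b) :=
      (hmc σ).comm (ce_iff.2 he)
    have h1 : mapRingHom A ρ (z σ) ^ 2 - mapRingHom A ρ (z σ) =
        (mapRingHom A ρ (z σ) - resS (sC σ : Set A) b) *
          (mapRingHom A ρ (z σ) + resS (sC σ : Set A) b - 1) := by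
      rw [mul_sub, mul_add, sub_mul, sub_mul, hee, mul_one, pow_two, hc.eq]
      abel
    rw [h1]
    refine Commute.isNilpotent_mul_right ?_ (hred σ hσ)
    have h2 : Commute (mapRingHom A ρ (z σ)) (mapRingHom A ρ (z σ) + resS (sC σ : Set A) b - 1) :=
      ((Commute.refl _).add_right hc).sub_right (Commute.one_right _)
    have h3 : Commute (resS (sC σ : Set A) b)
        (mapRingHom A ρ (z σ) + resS (sC σ : Set A) b - 1) :=
      (hc.symm.add_right (Commute.refl _)).sub_right (Commute.one_right _)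
    exact h2.sub_left h3
  -- a common exponent
  obtain ⟨N, hN⟩ : ∃ N : ℕ, ∀ σ ∈ chRE p A, (z σ ^ 2 - z σ) ^ N = 0 := by
    choose! n hn' using hidn
    refine ⟨∑ σ ∈ chRE p A, n σ, fun σ hσ => ?_⟩
    exact pow_eq_zero_of_le (Finset.single_le_sum (f := n) (fun _ _ => Nat.zero_le _) hσ) (hn' σ hσ)
  obtain ⟨f, hf0, hf1, hf2⟩ := exists_poly N
  have key : ∀ σ ∈ chRE p A, tq (sN σ) (fun g => (Polynomial.aeval (z σ) f).coeff g) =
      (kB σ b : R) := fun σ hσ =>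
    trq_kB ρ hρs hu (isChE_of_mem hσ) hb.mem hb.idem (hz σ) (hred σ hσ) (hN σ hσ) hf1 hf2
  have h1 : ((∑ σ ∈ chRE p A, (-1) ^ σ.card * (kB σ b : ℤ) : ℤ) : R) = 0 := by
    push_cast
    have h2 : ∀ σ ∈ chRE p A, (-1 : R) ^ σ.card * (kB σ b : R) =
        ∑ i ∈ Finset.range (f.natDegree + 1), (f.coeff i : R) *
          ((-1) ^ σ.card * tq (sN σ) (fun g => (z σ ^ i).coeff g)) := by
      intro σ hσ
      rw [← key σ hσ, tq_aeval (hz σ), Finset.mul_sum]
      exact Finset.sum_congr rfl fun i _ => by ring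
    rw [Finset.sum_congr rfl h2, Finset.sum_comm]
    refine Finset.sum_eq_zero fun i _ => ?_
    rw [← Finset.mul_sum]
    rcases i with _ | i
    · rw [hf0, Int.cast_zero, zero_mul]
    · rw [pow_zero_sum hS hR h hy i, mul_zero]
  generalize (∑ σ ∈ chRE p A, (-1) ^ σ.card * (kB σ b : ℤ) : ℤ) = n at h1
  obtain ⟨m, rfl | rfl⟩ := n.eq_nat_or_neg
  · rw [Int.cast_natCast, hdvd] at h1
    exact_mod_cast h1
  · rw [Int.cast_neg, Int.cast_natCast, neg_eq_zero, hdvd] at h1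
    rw [dvd_neg]
    exact_mod_cast h1

/-- THEOREM Z': `B` a block with defect group `D`, `u` in the center of `D` with
`u ^ (p ^ s) ∉ [D, D]`: the alternating sum of the numbers of characters is divisible by
`p ^ (s + 1)` -/
theorem krsp {b : MonoidAlgebra k A} (hb : IsBlock (⊤ : Subgroup A) b) {D : Subgroup A}
    (hD : IsDefectGroup p (⊤ : Subgroup A) b D) {u : A} (hu : u ∈ D)
    (huc : ∀ x ∈ D, u * x = x * u) (hu' : u ^ p ^ s ∉ ⁅D, D⁆)
    (R : Finset (Finset (Subgroup A))) (hR1 : ∀ σ ∈ R, IsChE p σ)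
    (hR2 : ∀ τ, IsChE p τ → ∃! σ, σ ∈ R ∧ ∃ g : A, τ = ChOrbAux.cgS g σ) :
    ((p ^ (s + 1) : ℕ) : ℤ) ∣ ∑ σ ∈ R, (-1) ^ σ.card * (kB σ b : ℤ) := by
  rw [sum_reps (p := p) (fun g σ => by rw [ChOrbAux.card_cgS, kB_cgS g σ hb.invBy]) R hR1 hR2]
  obtain ⟨d, hud, hd, hDd, hmax, hnn⟩ := exists_dd hb hD hu huc
  have hup : Pel p u := by
    obtain ⟨n, hn⟩ := hD.isPGroup ⟨u, hu⟩
    exact ⟨n, congrArg Subtype.val hn⟩
  have hG : Gs p (s + 1) (u * d) := Gs_of hud hup hd fun j hj =>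
    dvd_of_pow_mem hD.isPGroup hu hu' (pow_mem_comm hD.isPGroup hu huc hd hud hDd hmax hj)
  have hC := cInv_isConj (u * d)
  refine kR_dvd hb hC (fun U hU w hw M => ?_) hnn
  obtain ⟨g, hg⟩ := isConj_iff.1 (show IsConj (u * d) (w : A) from hw)
  have h1 : Gs p (s + 1) (w : A) := hg ▸ Gs_conj g hG
  exact KM_of_Gs ((NoP_dn U).2 hU) (Gs_sub h1) M

end

end Pool.Agent.Lib.P0c8ca5.Kp
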